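import Pool.Agent.GrCyc.Top

/-! Krull dimension of closed subsets of `Gr m n` and the growth of the Hilbert function. -/

namespace Pool.Agent.GrCyc

open MvPolynomial Module

variable {m n : ℕ}

/-- the forms of degree `t` which vanish on `Z` -/
def vanSub (Z : Set (Gr m n)) (t : ℕ) :
    Submodule ℂ (homogeneousSubmodule (Fin m ↪o Fin n) ℂ t) where
  carrier := {P | Z ⊆ zeros P.1}
  add_mem' := by
    intro P Q hP hQ V hV A hA
    show eval (plu A) (P.1 + Q.1) = 0
    rw [map_add, hP hV A hA, hQ hV A hA, add_zero]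
  zero_mem' := by
    intro V hV A hA
    show eval (plu A) 0 = 0
    rw [map_zero]
  smul_mem' := by
    intro c P hP V hV A hA
    show eval (plu A) (c • P.1) = 0
    rw [smul_eval, hP hV A hA, mul_zero]

lemma mem_vanSub {Z : Set (Gr m n)} {t : ℕ} {P : homogeneousSubmodule (Fin m ↪o Fin n) ℂ t} :
    P ∈ vanSub Z t ↔ Z ⊆ zeros P.1 := Iff.rfl

/-- the Hilbert function of `Z` -/
noncomputable def hilb (Z : Set (Gr m n)) (t : ℕ) : ℕ :=
  finrank ℂ (homogeneousSubmodule (Fin m ↪o Fin n) ℂ t ⧸ vanSub Z t)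

/-- the Hilbert function of `Z` grows at most like `t ^ k` -/
def Growth (Z : Set (Gr m n)) (k : ℕ) : Prop := ∃ C : ℕ, ∀ t : ℕ, hilb Z t ≤ C * (t + 1) ^ k

instance finite_homogeneousSubmodule (σ : Type*) [Finite σ] (t : ℕ) :
    Module.Finite ℂ (homogeneousSubmodule σ ℂ t) := by
  have h : homogeneousSubmodule σ ℂ t ≤ restrictTotalDegree σ ℂ t := by
    intro P hP
    rw [mem_restrictTotalDegree]
    exact ((mem_homogeneousSubmodule t P).1 hP).totalDegree_le
  exact Submodule.finiteDimensional_of_le h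

/-- (from a linear injection of forms modulo forms vanishing on `Z`) -/
theorem growth_of_linearMap {Z : Set (Gr m n)} {k : ℕ} (C : ℕ)
    (W : ℕ → Type) [∀ t, AddCommGroup (W t)] [∀ t, Module ℂ (W t)] [∀ t, Module.Finite ℂ (W t)]
    (f : ∀ t, homogeneousSubmodule (Fin m ↪o Fin n) ℂ t →ₗ[ℂ] W t)
    (hf : ∀ t P, f t P = 0 → Z ⊆ zeros P.1) (hW : ∀ t, finrank ℂ (W t) ≤ C * (t + 1) ^ k) :
    Growth Z k := by
  refine ⟨C, fun t => le_trans ?_ (hW t)⟩
  have h1 : LinearMap.ker (f t) ≤ vanSub Z t := fun P hP => hf t P hP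
  have h2 : Function.Surjective (Submodule.factor h1) := Submodule.factor_surjective h1
  have h3 : hilb Z t ≤ finrank ℂ (homogeneousSubmodule (Fin m ↪o Fin n) ℂ t ⧸ LinearMap.ker (f t)) :=
    LinearMap.finrank_le_finrank_of_surjective (f := Submodule.factor h1) h2
  have h4 : finrank ℂ (homogeneousSubmodule (Fin m ↪o Fin n) ℂ t ⧸ LinearMap.ker (f t)) =
      finrank ℂ (LinearMap.range (f t)) := LinearEquiv.finrank_eq (f t).quotKerEquivRange
  rw [h4] at h3
  exact h3.trans (Submodule.finrank_le _)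

/-- multiplication by a form -/
noncomputable def mulForm {e : ℕ} {Q : MvPolynomial (Fin m ↪o Fin n) ℂ} (hQ : Q.IsHomogeneous e)
    (t : ℕ) : homogeneousSubmodule (Fin m ↪o Fin n) ℂ t →ₗ[ℂ]
      homogeneousSubmodule (Fin m ↪o Fin n) ℂ (t + e) :=
  (LinearMap.mulRight ℂ Q ∘ₗ (homogeneousSubmodule (Fin m ↪o Fin n) ℂ t).subtype).codRestrict _
    (fun P => ((mem_homogeneousSubmodule _ _).1 P.2).mul hQ)

lemma mulForm_coe {e : ℕ} {Q : MvPolynomial (Fin m ↪o Fin n) ℂ} (hQ : Q.IsHomogeneous e)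
    (t : ℕ) (P : homogeneousSubmodule (Fin m ↪o Fin n) ℂ t) : (mulForm hQ t P).1 = P.1 * Q := rfl

/-- a form which does not vanish on the irreducible set `Z` gives an injection -/
lemma hilb_add_le {Z Z' : Set (Gr m n)} (hZ' : IsIrreducible Z') (hle : Z ⊆ Z') {e : ℕ}
    {Q : MvPolynomial (Fin m ↪o Fin n) ℂ} (hQ : Q.IsHomogeneous e) (h1 : Z ⊆ zeros Q)
    (h2 : ¬ Z' ⊆ zeros Q) (t : ℕ) : hilb Z (t + e) + hilb Z' t ≤ hilb Z' (t + e) := by
  let S := homogeneousSubmodule (Fin m ↪o Fin n) ℂ (t + e)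
  let φ : homogeneousSubmodule (Fin m ↪o Fin n) ℂ t →ₗ[ℂ] S ⧸ vanSub Z' (t + e) :=
    (vanSub Z' (t + e)).mkQ ∘ₗ mulForm hQ t
  have hker : LinearMap.ker φ = vanSub Z' t := by
    ext P
    rw [LinearMap.mem_ker, mem_vanSub]
    show (vanSub Z' (t + e)).mkQ (mulForm hQ t P) = 0 ↔ _
    rw [Submodule.mkQ_apply, Submodule.Quotient.mk_eq_zero, mem_vanSub, mulForm_coe]
    constructor
    · intro h
      rcases subset_or_of_irreducible hZ' ((mem_homogeneousSubmodule _ _).1 P.2) hQ h with h | h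
      · exact h
      · exact absurd h h2
    · intro h
      rw [zeros_mul ((mem_homogeneousSubmodule _ _).1 P.2) hQ]
      exact h.trans Set.subset_union_left
  have hle' : vanSub Z' (t + e) ≤ vanSub Z (t + e) := fun P hP => hle.trans hP
  let ψ : S ⧸ vanSub Z' (t + e) →ₗ[ℂ] S ⧸ vanSub Z (t + e) := Submodule.factor hle'
  have hψ : Function.Surjective ψ := Submodule.factor_surjective hle'
  have hr : LinearMap.range φ ≤ LinearMap.ker ψ := by
    rintro _ ⟨P, rfl⟩
    show Submodule.factor hle' ((vanSub Z' (t + e)).mkQ (mulForm hQ t P)) = 0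
    rw [Submodule.factor_mk, Submodule.mkQ_apply,
      Submodule.Quotient.mk_eq_zero, mem_vanSub,
      mulForm_coe, zeros_mul ((mem_homogeneousSubmodule _ _).1 P.2) hQ]
    exact h1.trans Set.subset_union_right
  have h3 : finrank ℂ (LinearMap.range φ) = hilb Z' t := by
    unfold hilb
    rw [← hker]
    exact (LinearEquiv.finrank_eq φ.quotKerEquivRange).symm
  have h4 := LinearMap.finrank_range_add_finrank_ker ψ
  have h5 : finrank ℂ (LinearMap.range ψ) = hilb Z (t + e) := by
    rw [LinearMap.range_eq_top.2 hψ, finrank_top]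
    rfl
  have h6 : finrank ℂ (LinearMap.range φ) ≤ finrank ℂ (LinearMap.ker ψ) :=
    Submodule.finrank_mono hr
  have h7 : finrank ℂ (S ⧸ vanSub Z' (t + e)) = hilb Z' (t + e) := rfl
  omega

lemma hilb_le_add {Z : Set (Gr m n)} (hZ : IsIrreducible Z) {e : ℕ}
    {Q : MvPolynomial (Fin m ↪o Fin n) ℂ} (hQ : Q.IsHomogeneous e)
    (h2 : ¬ Z ⊆ zeros Q) (t : ℕ) : hilb Z t ≤ hilb Z (t + e) := by
  let S := homogeneousSubmodule (Fin m ↪o Fin n) ℂ (t + e)
  let φ : homogeneousSubmodule (Fin m ↪o Fin n) ℂ t →ₗ[ℂ] S ⧸ vanSub Z (t + e) :=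
    (vanSub Z (t + e)).mkQ ∘ₗ mulForm hQ t
  have hker : LinearMap.ker φ = vanSub Z t := by
    ext P
    rw [LinearMap.mem_ker, mem_vanSub]
    show (vanSub Z (t + e)).mkQ (mulForm hQ t P) = 0 ↔ _
    rw [Submodule.mkQ_apply, Submodule.Quotient.mk_eq_zero, mem_vanSub, mulForm_coe]
    constructor
    · intro h
      rcases subset_or_of_irreducible hZ ((mem_homogeneousSubmodule _ _).1 P.2) hQ h with h | h
      · exact h
      · exact absurd h h2
    · intro h
      rw [zeros_mul ((mem_homogeneousSubmodule _ _).1 P.2) hQ]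
      exact h.trans Set.subset_union_left
  have h3 : finrank ℂ (LinearMap.range φ) = hilb Z t := by
    unfold hilb
    rw [← hker]
    exact (LinearEquiv.finrank_eq φ.quotKerEquivRange).symm
  rw [← h3]
  exact Submodule.finrank_le _

lemma exists_X_not_subset {Z : Set (Gr m n)} (hZ : Z.Nonempty) :
    ∃ K : Fin m ↪o Fin n, ¬ Z ⊆ zeros (X K) := by
  obtain ⟨V, hV⟩ := hZ
  obtain ⟨A, hA, hAV⟩ := exists_basis V
  obtain ⟨K, hK⟩ := exists_plu_ne_zero hA
  refine ⟨K, fun h => hK ?_⟩
  have h1 := (mem_zeros_iff (isHomogeneous_X ℂ K) hAV).1 (h hV)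
  rwa [eval_X] at h1

lemma hilb_mono {Z : Set (Gr m n)} (hZ : IsIrreducible Z) : Monotone (hilb Z) := by
  obtain ⟨K, hK⟩ := exists_X_not_subset hZ.nonempty
  exact monotone_nat_of_le_succ fun t => hilb_le_add hZ (isHomogeneous_X ℂ K) hK t

lemma hilb_pos {Z : Set (Gr m n)} (hZ : IsIrreducible Z) (t : ℕ) : 0 < hilb Z t := by
  refine lt_of_lt_of_le ?_ (hilb_mono hZ (Nat.zero_le t))
  let P : homogeneousSubmodule (Fin m ↪o Fin n) ℂ 0 := ⟨1, (mem_homogeneousSubmodule _ _).2
    (isHomogeneous_one _ _)⟩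
  have hP : P ∉ vanSub Z 0 := by
    intro h
    obtain ⟨V, hV⟩ := hZ.nonempty
    have h1 : V ∈ zeros (1 : MvPolynomial (Fin m ↪o Fin n) ℂ) := h hV
    rw [zeros_one] at h1
    exact h1
  have : Nontrivial (homogeneousSubmodule (Fin m ↪o Fin n) ℂ 0 ⧸ vanSub Z 0) :=
    Submodule.Quotient.nontrivial_iff.2 (fun h => hP (h ▸ Submodule.mem_top))
  exact finrank_pos

theorem growth_of_lt {Z Z' : Set (Gr m n)} (hZ : IsClosed Z) (hZi : IsIrreducible Z)
    (hZ' : IsIrreducible Z') (hlt : Z ⊂ Z') {k : ℕ} (hg : Growth Z' k) :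
    ∃ k', k = k' + 1 ∧ Growth Z k' := by
  obtain ⟨V, hV', hV⟩ := Set.exists_of_ssubset hlt
  obtain ⟨e, Q, hQ, hQZ, hQV⟩ := isClosed_iff.1 hZ V hV
  have hQ' : ¬ Z' ⊆ zeros Q := fun h => hQV (h hV')
  -- the degree of `Q` is positive
  have he : 1 ≤ e := by
    by_contra he
    have he0 : e = 0 := by omega
    subst he0
    obtain ⟨V₀, hV₀⟩ := hZi.nonempty
    obtain ⟨A₀, -, hA₀⟩ := exists_basis V₀
    obtain ⟨A, -, hA⟩ := exists_basis V
    have h1 := (mem_zeros_iff hQ hA₀).1 (hQZ hV₀)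
    apply hQV
    rw [mem_zeros_iff hQ hA]
    have h2 : Q = C (coeff 0 Q) := totalDegree_eq_zero_iff_eq_C.1
      (Nat.le_zero.1 hQ.totalDegree_le)
    rw [h2, eval_C] at h1 ⊢
    exact h1
  obtain ⟨C, hC⟩ := hg
  -- telescoping
  have hstep : ∀ i, hilb Z ((i + 1) * e) + hilb Z' (i * e) ≤ hilb Z' ((i + 1) * e) := by
    intro i
    have := hilb_add_le hZ' hlt.subset hQ hQZ hQ' (i * e)
    rwa [show i * e + e = (i + 1) * e by ring] at this
  have htel : ∀ t s, s * hilb Z (t * e) + hilb Z' (t * e) ≤ hilb Z' ((t + s) * e) := by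
    intro t s
    induction s with
    | zero => simp
    | succ s ih =>
      have h1 := hstep (t + s)
      have h2 : hilb Z (t * e) ≤ hilb Z ((t + s + 1) * e) :=
        hilb_mono hZi (Nat.mul_le_mul_right e (by omega))
      have h3 : (s + 1) * hilb Z (t * e) = s * hilb Z (t * e) + hilb Z (t * e) := by ring
      rw [h3, show t + (s + 1) = t + s + 1 by ring]
      omega
  have key : ∀ t, (t + 1) * hilb Z t ≤ C * (2 * e) ^ k * (t + 1) ^ k := by
    intro t
    have h1 := htel t (t + 1)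
    have h2 : hilb Z t ≤ hilb Z (t * e) := hilb_mono hZi (Nat.le_mul_of_pos_right t he)
    have h3 := hC ((t + (t + 1)) * e)
    have h4 : (t + (t + 1)) * e + 1 ≤ 2 * e * (t + 1) := by nlinarith
    calc (t + 1) * hilb Z t ≤ (t + 1) * hilb Z (t * e) := Nat.mul_le_mul_left _ h2
      _ ≤ hilb Z' ((t + (t + 1)) * e) := by omega
      _ ≤ C * ((t + (t + 1)) * e + 1) ^ k := h3
      _ ≤ C * (2 * e * (t + 1)) ^ k := Nat.mul_le_mul_left _ (Nat.pow_le_pow_left h4 k)
      _ = C * (2 * e) ^ k * (t + 1) ^ k := by rw [mul_pow]; ring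
  cases k with
  | zero =>
    exfalso
    have h1 := key C
    have h2 := hilb_pos hZi C
    simp only [pow_zero, mul_one] at h1
    nlinarith
  | succ k =>
    refine ⟨k, rfl, C * (2 * e) ^ (k + 1), fun t => ?_⟩
    have h1 := key t
    have h2 : (t + 1) * hilb Z t ≤ (t + 1) * (C * (2 * e) ^ (k + 1) * (t + 1) ^ k) := by
      refine h1.trans (le_of_eq ?_)
      ring
    exact Nat.le_of_mul_le_mul_left h2 (Nat.succ_pos t)

open TopologicalSpace in
theorem krullDim_eq_height (Z : TopologicalSpace.IrreducibleCloseds (Gr m n)) :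
    topologicalKrullDim ↥(Z : Set (Gr m n)) = (Order.height Z : WithBot ℕ∞) := by
  rw [Order.height_eq_krullDim_Iic]
  apply le_antisymm
  · let f : IrreducibleCloseds ↥(Z : Set (Gr m n)) → Set.Iic Z := fun s =>
      ⟨IrreducibleCloseds.map Subtype.val continuous_subtype_val s, by
        show closure (Subtype.val '' (s : Set ↥(Z : Set (Gr m n)))) ⊆ (Z : Set (Gr m n))
        refine closure_minimal ?_ Z.isClosed
        rintro _ ⟨x, _, rfl⟩
        exact x.2⟩
    refine Order.krullDim_le_of_strictMono f ?_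
    intro s t hst
    exact IrreducibleCloseds.map_strictMono_of_isInducing Topology.IsInducing.subtypeVal hst
  · let g : Set.Iic Z → IrreducibleCloseds ↥(Z : Set (Gr m n)) := fun W =>
      { carrier := Subtype.val ⁻¹' (W.1 : Set (Gr m n))
        isIrreducible' := by
          have hW : (W.1 : Set (Gr m n)) ⊆ (Z : Set (Gr m n)) := W.2
          have h1 : Subtype.val ⁻¹' (W.1 : Set (Gr m n)) =
              Set.inclusion hW '' (Set.univ : Set ↥(W.1 : Set (Gr m n))) := by
            ext x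
            constructor
            · intro hx
              exact ⟨⟨x.1, hx⟩, Set.mem_univ _, rfl⟩
            · rintro ⟨y, _, rfl⟩
              exact y.2
          have h2 : IrreducibleSpace ↥(W.1 : Set (Gr m n)) :=
            Subtype.irreducibleSpace W.1.isIrreducible
          have h3 : IsIrreducible (Set.univ : Set ↥(W.1 : Set (Gr m n))) :=
            IrreducibleSpace.isIrreducible_univ _
          rw [h1]
          exact h3.image _ (continuous_inclusion hW).continuousOn
        isClosed' := W.1.isClosed.preimage continuous_subtype_val }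
    refine Order.krullDim_le_of_strictMono g ?_
    intro s t hst
    have hst' : (s.1 : Set (Gr m n)) ⊂ (t.1 : Set (Gr m n)) := hst
    obtain ⟨x, hxt, hxs⟩ := Set.exists_of_ssubset hst'
    refine lt_of_le_of_ne ?_ ?_
    · intro y hy
      exact hst'.subset hy
    · intro h
      have hx : (⟨x, (t.2 : (t.1 : Set (Gr m n)) ⊆ (Z : Set (Gr m n))) hxt⟩ :
          ↥(Z : Set (Gr m n))) ∈ g t := hxt
      rw [← h] at hx
      exact hxs hx

theorem krullDim_le_of_growth {Z : Set (Gr m n)} (hc : IsClosed Z) (hi : IsIrreducible Z) {k : ℕ}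
    (hg : Growth Z k) : topologicalKrullDim ↥Z ≤ k := by
  have key : ∀ (k : ℕ) (Z : TopologicalSpace.IrreducibleCloseds (Gr m n)),
      Growth (Z : Set (Gr m n)) k → Order.height Z ≤ k := by
    intro k
    induction k with
    | zero =>
      intro Z hg
      rw [Order.height_le_coe_iff]
      intro W hW
      obtain ⟨k', hk', -⟩ := growth_of_lt W.isClosed W.isIrreducible Z.isIrreducible
        (show (W : Set (Gr m n)) ⊂ Z from hW) hg
      omega
    | succ k ih =>
      intro Z hg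
      rw [Order.height_le_coe_iff]
      intro W hW
      obtain ⟨k', hk', hg'⟩ := growth_of_lt W.isClosed W.isIrreducible Z.isIrreducible
        (show (W : Set (Gr m n)) ⊂ Z from hW) hg
      have hk : k' = k := by omega
      subst hk
      refine lt_of_le_of_lt (ih W hg') ?_
      exact_mod_cast Nat.lt_succ_self k'
  have h := krullDim_eq_height (⟨Z, hi, hc⟩ : TopologicalSpace.IrreducibleCloseds (Gr m n))
  have h2 := key k (⟨Z, hi, hc⟩ : TopologicalSpace.IrreducibleCloseds (Gr m n)) hg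
  refine (le_of_eq h).trans ?_
  exact_mod_cast h2

theorem krullDim_add_one_le {Z Z' : Set (Gr m n)} (hc : IsClosed Z) (hi : IsIrreducible Z)
    (hc' : IsClosed Z') (hi' : IsIrreducible Z') (hlt : Z ⊂ Z') :
    topologicalKrullDim ↥Z + 1 ≤ topologicalKrullDim ↥Z' := by
  have h := krullDim_eq_height (⟨Z, hi, hc⟩ : TopologicalSpace.IrreducibleCloseds (Gr m n))
  have h' := krullDim_eq_height (⟨Z', hi', hc'⟩ : TopologicalSpace.IrreducibleCloseds (Gr m n))
  have h2 := Order.height_add_one_le (show (⟨Z, hi, hc⟩ :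
    TopologicalSpace.IrreducibleCloseds (Gr m n)) < ⟨Z', hi', hc'⟩ from hlt)
  calc topologicalKrullDim ↥Z + 1 = (Order.height (⟨Z, hi, hc⟩ :
        TopologicalSpace.IrreducibleCloseds (Gr m n)) : WithBot ℕ∞) + 1 := by rw [← h]; rfl
    _ ≤ (Order.height (⟨Z', hi', hc'⟩ :
        TopologicalSpace.IrreducibleCloseds (Gr m n)) : WithBot ℕ∞) := by exact_mod_cast h2
    _ = topologicalKrullDim ↥Z' := h'.symm

/-- a strictly increasing chain of irreducible closed sets below `Z` -/
theorem le_krullDim_of_chain {k : ℕ} (W : Fin (k + 1) → Set (Gr m n)) (hc : ∀ i, IsClosed (W i))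
    (hi : ∀ i, IsIrreducible (W i)) (hlt : ∀ i j, i < j → W i ⊂ W j) :
    (k : WithBot ℕ∞) ≤ topologicalKrullDim ↥(W (Fin.last k)) := by
  let p : LTSeries (TopologicalSpace.IrreducibleCloseds (Gr m n)) :=
    LTSeries.mk k (fun i => ⟨W i, hi i, hc i⟩) (fun i j hij => hlt i j hij)
  have h1 : (p.length : ℕ∞) ≤ Order.height p.last := Order.length_le_height_last
  have h := krullDim_eq_height p.last
  refine le_trans ?_ (le_of_eq h.symm)
  exact_mod_cast h1

end Pool.Agent.GrCyc
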