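import Pool.Agent.GrCyc.Param
import Pool.Agent.GrCyc.Krull
import Pool.Agent.Work.MP_b62148_ag.HS

/-! Components of hypersurface sections of an interval `{A ≤ V ≤ B}` have codimension one (Krull's
principal ideal theorem in an affine chart). -/

namespace Pool.Agent.GrCyc

open MvPolynomial Module

/-- a chain of primes below a maximal ideal, all containing `f` -/
theorem exists_prime_chain {σ : Type*} [Fintype σ] (f : MvPolynomial σ ℂ) (c : σ → ℂ)
    (hf : eval c f = 0) (k : ℕ) (hk : k + 1 = Fintype.card σ) :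
    ∃ p : Fin (k + 1) → Ideal (MvPolynomial σ ℂ), (∀ i, (p i).IsPrime) ∧ (∀ i, f ∈ p i) ∧
      (∀ i, p i ≤ vanishingIdeal ℂ {c}) ∧ ∀ i j, i < j → p i < p j := by
  classical
  set 𝔪 : Ideal (MvPolynomial σ ℂ) := vanishingIdeal ℂ {c} with h𝔪
  have hmax : 𝔪.IsMaximal := isMaximal_iff_eq_vanishingIdeal_singleton.mpr ⟨c, rfl⟩
  have hprime : 𝔪.IsPrime := hmax.isPrime
  have hfm : f ∈ 𝔪 := by
    rw [h𝔪, mem_vanishingIdeal_singleton_iff]
    exact hf
  -- the height of `𝔪`
  have hht : ((k + 1 : ℕ) : ℕ∞) ≤ 𝔪.height := by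
    by_contra hcon
    have hle : 𝔪.height ≤ (k : ℕ) := by
      have := not_le.mp hcon
      rw [Nat.cast_add, Nat.cast_one] at this
      exact Order.lt_add_one_iff_of_not_isMax (by simp) |>.mp this
    have hdim : ringKrullDim (MvPolynomial σ ℂ) ≤ (k : WithBot ℕ∞) := by
      rw [ringKrullDim_le_iff_isMaximal_height_le]
      intro Q hQ
      obtain ⟨y, hy⟩ := isMaximal_iff_eq_vanishingIdeal_singleton.mp hQ
      rw [hy, Pool.Agent.Work.PD.height_vanishing_eq y c]
      exact_mod_cast hle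
    rw [MvPolynomial.ringKrullDim_of_isNoetherianRing, ringKrullDim_eq_zero_of_field, zero_add,
      Nat.card_eq_fintype_card] at hdim
    have : Fintype.card σ ≤ k := by exact_mod_cast hdim
    omega
  let I : Ideal (MvPolynomial σ ℂ) := Ideal.span {f}
  let π := Ideal.Quotient.mk I
  have hIm : I ≤ 𝔪 := by
    rw [Ideal.span_le]
    simpa using hfm
  have hker : RingHom.ker π ≤ 𝔪 := by
    rw [Ideal.mk_ker]
    exact hIm
  have hsurj : Function.Surjective π := Ideal.Quotient.mk_surjective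
  have hmp : (𝔪.map π).IsPrime := Ideal.map_isPrime_of_surjective hsurj hker
  have hle := Ideal.height_le_height_add_one_of_mem (r := f) (p := 𝔪) hfm
  have hk2 : ((k : ℕ) : ℕ∞) ≤ (𝔪.map π).height := by
    have h1 := hht.trans hle
    rw [Nat.cast_add, Nat.cast_one] at h1
    exact (ENat.add_le_add_iff_right (by simp)).mp h1
  have hk3 : ((k : ℕ) : ℕ∞) ≤ Order.height (⟨𝔪.map π, hmp⟩ : PrimeSpectrum _) := by
    rw [← PrimeSpectrum.height_eq_orderHeight]
    exact hk2
  obtain ⟨l, hl, hlen⟩ := Order.exists_series_of_le_height _ hk3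
  subst hlen
  refine ⟨fun i => (l i).asIdeal.comap π, fun i => ?_, fun i => ?_, fun i => ?_, fun i j hij => ?_⟩
  · have := (l i).isPrime
    exact Ideal.comap_isPrime π _
  · rw [Ideal.mem_comap]
    have : π f = 0 := Ideal.Quotient.eq_zero_iff_mem.mpr (Ideal.mem_span_singleton_self f)
    rw [this]
    exact zero_mem _
  · have h1 : l i ≤ l.last := LTSeries.monotone l (Fin.le_last i)
    rw [hl] at h1
    have h2 : (l i).asIdeal ≤ 𝔪.map π := h1
    calc (l i).asIdeal.comap π ≤ (𝔪.map π).comap π := Ideal.comap_mono h2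
      _ = 𝔪 := by
        rw [Ideal.comap_map_of_surjective π hsurj]
        have : Ideal.comap π ⊥ = RingHom.ker π := rfl
        rw [this]
        exact sup_eq_left.mpr hker
  · have h1 : l i < l j := l.strictMono hij
    have h2 : (l i).asIdeal < (l j).asIdeal := h1
    refine lt_of_le_of_ne (Ideal.comap_mono h2.le) ?_
    intro h3
    apply h2.ne
    exact Ideal.comap_injective_of_surjective π hsurj h3

variable {m n : ℕ}

lemma chart_imgSet_zeros {σ : Type*} (A : Fin m → Fin n → MvPolynomial σ ℂ) {D : ℕ}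
    {H : MvPolynomial (Fin m ↪o Fin n) ℂ} (hH : H.IsHomogeneous D) {S : Set (σ → ℂ)}
    (h : ∀ c ∈ S, eval c (pull A H) = 0) : imgSet A S ⊆ zeros H := by
  rintro V ⟨c, hc, hV⟩
  rw [mem_zeros_iff hH hV, ← eval_pull]
  exact h c hc

/-- components through a point of the chart given by the matrix `A` -/
theorem exists_subset_of_chart {σ : Type*} [Fintype σ] (A : Fin m → Fin n → MvPolynomial σ ℂ)
    (hA : ∀ h : MvPolynomial σ ℂ, ∃ (D : ℕ) (H : MvPolynomial (Fin m ↪o Fin n) ℂ),
      H.IsHomogeneous D ∧ pull A H = h) {Y : Set (Gr m n)} (hY : IsClosed Y)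
    (hAY : imgSet A Set.univ ⊆ Y) {d : ℕ} {P : MvPolynomial (Fin m ↪o Fin n) ℂ}
    (hP : P.IsHomogeneous d) {V₀ : Gr m n} (c₀ : σ → ℂ)
    (hc₀ : Submodule.span ℂ (Set.range (evalM A c₀)) = V₀.1) (hV₀ : V₀ ∈ zeros P) (k : ℕ)
    (hk : k + 1 = Fintype.card σ) :
    ∃ Z : Set (Gr m n), IsClosed Z ∧ IsIrreducible Z ∧ V₀ ∈ Z ∧ Z ⊆ Y ∩ zeros P ∧
      (k : WithBot ℕ∞) ≤ topologicalKrullDim ↥Z := by
  classical
  have hf : eval c₀ (pull A P) = 0 := by
    rw [eval_pull, ← mem_zeros_iff hP hc₀]
    exact hV₀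
  obtain ⟨p, hp, hfp, hpm, hlt⟩ := exists_prime_chain (pull A P) c₀ hf k hk
  have hc : ∀ i, c₀ ∈ zeroLocus ℂ (p i) := by
    intro i
    rw [mem_zeroLocus_iff]
    intro q hq
    have := hpm i hq
    rwa [mem_vanishingIdeal_singleton_iff] at this
  have hmem : ∀ i, V₀ ∈ imgSet A (zeroLocus ℂ (p i)) := fun i => ⟨c₀, hc i, hc₀⟩
  have hirr : ∀ i, IsIrreducible (imgSet A (zeroLocus ℂ (p i))) := fun i =>
    isIrreducible_imgSet A (p i) (hp i) ⟨V₀, hmem i⟩
  let Z : Fin (k + 1) → Set (Gr m n) := fun i => closure (imgSet A (zeroLocus ℂ (p i)))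
  have hmono : ∀ {S T : Set (σ → ℂ)}, S ⊆ T → imgSet A S ⊆ imgSet A T := by
    rintro S T h V ⟨c, hc, hV⟩
    exact ⟨c, h hc, hV⟩
  have hstrict : ∀ i j, i < j → Z j ⊂ Z i := by
    intro i j hij
    have hpij := hlt i j hij
    have hsub : Z j ⊆ Z i := closure_mono (hmono (zeroLocus_anti_mono hpij.le))
    refine ⟨hsub, fun hsub' => ?_⟩
    obtain ⟨h, hj, hi⟩ := SetLike.exists_of_lt hpij
    obtain ⟨D, H, hH, hHh⟩ := hA h
    have e1 : Z j ⊆ zeros H := by
      refine closure_minimal (chart_imgSet_zeros A hH ?_) (isClosed_zeros hH)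
      intro c hc
      rw [hHh]
      rw [mem_zeroLocus_iff] at hc
      exact hc h hj
    have e2 : imgSet A (zeroLocus ℂ (p i)) ⊆ zeros H :=
      (subset_closure.trans hsub').trans e1
    rcases Nat.eq_zero_or_pos D with rfl | hD
    · have h0 : H = C (H.coeff 0) := (totalDegree_eq_zero_iff_eq_C).mp
        (Nat.le_zero.mp hH.totalDegree_le)
      have h1 : h = C (H.coeff 0) := by
        rw [← hHh]
        conv_lhs => rw [h0]
        simp [pull]
      by_cases h2 : H.coeff 0 = 0
      · rw [h2, map_zero] at h1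
        rw [h1] at hi
        exact hi (zero_mem _)
      · refine (hp j).ne_top ((Ideal.eq_top_iff_one _).mpr ?_)
        have h3 : (1 : MvPolynomial σ ℂ) = C (H.coeff 0)⁻¹ * h := by
          rw [h1, ← C_mul, inv_mul_cancel₀ h2, C_1]
        rw [h3]
        exact Ideal.mul_mem_left _ _ hj
    · rw [imgSet_subset_zeros_iff A _ hH hD, hHh] at e2
      apply hi
      have := hp i
      have hv := IsPrime.vanishingIdeal_zeroLocus (K := ℂ) (p i)
      show h ∈ p i
      rw [← hv, mem_vanishingIdeal_iff]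
      intro c hc
      exact e2 c hc
  refine ⟨Z 0, isClosed_closure, (hirr 0).closure, subset_closure (hmem 0), ?_, ?_⟩
  · refine closure_minimal (Set.subset_inter ((hmono (Set.subset_univ _)).trans hAY) ?_)
      (hY.inter (isClosed_zeros hP))
    refine chart_imgSet_zeros A hP ?_
    intro c hc
    rw [mem_zeroLocus_iff] at hc
    exact hc _ (hfp 0)
  · have := le_krullDim_of_chain (fun i : Fin (k + 1) => Z (Fin.rev i)) (fun i => isClosed_closure)
      (fun i => (hirr _).closure) (fun i j hij => hstrict _ _ (Fin.rev_lt_rev.mpr hij))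
    rw [show (0 : Fin (k + 1)) = (Fin.last k).rev by simp]
    exact this

/-! ### charts -/

section chart

variable {σ : Type*}

lemma chart_pull_mul (A : Fin m → Fin n → MvPolynomial σ ℂ) (P Q : MvPolynomial (Fin m ↪o Fin n) ℂ) :
    pull A (P * Q) = pull A P * pull A Q := by simp [pull]

lemma chart_pull_add (A : Fin m → Fin n → MvPolynomial σ ℂ) (P Q : MvPolynomial (Fin m ↪o Fin n) ℂ) :
    pull A (P + Q) = pull A P + pull A Q := by simp [pull]

lemma chart_pull_pow (A : Fin m → Fin n → MvPolynomial σ ℂ) (P : MvPolynomial (Fin m ↪o Fin n) ℂ)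
    (k : ℕ) : pull A (P ^ k) = pull A P ^ k := by simp [pull]

lemma chart_pull_C (A : Fin m → Fin n → MvPolynomial σ ℂ) (x : ℂ) :
    pull A (C x) = C x := by simp [pull]

/-- homogenisation -/
lemma chart_exists_hom (A : Fin m → Fin n → MvPolynomial σ ℂ) (L₀ : MvPolynomial (Fin m ↪o Fin n) ℂ)
    (hL₀ : L₀.IsHomogeneous 1) (h1 : pull A L₀ = 1) (L : σ → MvPolynomial (Fin m ↪o Fin n) ℂ)
    (hL : ∀ i, (L i).IsHomogeneous 1) (hX : ∀ i, pull A (L i) = X i) (h : MvPolynomial σ ℂ) :
    ∃ (D : ℕ) (H : MvPolynomial (Fin m ↪o Fin n) ℂ), H.IsHomogeneous D ∧ pull A H = h := by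
  induction h using MvPolynomial.induction_on with
  | C x => exact ⟨0, C x, isHomogeneous_C _ _, chart_pull_C A x⟩
  | add p q hp hq =>
    obtain ⟨D, H, hH, e⟩ := hp
    obtain ⟨D', H', hH', e'⟩ := hq
    refine ⟨D + D', H * L₀ ^ D' + H' * L₀ ^ D, ?_, ?_⟩
    · refine IsHomogeneous.add ?_ ?_
      · have := hH.mul (hL₀.pow D')
        rwa [one_mul] at this
      · have := hH'.mul (hL₀.pow D)
        rw [one_mul] at this
        rwa [add_comm D D']
    · rw [chart_pull_add, chart_pull_mul, chart_pull_mul, chart_pull_pow, chart_pull_pow, h1, one_pow, one_pow, mul_one, mul_one,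
        e, e']
  | mul_X p i hp =>
    obtain ⟨D, H, hH, e⟩ := hp
    exact ⟨D + 1, H * L i, hH.mul (hL i), by rw [chart_pull_mul, e, hX]⟩

/-- minors with repeated or unordered columns are linear forms -/
lemma chart_exists_col (κ : Fin m → Fin n) : ∃ L : MvPolynomial (Fin m ↪o Fin n) ℂ, L.IsHomogeneous 1 ∧
    ∀ A : Fin m → Fin n → ℂ, eval (plu A) L = Matrix.det (Matrix.of fun i j => A i (κ j)) := by
  obtain ⟨c, hc⟩ := alternating_expand
    ((Matrix.detRowAlternating (n := Fin m) (R := ℂ)).compLinearMap (LinearMap.funLeft ℂ ℂ κ))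
  refine ⟨∑ K, C (c K) * X K, ?_, ?_⟩
  · refine IsHomogeneous.sum _ _ _ (fun K _ => ?_)
    have := (isHomogeneous_C (Fin m ↪o Fin n) (c K)).mul (isHomogeneous_X ℂ K)
    rwa [zero_add] at this
  · intro A
    rw [map_sum]
    simp only [map_mul, eval_C, eval_X]
    rw [← hc A]
    rfl

variable (κ : Fin m → Fin n) (T : Finset (Fin m × Fin n))

/-- the matrix of a chart: the columns `κ` form the identity matrix, the entries in `T` are free -/
noncomputable def chartMat : Fin m → Fin n → MvPolynomial {p // p ∈ T} ℂ := fun t r =>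
  (if r = κ t then 1 else 0) + if h : (t, r) ∈ T then X ⟨(t, r), h⟩ else 0

variable {κ T} (hκ : Function.Injective κ) (hT : ∀ p ∈ T, ∀ s, κ s ≠ p.2)

include hκ hT

lemma chart_κ (c : {p // p ∈ T} → ℂ) (t s : Fin m) :
    evalM (chartMat κ T) c t (κ s) = if t = s then 1 else 0 := by
  have h : (t, κ s) ∉ T := fun h => hT _ h s rfl
  simp only [evalM, chartMat, h, dite_false, add_zero]
  by_cases hts : t = s
  · subst hts
    simp
  · have : κ s ≠ κ t := fun h => hts (hκ h).symm
    simp [this, hts]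

omit hκ in
lemma chart_T (c : {p // p ∈ T} → ℂ) (p : {p // p ∈ T}) :
    evalM (chartMat κ T) c p.1.1 p.1.2 = c p := by
  have h : p.1.2 ≠ κ p.1.1 := fun h => hT p.1 p.2 _ h.symm
  have h' : (p.1.1, p.1.2) ∈ T := p.2
  simp [evalM, chartMat, h]

lemma chart_hom (h : MvPolynomial {p // p ∈ T} ℂ) :
    ∃ (D : ℕ) (H : MvPolynomial (Fin m ↪o Fin n) ℂ), H.IsHomogeneous D ∧
      pull (chartMat κ T) H = h := by
  classical
  obtain ⟨L₀, h0, h0'⟩ := chart_exists_col κ
  choose L hL hL' using fun p : {p // p ∈ T} => chart_exists_col (Function.update κ p.1.1 p.1.2)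
  refine chart_exists_hom _ L₀ h0 ?_ L hL ?_ h
  · apply MvPolynomial.funext
    intro c
    rw [eval_pull, h0', map_one]
    have : (Matrix.of fun i j => evalM (chartMat κ T) c i (κ j)) = (1 : Matrix (Fin m) (Fin m) ℂ) := by
      ext i j
      rw [Matrix.of_apply, chart_κ hκ hT, Matrix.one_apply]
    rw [this, Matrix.det_one]
  · intro p
    apply MvPolynomial.funext
    intro c
    rw [eval_pull, hL', eval_X]
    have : (Matrix.of fun i j => evalM (chartMat κ T) c i (Function.update κ p.1.1 p.1.2 j)) =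
        (1 : Matrix (Fin m) (Fin m) ℂ).updateCol p.1.1
          (fun i => evalM (chartMat κ T) c i p.1.2) := by
      ext i j
      rw [Matrix.of_apply, Matrix.updateCol_apply]
      by_cases hj : j = p.1.1
      · subst hj
        simp
      · rw [Function.update_of_ne hj, if_neg hj, chart_κ hκ hT, Matrix.one_apply]
    rw [this, ← Matrix.cramer_apply, Matrix.cramer_one]
    exact chart_T hT c p

lemma chart_li (c : {p // p ∈ T} → ℂ) : LinearIndependent ℂ (evalM (chartMat κ T) c) := by
  rw [Fintype.linearIndependent_iff]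
  intro g hg s
  have := congrFun hg (κ s)
  rw [Finset.sum_apply] at this
  simp only [Pi.smul_apply, chart_κ hκ hT, smul_eq_mul, mul_ite, mul_one, mul_zero,
    Finset.sum_ite_eq', Finset.mem_univ, if_true, Pi.zero_apply] at this
  exact this

end chart

/-! ### the interval -/

lemma chart_low_eq_span (j : ℕ) (hj : j ≤ n) :
    low n j = Submodule.span ℂ (Set.range fun i : Fin j => (Pi.single (Fin.castLE hj i) 1 :
      Fin n → ℂ)) := by
  classical
  apply le_antisymm
  · intro v hv
    rw [pi_eq_sum_univ v]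
    refine Submodule.sum_mem _ fun i _ => ?_
    by_cases hi : (i : ℕ) < j
    · refine Submodule.smul_mem _ _ (Submodule.subset_span ⟨⟨i, hi⟩, ?_⟩)
      ext r
      simp [Pi.single_apply, eq_comm]
    · have : v i = 0 := hv i (not_lt.mp hi)
      rw [this, zero_smul]
      exact zero_mem _
  · rw [Submodule.span_le]
    rintro _ ⟨i, rfl⟩ r hr
    have : r ≠ Fin.castLE hj i := by
      rintro rfl
      have := i.2
      simp at hr
      omega
    simp [this]

lemma chart_finrank_low {j : ℕ} (hj : j ≤ n) : finrank ℂ (low n j) = j := by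
  classical
  have h : LinearIndependent ℂ (fun i : Fin j => (Pi.single (Fin.castLE hj i) 1 : Fin n → ℂ)) := by
    have h1 := (Pi.basisFun ℂ (Fin n)).linearIndependent.comp (Fin.castLE hj)
      (Fin.castLE_injective hj)
    convert h1 using 1
    funext i
    simp
  rw [chart_low_eq_span j hj, finrank_span_eq_card h, Fintype.card_fin]

lemma chart_low_sup_high (j : ℕ) : low n j ⊔ high n j = ⊤ := by
  rw [eq_top_iff]
  intro v _
  rw [Submodule.mem_sup]
  refine ⟨fun i => if (i : ℕ) < j then v i else 0, ?_, fun i => if (i : ℕ) < j then 0 else v i, ?_,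
    ?_⟩
  · intro i hi
    simp [not_lt.mpr hi]
  · intro i hi
    simp [hi]
  · ext i
    by_cases hi : (i : ℕ) < j <;> simp [hi]

lemma chart_low_inf_high (j : ℕ) : low n j ⊓ high n j = ⊥ := by
  rw [eq_bot_iff]
  rintro v ⟨h1, h2⟩
  show v = 0
  ext i
  by_cases hi : (i : ℕ) < j
  · exact h2 i hi
  · exact h1 i (not_lt.mp hi)

/-- the echelon basis of a subspace between two coordinate subspaces -/
lemma chart_exists_echelon (a b : ℕ) (ham : a ≤ m) (hbn : m + b ≤ n) {V₀ : Gr m n}
    (h1 : low n (m - a) ≤ V₀.1) (h2 : V₀.1 ≤ low n (m + b)) :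
    ∃ (κ : Fin m → Fin n) (B : Fin m → Fin n → ℂ), Function.Injective κ ∧
      (∀ t, (κ t : ℕ) < m + b) ∧ (∀ t : Fin m, (t : ℕ) < m - a → (κ t : ℕ) = t) ∧
      (∀ t s, B t (κ s) = if t = s then 1 else 0) ∧
      (∀ t : Fin m, (t : ℕ) < m - a → B t = Pi.single (κ t) 1) ∧
      (∀ t : Fin m, m - a ≤ (t : ℕ) → B t ∈ high n (m - a)) ∧
      (∀ t, B t ∈ V₀.1) := by
  classical
  have hj : m - a ≤ n := by omega
  -- the complement of `low` in `V₀`
  let U : Submodule ℂ (Fin n → ℂ) := V₀.1 ⊓ high n (m - a)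
  have hU : finrank ℂ U = a := by
    have e1 : low n (m - a) ⊔ U = V₀.1 := by
      have e := sup_inf_assoc_of_le (high n (m - a)) h1
      rw [chart_low_sup_high, top_inf_eq, inf_comm (high n (m - a))] at e
      exact e.symm
    have e2 : low n (m - a) ⊓ U = ⊥ := by
      rw [eq_bot_iff, ← chart_low_inf_high (n := n) (m - a)]
      exact fun v hv => ⟨hv.1, hv.2.2⟩
    have e3 := Submodule.finrank_sup_add_finrank_inf_eq (low n (m - a)) U
    rw [e1, e2, finrank_bot, V₀.2, chart_finrank_low hj] at e3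
    omega
  obtain ⟨y, hy, hyU⟩ := exists_basis (⟨U, hU⟩ : Gr a n)
  obtain ⟨K, hK⟩ := exists_plu_ne_zero hy
  have hyU' : ∀ i, y i ∈ U := by
    intro i
    have : y i ∈ Submodule.span ℂ (Set.range y) := Submodule.subset_span ⟨i, rfl⟩
    rw [hyU] at this
    exact this
  have hK1 : ∀ i, m - a ≤ (K i : ℕ) := by
    intro i
    by_contra hcon
    exact hK (Matrix.det_eq_zero_of_column_eq_zero i fun t => (hyU' t).2 _ (not_le.mp hcon))
  have hK2 : ∀ i, (K i : ℕ) < m + b := by
    intro i
    by_contra hcon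
    exact hK (Matrix.det_eq_zero_of_column_eq_zero i fun t => h2 (hyU' t).1 _ (not_lt.mp hcon))
  let M : Matrix (Fin a) (Fin a) ℂ := Matrix.of fun i j => y i (K j)
  have hM : IsUnit M.det := isUnit_iff_ne_zero.mpr hK
  let y' : Fin a → Fin n → ℂ := fun i => ∑ j, M⁻¹ i j • y j
  have hy' : ∀ i, y' i ∈ U := fun i => Submodule.sum_mem _ fun j _ =>
    Submodule.smul_mem _ _ (hyU' j)
  have hyK : ∀ i l, y' i (K l) = if i = l then 1 else 0 := by
    intro i l
    have : (M⁻¹ * M) i l = (1 : Matrix (Fin a) (Fin a) ℂ) i l := by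
      rw [Matrix.nonsing_inv_mul _ hM]
    rw [Matrix.mul_apply, Matrix.one_apply] at this
    rw [← this]
    simp [y', M, Finset.sum_apply]
  have hlt : ∀ t : Fin m, ¬ (t : ℕ) < m - a → (t : ℕ) - (m - a) < a := by
    intro t ht
    have := t.2
    omega
  let κ : Fin m → Fin n := fun t => if h : (t : ℕ) < m - a then ⟨t, by omega⟩ else
    K ⟨(t : ℕ) - (m - a), hlt t h⟩
  let B : Fin m → Fin n → ℂ := fun t => if h : (t : ℕ) < m - a then Pi.single (κ t) 1 else
    y' ⟨(t : ℕ) - (m - a), hlt t h⟩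
  have κ1 : ∀ t : Fin m, (t : ℕ) < m - a → (κ t : ℕ) = t := by
    intro t ht
    simp [κ, ht]
  have κ2 : ∀ (t : Fin m) (ht : ¬ (t : ℕ) < m - a), κ t = K ⟨(t : ℕ) - (m - a), hlt t ht⟩ := by
    intro t ht
    simp [κ, ht]
  have B1 : ∀ t : Fin m, (t : ℕ) < m - a → B t = Pi.single (κ t) 1 := by
    intro t ht
    simp [B, ht]
  have B2 : ∀ (t : Fin m) (ht : ¬ (t : ℕ) < m - a), B t = y' ⟨(t : ℕ) - (m - a), hlt t ht⟩ := by
    intro t ht
    simp [B, ht]
  have hκ : Function.Injective κ := by
    intro t s hts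
    by_cases ht : (t : ℕ) < m - a <;> by_cases hs : (s : ℕ) < m - a
    · apply Fin.ext
      rw [← κ1 t ht, ← κ1 s hs, hts]
    · exfalso
      have e1 := κ1 t ht
      have e2 := hK1 ⟨(s : ℕ) - (m - a), hlt s hs⟩
      rw [← κ2 s hs, ← hts] at e2
      omega
    · exfalso
      have e1 := κ1 s hs
      have e2 := hK1 ⟨(t : ℕ) - (m - a), hlt t ht⟩
      rw [← κ2 t ht, hts] at e2
      omega
    · rw [κ2 t ht, κ2 s hs] at hts
      have := congrArg Fin.val (K.injective hts)
      simp only at this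
      apply Fin.ext
      omega
  refine ⟨κ, B, hκ, ?_, κ1, ?_, B1, ?_, ?_⟩
  · intro t
    by_cases ht : (t : ℕ) < m - a
    · rw [κ1 t ht]
      have := t.2
      omega
    · rw [κ2 t ht]
      exact hK2 _
  · intro t s
    by_cases ht : (t : ℕ) < m - a
    · rw [B1 t ht, Pi.single_apply]
      simp only [hκ.eq_iff, eq_comm]
    · rw [B2 t ht]
      by_cases hs : (s : ℕ) < m - a
      · have : t ≠ s := by
          rintro rfl
          exact ht hs
        rw [if_neg this]
        refine (hy' _).2 _ ?_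
        rw [κ1 s hs]
        exact hs
      · rw [κ2 s hs, hyK]
        congr 1
        simp only [Fin.mk.injEq, eq_iff_iff]
        constructor
        · intro h
          apply Fin.ext
          omega
        · rintro rfl
          rfl
  · intro t ht
    rw [B2 t (not_lt.mpr ht)]
    exact (hy' _).2
  · intro t
    by_cases ht : (t : ℕ) < m - a
    · rw [B1 t ht]
      apply h1
      intro r hr
      rw [Pi.single_apply, if_neg]
      rintro rfl
      rw [κ1 t ht] at hr
      omega
    · rw [B2 t ht]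
      exact (hy' _).1

/-- hypersurface sections of the interval `{⟨e_0..e_(m-a-1)⟩ ≤ V ≤ ⟨e_0..e_(m+b-1)⟩}`: through every
point there is an irreducible closed subset of dimension `≥ ab - 1` -/
theorem exists_subset_interval (a b : ℕ) (ha : 1 ≤ a) (hb : 1 ≤ b) (ham : a ≤ m) (hbn : m + b ≤ n)
    {d : ℕ} {P : MvPolynomial (Fin m ↪o Fin n) ℂ} (hP : P.IsHomogeneous d) {V₀ : Gr m n}
    (h1 : low n (m - a) ≤ V₀.1) (h2 : V₀.1 ≤ low n (m + b)) (hV₀ : V₀ ∈ zeros P) :
    ∃ Z : Set (Gr m n), IsClosed Z ∧ IsIrreducible Z ∧ V₀ ∈ Z ∧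
      Z ⊆ {V | low n (m - a) ≤ V.1 ∧ V.1 ≤ low n (m + b)} ∩ zeros P ∧
      ((a * b - 1 : ℕ) : WithBot ℕ∞) ≤ topologicalKrullDim ↥Z := by
  classical
  obtain ⟨κ, B, hκ, κ2, κ1, hB, B1, B2, B3⟩ := chart_exists_echelon a b ham hbn h1 h2
  let T : Finset (Fin m × Fin n) := (Finset.univ.filter fun t : Fin m => m - a ≤ (t : ℕ)) ×ˢ
    (Finset.univ.filter fun r : Fin n => (r : ℕ) < m + b ∧ ∀ s, κ s ≠ r)
  have hT : ∀ p ∈ T, ∀ s, κ s ≠ p.2 := by
    intro p hp s
    have := (Finset.mem_product.mp hp).2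
    exact (Finset.mem_filter.mp this).2.2 s
  have hTm : ∀ t r, (t, r) ∈ T ↔ m - a ≤ (t : ℕ) ∧ (r : ℕ) < m + b ∧ ∀ s, κ s ≠ r := by
    intro t r
    simp [T]
  have hcard : Fintype.card {p // p ∈ T} = a * b := by
    rw [Fintype.card_coe, Finset.card_product]
    congr 1
    · let ι : Fin a ↪ Fin m := ⟨fun i => ⟨m - a + i.1, by have := i.2; omega⟩, fun i j h => by
        have h' : m - a + i.1 = m - a + j.1 := congrArg Fin.val h
        exact Fin.ext (by omega)⟩
      have e : (Finset.univ.filter fun t : Fin m => m - a ≤ (t : ℕ)) =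
          (Finset.univ : Finset (Fin a)).map ι := by
        ext t
        simp only [Finset.mem_filter, Finset.mem_univ, true_and, Finset.mem_map]
        constructor
        · intro h
          refine ⟨⟨(t : ℕ) - (m - a), by have := t.2; omega⟩, Fin.ext ?_⟩
          show m - a + ((t : ℕ) - (m - a)) = t
          omega
        · rintro ⟨i, rfl⟩
          exact Nat.le_add_right _ _
      rw [e, Finset.card_map, Finset.card_univ, Fintype.card_fin]
    · have e : (Finset.univ.filter fun r : Fin n => (r : ℕ) < m + b ∧ ∀ s, κ s ≠ r) =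
          (Finset.univ.map (Fin.castLEEmb hbn)) \ Finset.univ.image κ := by
        ext r
        simp only [Finset.mem_filter, Finset.mem_univ, true_and, Finset.mem_sdiff, Finset.mem_map,
          Finset.mem_image, not_exists, Fin.castLEEmb_apply]
        constructor
        · rintro ⟨h, h'⟩
          exact ⟨⟨⟨r, h⟩, rfl⟩, h'⟩
        · rintro ⟨⟨i, rfl⟩, h'⟩
          exact ⟨i.2, h'⟩
      rw [e, Finset.card_sdiff_of_subset, Finset.card_map, Finset.card_image_of_injective _ hκ,
        Finset.card_univ, Finset.card_univ, Fintype.card_fin, Fintype.card_fin]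
      · omega
      · intro r hr
        obtain ⟨s, -, rfl⟩ := Finset.mem_image.mp hr
        exact Finset.mem_map.mpr ⟨⟨κ s, κ2 s⟩, Finset.mem_univ _, rfl⟩
  -- the closed set
  have hY : IsClosed {V : Gr m n | low n (m - a) ≤ V.1 ∧ V.1 ≤ low n (m + b)} := by
    have e : {V : Gr m n | low n (m - a) ≤ V.1 ∧ V.1 ≤ low n (m + b)} =
        {V : Gr m n | m - a ≤ finrank ℂ ↥(V.1 ⊓ low n (m - a))} ∩
        {V : Gr m n | m ≤ finrank ℂ ↥(V.1 ⊓ low n (m + b))} := by
      ext V
      have f1 : low n (m - a) ≤ V.1 ↔ m - a ≤ finrank ℂ ↥(V.1 ⊓ low n (m - a)) := by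
        constructor
        · intro h
          rw [inf_eq_right.mpr h, chart_finrank_low (by omega)]
        · intro h
          have := Submodule.eq_of_le_of_finrank_le (inf_le_right : V.1 ⊓ low n (m - a) ≤ _)
            (by rw [chart_finrank_low (by omega)]; exact h)
          rw [← this]
          exact inf_le_left
      have f2 : V.1 ≤ low n (m + b) ↔ m ≤ finrank ℂ ↥(V.1 ⊓ low n (m + b)) := by
        constructor
        · intro h
          rw [inf_eq_left.mpr h, V.2]
        · intro h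
          have := Submodule.eq_of_le_of_finrank_le (inf_le_left : V.1 ⊓ low n (m + b) ≤ _)
            (by rw [V.2]; exact h)
          rw [← this]
          exact inf_le_right
      show _ ∧ _ ↔ _ ∧ _
      rw [f1, f2]
      rfl
    rw [e]
    exact (isClosed_rank _ _).inter (isClosed_rank _ _)
  have hrow1 : ∀ (c : {p // p ∈ T} → ℂ) (t : Fin m), (t : ℕ) < m - a →
      evalM (chartMat κ T) c t = Pi.single (κ t) 1 := by
    intro c t ht
    ext r
    have : (t, r) ∉ T := by
      rw [hTm]
      omega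
    simp [evalM, chartMat, this, Pi.single_apply]
  have hrow2 : ∀ (c : {p // p ∈ T} → ℂ) (t : Fin m),
      evalM (chartMat κ T) c t ∈ low n (m + b) := by
    intro c t r hr
    have h3 : (t, r) ∉ T := by
      rw [hTm]
      omega
    have h4 : r ≠ κ t := by
      rintro rfl
      have := κ2 t
      omega
    simp [evalM, chartMat, h3, h4]
  obtain ⟨Z, z1, z2, z3, z4, z5⟩ := exists_subset_of_chart (chartMat κ T) (chart_hom hκ hT) hY
    (by
      rintro V ⟨c, -, hV⟩
      refine ⟨?_, ?_⟩
      · rw [chart_low_eq_span (m - a) (by omega), Submodule.span_le, ← hV]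
        rintro _ ⟨i, rfl⟩
        refine Submodule.subset_span ⟨⟨i, by omega⟩, ?_⟩
        rw [hrow1 c _ i.2]
        congr 1
        apply Fin.ext
        rw [κ1 _ i.2]
        rfl
      · rw [← hV, Submodule.span_le]
        rintro _ ⟨t, rfl⟩
        exact hrow2 c t) hP (V₀ := V₀) (fun p => B p.1.1 p.1.2)
    (by
      apply Submodule.eq_of_le_of_finrank_le
      · rw [Submodule.span_le]
        rintro _ ⟨t, rfl⟩
        have : evalM (chartMat κ T) (fun p => B p.1.1 p.1.2) t = B t := by
          by_cases ht : (t : ℕ) < m - a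
          · rw [hrow1 _ t ht, B1 t ht]
          · ext r
            by_cases hr : (t, r) ∈ T
            · exact chart_T hT (fun p => B p.1.1 p.1.2) ⟨(t, r), hr⟩
            · by_cases hκr : ∃ s, κ s = r
              · obtain ⟨s, rfl⟩ := hκr
                rw [chart_κ hκ hT, hB]
              · push Not at hκr
                have h3 : r ≠ κ t := fun h => hκr t h.symm
                have h4 : m + b ≤ (r : ℕ) := by
                  by_contra hcon
                  exact hr ((hTm t r).mpr ⟨not_lt.mp ht, not_le.mp hcon, hκr⟩)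
                have h5 : B t r = 0 := h2 (B3 t) r h4
                rw [h5]
                simp [evalM, chartMat, hr, h3]
        rw [this]
        exact B3 t
      · rw [V₀.2, finrank_span_eq_card (chart_li hκ hT _), Fintype.card_fin]) hV₀ (a * b - 1)
    (by
      rw [hcard]
      have : 1 ≤ a * b := Nat.mul_pos ha hb
      omega)
  exact ⟨Z, z1, z2, z3, z4, z5⟩

end Pool.Agent.GrCyc
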