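import Pool.Agent.GrCyc.Defs

/-! The effective cone and the cone of Schubert classes. -/

namespace Pool.Agent.GrCyc

variable {m n k : ℕ}

theorem isClosed_schubertCone (m n k : ℕ) : IsClosed (schubertCone m n k) := by
  have : schubertCone m n k = ⋂ I : KIdx m n k, {v | 0 ≤ v I} := by
    ext v; simp [schubertCone]
  rw [this]
  exact isClosed_iInter fun I => isClosed_le continuous_const (continuous_apply I)

theorem effCone_subset (X : Set (Gr m n)) : effCone k X ⊆ schubertCone m n k := by
  refine closure_minimal ?_ (isClosed_schubertCone m n k)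
  intro v hv
  induction hv using Submodule.span_induction with
  | mem v hv =>
    obtain ⟨Z, _, hZ⟩ := hv
    intro I
    obtain ⟨N, hN, _⟩ := hZ I
    rw [hN]
    exact Nat.cast_nonneg N
  | zero => intro I; exact le_refl _
  | add v w _ _ hv hw => intro I; exact add_nonneg (hv I) (hw I)
  | smul c v _ hv => intro I; exact mul_nonneg c.2 (hv I)

theorem effCone_eq {X : Set (Gr m n)} (H : ∀ I : KIdx m n k, ∃ (Z : Set (Gr m n)) (N : ℕ), 0 < N ∧
    IsSubvariety k X Z ∧ IsClass Z (Pi.single I (N : ℝ) : KIdx m n k → ℝ)) :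
    effCone k X = schubertCone m n k := by
  refine Set.Subset.antisymm (effCone_subset X) ?_
  intro v hv
  choose Z N hN hZ hc using H
  apply subset_closure
  have h1 : v = ∑ I, (⟨v I / N I, div_nonneg (hv I) (Nat.cast_nonneg _)⟩ : NNReal) •
      (Pi.single I (N I : ℝ) : KIdx m n k → ℝ) := by
    funext J
    rw [Finset.sum_apply, Finset.sum_eq_single J]
    · show v J = (v J / N J) * (Pi.single J (N J : ℝ) : KIdx m n k → ℝ) J
      rw [Pi.single_eq_same, div_mul_cancel₀]
      exact_mod_cast (hN J).ne'
    · intro I _ hI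
      show (v I / N I) * (Pi.single I (N I : ℝ) : KIdx m n k → ℝ) J = 0
      rw [Pi.single_eq_of_ne hI.symm, mul_zero]
    · intro h; exact absurd (Finset.mem_univ _) h
  rw [h1]
  exact Submodule.sum_mem _ fun I _ => Submodule.smul_mem _ _
    (Submodule.subset_span ⟨Z I, hZ I, hc I⟩)

end Pool.Agent.GrCyc
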