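import Mathlib

/-! The number of common roots of finitely many polynomials in one variable whose coefficients are
polynomials in parameters is constant for general parameters. -/

namespace Pool.Agent.GrCyc

open MvPolynomial

section Clear

variable {R : Type*} [CommRing R] [IsDomain R]

/-- clearing denominators in a polynomial -/
theorem clear_one (c : Polynomial (FractionRing R)) :
    ∃ d : R, d ≠ 0 ∧ ∃ u : Polynomial R, u.map (algebraMap R (FractionRing R)) =
      Polynomial.C (algebraMap R (FractionRing R) d) * c := by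
  obtain ⟨b, hb, h⟩ := IsLocalization.integerNormalization_spec (nonZeroDivisors R) c
  refine ⟨b, nonZeroDivisors.ne_zero hb, _, h.trans ?_⟩
  rw [← Polynomial.smul_eq_C_mul, algebraMap_smul]

/-- clearing denominators in a finite family of polynomials -/
theorem clear_family {ι : Type*} [Finite ι] (c : ι → Polynomial (FractionRing R)) :
    ∃ d : R, d ≠ 0 ∧ ∃ u : ι → Polynomial R, ∀ i, (u i).map (algebraMap R (FractionRing R)) =
      Polynomial.C (algebraMap R (FractionRing R) d) * c i := by
  classical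
  cases nonempty_fintype ι
  choose d hd u hu using fun i => clear_one (c i)
  refine ⟨∏ i, d i, Finset.prod_ne_zero_iff.mpr fun i _ => hd i,
    fun i => Polynomial.C (∏ j ∈ Finset.univ.erase i, d j) * u i, fun i => ?_⟩
  have h2 : (∏ j, d j) = (∏ j ∈ Finset.univ.erase i, d j) * d i :=
    (Finset.prod_erase_mul _ _ (Finset.mem_univ i)).symm
  rw [Polynomial.map_mul, Polynomial.map_C, hu i, h2, map_mul, map_mul]
  ring

/-- the radical of the gcd of finitely many polynomials over a domain of characteristic zero,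
with all denominators cleared -/
theorem radical_gcd [CharZero R] {ι : Type*} [Fintype ι] (φ : ι → Polynomial R)
    (h : ∃ i, φ i ≠ 0) :
    ∃ ρ : Polynomial R, ρ ≠ 0 ∧
      (∀ i, ∃ d : R, d ≠ 0 ∧ ∃ w : Polynomial R, Polynomial.C d * φ i = ρ * w) ∧
      (∃ (e : ℕ) (D : R), D ≠ 0 ∧ ∃ u : ι → Polynomial R,
        Polynomial.C D * ρ ^ e = ∑ i, u i * φ i) ∧
      ∃ D : R, D ≠ 0 ∧ ∃ a b : Polynomial R,
        a * ρ + b * Polynomial.derivative ρ = Polynomial.C D := by
  classical
  have hf : Function.Injective (algebraMap R (FractionRing R)) :=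
    IsFractionRing.injective R (FractionRing R)
  have hfm : Function.Injective (Polynomial.map (algebraMap R (FractionRing R))) :=
    Polynomial.map_injective _ hf
  have : CharZero (FractionRing R) := charZero_of_injective_algebraMap (R := R) hf
  obtain ⟨I, hI⟩ : ∃ I : Ideal (Polynomial (FractionRing R)),
    I = Ideal.span (Set.range fun i => (φ i).map (algebraMap R (FractionRing R))) := ⟨_, rfl⟩
  have hmem : ∀ i, (φ i).map (algebraMap R (FractionRing R)) ∈ I :=
    fun i => hI ▸ Ideal.subset_span ⟨i, rfl⟩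
  obtain ⟨ρ₀, hρ₀⟩ : ∃ ρ₀ : Polynomial (FractionRing R), I.radical = Ideal.span {ρ₀} :=
    (IsPrincipalIdealRing.principal I.radical).principal
  have hρ₀0 : ρ₀ ≠ 0 := by
    rintro rfl
    obtain ⟨i, hi⟩ := h
    have h1 : (φ i).map (algebraMap R (FractionRing R)) ∈ I.radical := Ideal.le_radical (hmem i)
    rw [hρ₀, Ideal.mem_span_singleton, zero_dvd_iff] at h1
    exact hi (hfm (by rw [h1, Polynomial.map_zero]))
  obtain ⟨d₀, hd₀, ρ, hρ⟩ := clear_one ρ₀
  have hunit : IsUnit (Polynomial.C (algebraMap R (FractionRing R) d₀)) := by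
    rw [Polynomial.isUnit_C]
    exact (isUnit_iff_ne_zero.mpr fun h0 => hd₀ (hf (by rw [h0, map_zero])))
  have hspan : Ideal.span {ρ.map (algebraMap R (FractionRing R))} = I.radical := by
    rw [hρ₀, Ideal.span_singleton_eq_span_singleton, hρ]
    exact associated_unit_mul_left _ _ hunit
  have hρ0 : ρ.map (algebraMap R (FractionRing R)) ≠ 0 := by
    rw [hρ]
    exact mul_ne_zero hunit.ne_zero hρ₀0
  have hrad : IsRadical (ρ.map (algebraMap R (FractionRing R))) := by
    rw [isRadical_iff_span_singleton, hspan]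
    exact Ideal.radical_isRadical I
  have hsep : (ρ.map (algebraMap R (FractionRing R))).Separable :=
    PerfectField.separable_iff_squarefree.mpr (hrad.squarefree hρ0)
  refine ⟨ρ, fun h0 => hρ0 (by rw [h0, Polynomial.map_zero]), ?_, ?_, ?_⟩
  · intro i
    have h1 : (φ i).map (algebraMap R (FractionRing R)) ∈
        Ideal.span {ρ.map (algebraMap R (FractionRing R))} :=
      hspan ▸ Ideal.le_radical (hmem i)
    rw [Ideal.mem_span_singleton] at h1
    obtain ⟨c, hc⟩ := h1
    obtain ⟨d, hd, w, hw⟩ := clear_one c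
    refine ⟨d, hd, w, hfm ?_⟩
    rw [Polynomial.map_mul, Polynomial.map_mul, Polynomial.map_C, hc, hw]
    ring
  · have h2 : ρ.map (algebraMap R (FractionRing R)) ∈ I.radical :=
      hspan ▸ Ideal.mem_span_singleton_self _
    obtain ⟨e, he⟩ := h2
    rw [hI, Ideal.mem_span_range_iff_exists_fun] at he
    obtain ⟨c, hc⟩ := he
    obtain ⟨D, hD, u, hu⟩ := clear_family c
    refine ⟨e, D, hD, u, hfm ?_⟩
    rw [Polynomial.map_mul, Polynomial.map_pow, Polynomial.map_C, ← hc, Polynomial.map_sum,
      Finset.mul_sum]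
    refine Finset.sum_congr rfl fun i _ => ?_
    rw [Polynomial.map_mul, hu i]
    ring
  · obtain ⟨a, b, hab⟩ := hsep
    obtain ⟨da, hda, ua, hua⟩ := clear_one a
    obtain ⟨db, hdb, ub, hub⟩ := clear_one b
    refine ⟨da * db, mul_ne_zero hda hdb, Polynomial.C db * ua, Polynomial.C da * ub, hfm ?_⟩
    rw [Polynomial.map_add, Polynomial.map_mul, Polynomial.map_mul, Polynomial.map_mul,
      Polynomial.map_mul, Polynomial.map_C, Polynomial.map_C, Polynomial.map_C,
      ← Polynomial.derivative_map, map_mul, map_mul, hua, hub]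
    linear_combination Polynomial.C (algebraMap R (FractionRing R) da) *
      Polynomial.C (algebraMap R (FractionRing R) db) * hab

end Clear

/-- a separable polynomial over the complex numbers has as many roots as its degree -/
theorem encard_roots_of_separable (p : Polynomial ℂ) (hp : p.Separable) :
    {x : ℂ | p.eval x = 0}.encard = p.natDegree := by
  have h0 : p ≠ 0 := hp.ne_zero
  have h1 : Fintype.card (p.rootSet ℂ) = p.natDegree :=
    Polynomial.card_rootSet_eq_natDegree hp (IsAlgClosed.splits _)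
  have h2 : {x : ℂ | p.eval x = 0} = p.rootSet ℂ := by
    ext x
    simp only [Set.mem_ofPred_eq, Polynomial.mem_rootSet, ne_eq, h0, not_false_eq_true, true_and,
      Polynomial.coe_aeval_eq_eval]
  rw [h2, ← h1, Set.encard, ENat.card_eq_coe_fintype_card]

/-- generic number of common roots of finitely many polynomials -/
theorem generic_common_roots {τ ι : Type*} [Finite ι] (φ : ι → Polynomial (MvPolynomial τ ℂ))
    (h : ∃ i, φ i ≠ 0) : ∃ (N : ℕ) (D : MvPolynomial τ ℂ), D ≠ 0 ∧
      ∀ g : τ → ℂ, eval g D ≠ 0 → {x : ℂ | ∀ i, ((φ i).map (eval g)).eval x = 0}.encard = N := by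
  classical
  cases nonempty_fintype ι
  have : CharZero (MvPolynomial τ ℂ) :=
    charZero_of_injective_algebraMap (R := ℂ) (MvPolynomial.C_injective τ ℂ)
  obtain ⟨ρ, hρR, h1, ⟨e, D₁, hD₁, u, hu⟩, D₂, hD₂, a, b, hab⟩ := radical_gcd φ h
  choose d hd w hw using h1
  refine ⟨ρ.natDegree, ρ.leadingCoeff * D₂ * D₁ * ∏ i, d i,
    mul_ne_zero (mul_ne_zero (mul_ne_zero (Polynomial.leadingCoeff_ne_zero.mpr hρR) hD₂) hD₁)
      (Finset.prod_ne_zero_iff.mpr fun i _ => hd i), fun g hg => ?_⟩
  rw [map_mul, map_mul, map_mul, map_prod] at hg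
  have hg1 : eval g ρ.leadingCoeff ≠ 0 := left_ne_zero_of_mul (left_ne_zero_of_mul
    (left_ne_zero_of_mul hg))
  have hg2 : eval g D₂ ≠ 0 := right_ne_zero_of_mul (left_ne_zero_of_mul (left_ne_zero_of_mul hg))
  have hg3 : eval g D₁ ≠ 0 := right_ne_zero_of_mul (left_ne_zero_of_mul hg)
  have hg4 : ∀ i, eval g (d i) ≠ 0 := fun i =>
    Finset.prod_ne_zero_iff.mp (right_ne_zero_of_mul hg) i (Finset.mem_univ i)
  have hset : {x : ℂ | ∀ i, ((φ i).map (eval g)).eval x = 0} =
      {x : ℂ | (ρ.map (eval g)).eval x = 0} := by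
    ext x
    simp only [Set.mem_ofPred_eq]
    constructor
    · intro hx
      have h3 := congrArg (fun p : Polynomial (MvPolynomial τ ℂ) => (p.map (eval g)).eval x) hu
      simp only [Polynomial.map_mul, Polynomial.map_pow, Polynomial.map_C, Polynomial.map_sum,
        Polynomial.eval_mul, Polynomial.eval_pow, Polynomial.eval_C, Polynomial.eval_finsetSum,
        hx, mul_zero, Finset.sum_const_zero] at h3
      exact eq_zero_of_pow_eq_zero ((mul_eq_zero.mp h3).resolve_left hg3)
    · intro hx i
      have h3 := congrArg (fun p : Polynomial (MvPolynomial τ ℂ) => (p.map (eval g)).eval x) (hw i)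
      simp only [Polynomial.map_mul, Polynomial.map_C, Polynomial.eval_mul, Polynomial.eval_C,
        hx, zero_mul] at h3
      exact (mul_eq_zero.mp h3).resolve_left (hg4 i)
  have hsepg : (ρ.map (eval g)).Separable := by
    refine ⟨Polynomial.C (eval g D₂)⁻¹ * a.map (eval g),
      Polynomial.C (eval g D₂)⁻¹ * b.map (eval g), ?_⟩
    have h3 := congrArg (fun p : Polynomial (MvPolynomial τ ℂ) => p.map (eval g)) hab
    simp only [Polynomial.map_add, Polynomial.map_mul, Polynomial.map_C] at h3
    rw [Polynomial.derivative_map]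
    have h4 : Polynomial.C (eval g D₂)⁻¹ * Polynomial.C (eval g D₂) = 1 := by
      rw [← map_mul, inv_mul_cancel₀ hg2, map_one]
    linear_combination Polynomial.C (eval g D₂)⁻¹ * h3 + h4
  rw [hset, encard_roots_of_separable _ hsepg,
    Polynomial.natDegree_map_of_leadingCoeff_ne_zero _ hg1]

/-- generic number of roots of one polynomial -/
theorem generic_roots {τ : Type*} (φ : Polynomial (MvPolynomial τ ℂ)) (h : φ ≠ 0) :
    ∃ (N : ℕ) (D : MvPolynomial τ ℂ), D ≠ 0 ∧ ∀ g : τ → ℂ, eval g D ≠ 0 →
      {x : ℂ | (φ.map (eval g)).eval x = 0}.encard = N := by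
  obtain ⟨N, D, hD, hN⟩ := generic_common_roots (fun _ : Fin 1 => φ) ⟨0, h⟩
  refine ⟨N, D, hD, fun g hg => ?_⟩
  rw [← hN g hg]
  congr 1
  ext x
  simp only [Set.mem_ofPred_eq]
  exact ⟨fun hx _ => hx, fun hx => hx 0⟩

end Pool.Agent.GrCyc
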