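import Pool.Agent.GrCyc.Top

/-! General flags, intersection of Schubert varieties with opposite Schubert varieties. -/

namespace Pool.Agent.GrCyc

open MvPolynomial Module

variable {m n : ℕ}

/-- the translate by `g` of the standard flag -/
noncomputable def lowG (g : Matrix (Fin n) (Fin n) ℂ) (j : ℕ) : Submodule ℂ (Fin n → ℂ) :=
  (low n j).map (Matrix.toLin' g)

/-- the translate by `g` of the opposite flag -/
noncomputable def highG (g : Matrix (Fin n) (Fin n) ℂ) (j : ℕ) : Submodule ℂ (Fin n → ℂ) :=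
  (high n j).map (Matrix.toLin' g)

theorem mem_low {j : ℕ} {v : Fin n → ℂ} : v ∈ low n j ↔ ∀ i : Fin n, j ≤ (i : ℕ) → v i = 0 :=
  Iff.rfl

theorem mem_high {j : ℕ} {v : Fin n → ℂ} : v ∈ high n j ↔ ∀ i : Fin n, (i : ℕ) < j → v i = 0 :=
  Iff.rfl

theorem mem_lowG {g : Matrix (Fin n) (Fin n) ℂ} {j : ℕ} {v : Fin n → ℂ} :
    v ∈ lowG g j ↔ ∃ u ∈ low n j, g.mulVec u = v := by
  simp [lowG, Submodule.mem_map]

theorem mem_highG {g : Matrix (Fin n) (Fin n) ℂ} {j : ℕ} {v : Fin n → ℂ} :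
    v ∈ highG g j ↔ ∃ u ∈ high n j, g.mulVec u = v := by
  simp [highG, Submodule.mem_map]

theorem card_lt {j : ℕ} (hj : j ≤ n) : Fintype.card ↥{i : Fin n | (i : ℕ) < j} = j := by
  rw [Fintype.card_congr (β := Fin j)]
  · simp
  · exact { toFun := fun x => ⟨x.1.1, x.2⟩
            invFun := fun y => ⟨⟨y.1, lt_of_lt_of_le y.2 hj⟩, y.2⟩
            left_inv := fun x => rfl
            right_inv := fun y => rfl }

theorem card_ge (j : ℕ) : Fintype.card ↥{i : Fin n | j ≤ (i : ℕ)} = n - j := by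
  rw [Fintype.card_congr (β := Fin (n - j))]
  · simp
  · exact { toFun := fun x => ⟨x.1.1 - j, by have := x.1.2; have h : j ≤ x.1.1 := x.2; omega⟩
            invFun := fun y => ⟨⟨y.1 + j, by have := y.2; omega⟩, by simp⟩
            left_inv := fun x => by
              have h : j ≤ x.1.1 := x.2
              apply Subtype.ext
              apply Fin.ext
              simp; omega
            right_inv := fun y => by
              apply Fin.ext
              simp }

theorem finrank_low {j : ℕ} (hj : j ≤ n) : finrank ℂ ↥(low n j) = j := by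
  classical
  have h : low n j = ⨅ i ∈ ({i : Fin n | j ≤ (i : ℕ)} : Set (Fin n)),
      LinearMap.ker (LinearMap.proj (R := ℂ) (φ := fun _ : Fin n => ℂ) i) := by
    ext v
    simp [mem_low]
  rw [h, (LinearMap.iInfKerProjEquiv ℂ (fun _ : Fin n => ℂ) (I := {i : Fin n | (i : ℕ) < j})
    (J := {i : Fin n | j ≤ (i : ℕ)}) ?_ ?_).finrank_eq]
  · rw [Module.finrank_fintype_fun_eq_card, card_lt hj]
  · rw [Set.disjoint_left]; intro i (hi : (i : ℕ) < j) (hi' : j ≤ (i : ℕ)); omega
  · intro i _; exact lt_or_ge (i : ℕ) j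

theorem finrank_high (j : ℕ) : finrank ℂ ↥(high n j) = n - j := by
  classical
  have h : high n j = ⨅ i ∈ ({i : Fin n | (i : ℕ) < j} : Set (Fin n)),
      LinearMap.ker (LinearMap.proj (R := ℂ) (φ := fun _ : Fin n => ℂ) i) := by
    ext v
    simp [mem_high]
  rw [h, (LinearMap.iInfKerProjEquiv ℂ (fun _ : Fin n => ℂ) (I := {i : Fin n | j ≤ (i : ℕ)})
    (J := {i : Fin n | (i : ℕ) < j}) ?_ ?_).finrank_eq]
  · rw [Module.finrank_fintype_fun_eq_card, card_ge]
  · rw [Set.disjoint_left]; intro i (hi : j ≤ (i : ℕ)) (hi' : (i : ℕ) < j); omega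
  · intro i _; exact (lt_or_ge (i : ℕ) j).symm

theorem injective_mulVec (g : GL (Fin n) ℂ) {u v : Fin n → ℂ} (h : g.1.mulVec u = g.1.mulVec v) :
    u = v := by
  have h1 := congrArg (fun w => (g⁻¹).1.mulVec w) h
  simpa [Matrix.mulVec_mulVec] using h1

theorem ker_toLin' (g : GL (Fin n) ℂ) : LinearMap.ker (Matrix.toLin' g.1) = ⊥ := by
  rw [LinearMap.ker_eq_bot]
  intro u v h
  exact injective_mulVec g (by simpa using h)

theorem finrank_lowG (g : GL (Fin n) ℂ) {j : ℕ} (hj : j ≤ n) : finrank ℂ (lowG g.1 j) = j := by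
  unfold lowG
  rw [← (Submodule.equivMapOfInjective (Matrix.toLin' g.1)
    (LinearMap.ker_eq_bot.1 (ker_toLin' g)) (low n j)).finrank_eq]
  exact finrank_low hj

theorem finrank_highG (g : GL (Fin n) ℂ) (j : ℕ) : finrank ℂ (highG g.1 j) = n - j := by
  unfold highG
  rw [← (Submodule.equivMapOfInjective (Matrix.toLin' g.1)
    (LinearMap.ker_eq_bot.1 (ker_toLin' g)) (high n j)).finrank_eq]
  exact finrank_high j

theorem lowG_mono (g : Matrix (Fin n) (Fin n) ℂ) {i j : ℕ} (h : i ≤ j) : lowG g i ≤ lowG g j :=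
  Submodule.map_mono fun _ hv k hk => hv k (h.trans hk)

theorem highG_anti (g : Matrix (Fin n) (Fin n) ℂ) {i j : ℕ} (h : i ≤ j) :
    highG g j ≤ highG g i :=
  Submodule.map_mono fun _ hv k hk => hv k (hk.trans_le h)

/-- the matrix with columns `e_0, ..., e_(j-1), g_j, ..., g_(n-1)` -/
def mixM {R : Type*} [CommRing R] (g : Matrix (Fin n) (Fin n) R) (j : ℕ) : Matrix (Fin n) (Fin n) R :=
  Matrix.of fun r c => if (c : ℕ) < j then (if r = c then 1 else 0) else g r c

/-- a polynomial expression in `g` for a generator of `⟨e_0, ..., e_j⟩ ∩ ⟨g_j, ..., g_(n-1)⟩` -/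
def uvec {R : Type*} [CommRing R] (g : Matrix (Fin n) (Fin n) R) (j : Fin n) : Fin n → R := fun i =>
  if i < j then - (mixM g (j : ℕ)).adjugate i j else if i = j then (mixM g (j : ℕ)).det else 0

theorem map_mixM {R S : Type*} [CommRing R] [CommRing S] (f : R →+* S)
    (g : Matrix (Fin n) (Fin n) R) (j : ℕ) : (mixM g j).map f = mixM (g.map f) j := by
  ext r c
  simp only [mixM, Matrix.map_apply, Matrix.of_apply]
  split_ifs <;> simp

/-- `uvec` commutes with ring homomorphisms -/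
theorem map_uvec {R S : Type*} [CommRing R] [CommRing S] (f : R →+* S)
    (g : Matrix (Fin n) (Fin n) R) (j i : Fin n) : f (uvec g j i) = uvec (g.map f) j i := by
  unfold uvec
  rw [← map_mixM]
  split_ifs
  · rw [map_neg]
    congr 1
    have := RingHom.map_adjugate f (mixM g (j : ℕ))
    have h2 := congrFun (congrFun this i) j
    simpa [RingHom.mapMatrix_apply] using h2
  · rw [RingHom.map_det]
    rfl
  · exact map_zero f

theorem mixM_mulVec {R : Type*} [CommRing R] (g : Matrix (Fin n) (Fin n) R) (j : ℕ)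
    (x : Fin n → R) : (mixM g j).mulVec x = (fun i : Fin n => if (i : ℕ) < j then x i else 0) +
      g.mulVec (fun i : Fin n => if (i : ℕ) < j then 0 else x i) := by
  funext r
  simp only [Matrix.mulVec, dotProduct, mixM, Matrix.of_apply, Pi.add_apply]
  have h1 : ∀ c : Fin n, (if (c : ℕ) < j then (if r = c then 1 else 0) else g r c) * x c =
      (if r = c then (if (c : ℕ) < j then x c else 0) else 0) +
        g r c * (if (c : ℕ) < j then 0 else x c) := by
    intro c
    by_cases h : (c : ℕ) < j <;> by_cases h' : r = c <;> simp [h, h']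
  rw [Finset.sum_congr rfl (fun c _ => h1 c), Finset.sum_add_distrib]
  congr 1
  simp

/-- The two flags are in general position. -/
def Opp (h g : Matrix (Fin n) (Fin n) ℂ) : Prop := ∀ j : ℕ, lowG h j ⊓ highG g j = ⊥

theorem high_eq_bot {j : ℕ} (hj : n ≤ j) : high n j = ⊥ := by
  rw [eq_bot_iff]
  intro v hv
  rw [Submodule.mem_bot]
  funext i
  exact hv i (i.2.trans_le hj)

theorem highG_eq_bot (g : Matrix (Fin n) (Fin n) ℂ) {j : ℕ} (hj : n ≤ j) : highG g j = ⊥ := by
  unfold highG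
  rw [high_eq_bot hj, Submodule.map_bot]

theorem opp_of_det {h g : GL (Fin n) ℂ}
    (hd : ∀ j < n, (mixM ((h⁻¹).1 * g.1) j).det ≠ 0) : Opp h.1 g.1 := by
  intro j
  rcases lt_or_ge j n with hj | hj
  · rw [eq_bot_iff]
    rintro v ⟨hv1, hv2⟩
    obtain ⟨u, hu, rfl⟩ := mem_lowG.1 hv1
    obtain ⟨w, hw, hwu⟩ := mem_highG.1 hv2
    -- `u = h⁻¹ g w`
    have h1 : ((h⁻¹).1 * g.1).mulVec w = u := by
      rw [← Matrix.mulVec_mulVec, hwu, Matrix.mulVec_mulVec, ← Units.val_mul, inv_mul_cancel,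
        Units.val_one, Matrix.one_mulVec]
    have h2 : (mixM ((h⁻¹).1 * g.1) j).mulVec (w - u) = 0 := by
      rw [mixM_mulVec]
      have h3 : (fun i : Fin n => if (i : ℕ) < j then (w - u) i else 0) = -u := by
        funext i
        by_cases hi : (i : ℕ) < j
        · simp [hi, hw i hi]
        · simp [hi, hu i (not_lt.1 hi)]
      have h4 : (fun i : Fin n => if (i : ℕ) < j then 0 else (w - u) i) = w := by
        funext i
        by_cases hi : (i : ℕ) < j
        · simp [hi, hw i hi]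
        · simp [hi, hu i (not_lt.1 hi)]
      rw [h3, h4, h1, neg_add_cancel]
    have h5 : w - u = 0 := by
      by_contra hne
      exact hd j hj (Matrix.exists_mulVec_eq_zero_iff.1 ⟨w - u, hne, h2⟩)
    have h6 : u = 0 := by
      funext i
      by_cases hi : (i : ℕ) < j
      · have := congrFun h5 i
        rw [Pi.sub_apply, hw i hi, Pi.zero_apply, zero_sub, neg_eq_zero] at this
        exact this
      · exact hu i (not_lt.1 hi)
    rw [h6, Submodule.mem_bot, Matrix.mulVec_zero]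
  · rw [highG_eq_bot _ hj, inf_bot_eq]

theorem opp_self (h : GL (Fin n) ℂ) : Opp h.1 h.1 := by
  refine opp_of_det fun j _ => ?_
  have : mixM ((h⁻¹).1 * h.1) j = 1 := by
    rw [← Units.val_mul, inv_mul_cancel, Units.val_one]
    ext r c
    simp [mixM, Matrix.one_apply]
  rw [this, Matrix.det_one]
  exact one_ne_zero

/-- general translates are in general position -/
theorem exists_generic (h : GL (Fin n) ℂ) : ∃ P : MvPolynomial (Fin n × Fin n) ℂ, P ≠ 0 ∧
    ∀ g : GL (Fin n) ℂ, eval (fun p => g.1 p.1 p.2) P ≠ 0 → Opp h.1 g.1 := by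
  classical
  let X' : Matrix (Fin n) (Fin n) (MvPolynomial (Fin n × Fin n) ℂ) := Matrix.of fun r c => X (r, c)
  let H : Matrix (Fin n) (Fin n) (MvPolynomial (Fin n × Fin n) ℂ) := ((h⁻¹).1).map C
  let P : MvPolynomial (Fin n × Fin n) ℂ := ∏ j ∈ Finset.range n, (mixM (H * X') j).det
  have hev : ∀ g : Matrix (Fin n) (Fin n) ℂ, eval (fun p : Fin n × Fin n => g p.1 p.2) P =
      ∏ j ∈ Finset.range n, (mixM ((h⁻¹).1 * g) j).det := by
    intro g
    show eval _ (∏ j ∈ Finset.range n, (mixM (H * X') j).det) = _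
    rw [map_prod]
    refine Finset.prod_congr rfl fun j _ => ?_
    rw [RingHom.map_det, RingHom.mapMatrix_apply, map_mixM, Matrix.map_mul]
    congr 3
    · ext r c; simp [H]
    · ext r c; simp [X']
  refine ⟨P, ?_, ?_⟩
  · intro h0
    have h1 := hev h.1
    rw [h0, map_zero] at h1
    have h2 : ∏ j ∈ Finset.range n, (mixM ((h⁻¹).1 * h.1) j).det = 1 := by
      refine Finset.prod_eq_one fun j _ => ?_
      have : mixM ((h⁻¹).1 * h.1) j = 1 := by
        rw [← Units.val_mul, inv_mul_cancel, Units.val_one]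
        ext r c
        simp [mixM, Matrix.one_apply]
      rw [this, Matrix.det_one]
    rw [h2] at h1
    exact zero_ne_one h1
  · intro g hg
    rw [hev] at hg
    refine opp_of_det fun j hj => ?_
    exact (Finset.prod_ne_zero_iff.1 hg) j (Finset.mem_range.2 hj)

theorem det_mixM_ne_zero (g : GL (Fin n) ℂ) (hg : Opp 1 g.1) (j : ℕ) (hj : j ≤ n) :
    (mixM g.1 j).det ≠ 0 := by
  intro hdet
  obtain ⟨x, hx, hx0⟩ := Matrix.exists_mulVec_eq_zero_iff.2 hdet
  rw [mixM_mulVec] at hx0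
  set u : Fin n → ℂ := fun i => if (i : ℕ) < j then x i else 0 with hu
  set w : Fin n → ℂ := fun i => if (i : ℕ) < j then 0 else x i with hw
  have h1 : g.1.mulVec w ∈ lowG (1 : Matrix (Fin n) (Fin n) ℂ) j ⊓ highG g.1 j := by
    refine ⟨mem_lowG.2 ⟨-u, ?_, ?_⟩, mem_highG.2 ⟨w, ?_, rfl⟩⟩
    · intro i hi
      rw [Pi.neg_apply, hu]
      simp [not_lt.2 hi]
    · rw [Matrix.one_mulVec]
      exact (eq_neg_of_add_eq_zero_right hx0).symm
    · intro i hi
      simp [hw, hi]
  rw [hg j, Submodule.mem_bot] at h1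
  have h2 : w = 0 := injective_mulVec g (by rw [h1, Matrix.mulVec_zero])
  rw [h1, add_zero] at hx0
  apply hx
  funext i
  by_cases hi : (i : ℕ) < j
  · have := congrFun hx0 i
    simpa [hu, hi] using this
  · have := congrFun h2 i
    simpa [hw, hi] using this

theorem finrank_line {h g : GL (Fin n) ℂ} (hg : Opp h.1 g.1) (j : Fin n) :
    finrank ℂ ↥(lowG h.1 ((j : ℕ) + 1) ⊓ highG g.1 (j : ℕ)) = 1 := by
  have h1 := Submodule.finrank_sup_add_finrank_inf_eq (lowG h.1 ((j : ℕ) + 1)) (highG g.1 (j : ℕ))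
  have h2 : finrank ℂ ↥(lowG h.1 ((j : ℕ) + 1) ⊔ highG g.1 (j : ℕ)) ≤ n := by
    have := Submodule.finrank_le (lowG h.1 ((j : ℕ) + 1) ⊔ highG g.1 (j : ℕ))
    simpa using this
  rw [finrank_lowG h (show (j : ℕ) + 1 ≤ n from j.2), finrank_highG] at h1
  have h3 := Submodule.finrank_sup_add_finrank_inf_eq
    (lowG h.1 ((j : ℕ) + 1) ⊓ highG g.1 (j : ℕ)) (lowG h.1 (j : ℕ))
  have h4 : (lowG h.1 ((j : ℕ) + 1) ⊓ highG g.1 (j : ℕ)) ⊓ lowG h.1 (j : ℕ) = ⊥ := by
    rw [eq_bot_iff, ← hg (j : ℕ)]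
    exact le_inf inf_le_right (inf_le_left.trans inf_le_right)
  have h5 : finrank ℂ ↥((lowG h.1 ((j : ℕ) + 1) ⊓ highG g.1 (j : ℕ)) ⊔ lowG h.1 (j : ℕ)) ≤
      (j : ℕ) + 1 := by
    refine le_of_le_of_eq ?_ (finrank_lowG h (show (j : ℕ) + 1 ≤ n from j.2))
    exact Submodule.finrank_mono (sup_le inf_le_left (lowG_mono _ (Nat.le_succ _)))
  rw [h4, finrank_bot, finrank_lowG h j.2.le] at h3
  have := j.2
  omega

/-- for flags in general position the line `F_(j+1) ∩ F'_j` is spanned by `uvec g j` -/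
theorem span_uvec (g : GL (Fin n) ℂ) (hg : Opp 1 g.1) (j : Fin n) :
    lowG (1 : Matrix (Fin n) (Fin n) ℂ) ((j : ℕ) + 1) ⊓ highG g.1 (j : ℕ) =
      Submodule.span ℂ {uvec g.1 j} ∧ uvec g.1 j j ≠ 0 := by
  have hd := det_mixM_ne_zero g hg (j : ℕ) j.2.le
  have h0 : uvec g.1 j j ≠ 0 := by
    simpa [uvec] using hd
  refine ⟨?_, h0⟩
  have hne : uvec g.1 j ≠ 0 := fun h => h0 (by rw [h]; rfl)
  have hmem : uvec g.1 j ∈ lowG (1 : Matrix (Fin n) (Fin n) ℂ) ((j : ℕ) + 1) ⊓ highG g.1 (j : ℕ) := by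
    refine ⟨mem_lowG.2 ⟨uvec g.1 j, ?_, Matrix.one_mulVec _⟩, mem_highG.2
      ⟨fun i => if (i : ℕ) < (j : ℕ) then 0 else (mixM g.1 (j : ℕ)).adjugate i j, ?_, ?_⟩⟩
    · intro i hi
      have h1 : ¬ i < j := by
        rw [Fin.lt_def]; omega
      have h2 : ¬ i = j := by
        rintro rfl; omega
      simp [uvec, h1, h2]
    · intro i hi
      simp [hi]
    · have h1 : (mixM g.1 (j : ℕ)).mulVec (fun i => (mixM g.1 (j : ℕ)).adjugate i j) =
          (mixM g.1 (j : ℕ)).det • Pi.single j 1 := by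
        have := Matrix.mul_adjugate (mixM g.1 (j : ℕ))
        funext r
        have h2 := congrFun (congrFun this r) j
        simp only [Matrix.mul_apply, Matrix.smul_apply, Matrix.one_apply] at h2
        simp only [Matrix.mulVec, dotProduct, Pi.smul_apply, Pi.single_apply]
        exact h2
      rw [mixM_mulVec] at h1
      rw [← sub_eq_of_eq_add' h1.symm]
      funext i
      simp only [Pi.sub_apply, Pi.smul_apply, Pi.single_apply, uvec, Fin.lt_def]
      by_cases hij : (i : ℕ) < (j : ℕ)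
      · have h3 : i ≠ j := by rintro rfl; omega
        simp [hij, h3]
      · by_cases h3 : i = j
        · simp [h3]
        · simp [hij, h3]
  have hone : Opp (1 : GL (Fin n) ℂ).1 g.1 := hg
  have hfr := finrank_line hone j
  refine (Submodule.eq_of_le_of_finrank_le ?_ ?_).symm
  · rw [Submodule.span_singleton_le_iff_mem]; exact hmem
  · rw [finrank_span_singleton hne]
    exact hfr.le

theorem mem_schubert {J : Fin m ↪o Fin n} {h : Matrix (Fin n) (Fin n) ℂ} {V : Gr m n} :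
    V ∈ schubert J h ↔ ∀ t : Fin m, (t : ℕ) + 1 ≤
      finrank ℂ ↥(V.1 ⊓ lowG h ((J t : ℕ) + 1)) := Iff.rfl

theorem mem_oppSchubert {I : Fin m ↪o Fin n} {g : Matrix (Fin n) (Fin n) ℂ} {V : Gr m n} :
    V ∈ oppSchubert I g ↔ ∀ t : Fin m, m - (t : ℕ) ≤
      finrank ℂ ↥(V.1 ⊓ highG g (I t : ℕ)) := Iff.rfl

theorem inter_ne_bot {h g : Matrix (Fin n) (Fin n) ℂ} {I J : Fin m ↪o Fin n} {V : Gr m n}
    (hV : V ∈ schubert J h ∩ oppSchubert I g) (t : Fin m) :
    V.1 ⊓ (lowG h ((J t : ℕ) + 1) ⊓ highG g (I t : ℕ)) ≠ ⊥ := by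
  intro h0
  have h1 := mem_schubert.1 hV.1 t
  have h2 := mem_oppSchubert.1 hV.2 t
  have h3 := Submodule.finrank_sup_add_finrank_inf_eq
    (V.1 ⊓ lowG h ((J t : ℕ) + 1)) (V.1 ⊓ highG g (I t : ℕ))
  have h4 : (V.1 ⊓ lowG h ((J t : ℕ) + 1)) ⊓ (V.1 ⊓ highG g (I t : ℕ)) = ⊥ := by
    rw [eq_bot_iff, ← h0]
    exact le_inf (inf_le_left.trans inf_le_left)
      (le_inf (inf_le_left.trans inf_le_right) (inf_le_right.trans inf_le_right))
  have h5 : finrank ℂ ↥((V.1 ⊓ lowG h ((J t : ℕ) + 1)) ⊔ (V.1 ⊓ highG g (I t : ℕ))) ≤ m := by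
    refine le_of_le_of_eq ?_ V.2
    exact Submodule.finrank_mono (sup_le inf_le_left inf_le_left)
  rw [h4, finrank_bot] at h3
  have := t.2
  omega

/-- the Bruhat order condition is necessary for a nonempty intersection -/
theorem le_of_mem_inter {h g : GL (Fin n) ℂ} (hg : Opp h.1 g.1) {I J : Fin m ↪o Fin n}
    {V : Gr m n} (hV : V ∈ schubert J h.1 ∩ oppSchubert I g.1) (t : Fin m) : I t ≤ J t := by
  by_contra hlt
  apply inter_ne_bot hV t
  rw [eq_bot_iff, ← hg (I t : ℕ)]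
  refine inf_le_right.trans (inf_le_inf_right _ (lowG_mono _ ?_))
  have : ((J t : Fin n) : ℕ) < (I t : ℕ) := not_le.1 hlt
  omega

/-- the Bruhat order condition is necessary for a nonempty intersection -/
theorem inter_eq_empty {h g : GL (Fin n) ℂ} (hg : Opp h.1 g.1) {I J : Fin m ↪o Fin n}
    (hIJ : ¬ ∀ t, I t ≤ J t) : schubert J h.1 ∩ oppSchubert I g.1 = ∅ := by
  rw [Set.eq_empty_iff_forall_notMem]
  intro V hV
  exact hIJ (le_of_mem_inter hg hV)

/-- for `V` in the intersection, `V` contains the lines `F_(i_t+1) ∩ F'_(i_t)` with `i_t = j_t` -/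
theorem line_le {h g : GL (Fin n) ℂ} (hg : Opp h.1 g.1) {I J : Fin m ↪o Fin n} {V : Gr m n}
    (hV : V ∈ schubert J h.1 ∩ oppSchubert I g.1) {t : Fin m} (ht : I t = J t) :
    lowG h.1 ((I t : ℕ) + 1) ⊓ highG g.1 (I t : ℕ) ≤ V.1 := by
  have h1 := inter_ne_bot hV t
  rw [← ht] at h1
  have h2 : V.1 ⊓ (lowG h.1 ((I t : ℕ) + 1) ⊓ highG g.1 (I t : ℕ)) =
      lowG h.1 ((I t : ℕ) + 1) ⊓ highG g.1 (I t : ℕ) := by
    refine Submodule.eq_of_le_of_finrank_le inf_le_right ?_
    rw [finrank_line hg (I t)]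
    exact Nat.one_le_iff_ne_zero.2 fun h0 => h1 (Submodule.finrank_eq_zero.1 h0)
  rw [← h2]
  exact inf_le_left

/-- a basis of `ℂ^n` adapted to two flags in general position -/
theorem exists_lines {h g : GL (Fin n) ℂ} (hg : Opp h.1 g.1) : ∃ b : Fin n → Fin n → ℂ,
    LinearIndependent ℂ b ∧ ∀ j : Fin n,
      b j ∈ lowG h.1 ((j : ℕ) + 1) ⊓ highG g.1 (j : ℕ) := by
  have h1 : ∀ j : Fin n, ∃ v ∈ lowG h.1 ((j : ℕ) + 1) ⊓ highG g.1 (j : ℕ), v ≠ 0 := by
    intro j
    refine (Submodule.ne_bot_iff _).1 ?_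
    intro h0
    have := finrank_line hg j
    rw [h0, finrank_bot] at this
    exact zero_ne_one this
  choose b hb hb0 using h1
  refine ⟨b, ?_, hb⟩
  rw [Fintype.linearIndependent_iff]
  intro c hc
  by_contra hne
  push Not at hne
  -- the largest index with nonzero coefficient
  obtain ⟨j, hj, hmax⟩ : ∃ j : Fin n, c j ≠ 0 ∧ ∀ i, j < i → c i = 0 := by
    classical
    let S : Finset (Fin n) := Finset.univ.filter fun i => c i ≠ 0
    have hS : S.Nonempty := by
      obtain ⟨i, hi⟩ := hne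
      exact ⟨i, by simpa [S] using hi⟩
    refine ⟨S.max' hS, by simpa [S] using S.max'_mem hS, fun i hi => ?_⟩
    by_contra hci
    exact absurd (S.le_max' i (by simpa [S] using hci)) (not_le.2 hi)
  have h2 : c j • b j = - ∑ i ∈ Finset.univ.erase j, c i • b i := by
    rw [← Finset.add_sum_erase Finset.univ _ (Finset.mem_univ j)] at hc
    exact eq_neg_of_add_eq_zero_left hc
  have h3 : c j • b j ∈ lowG h.1 (j : ℕ) := by
    rw [h2]
    refine Submodule.neg_mem _ (Submodule.sum_mem _ fun i hi => ?_)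
    rcases lt_or_gt_of_ne (Finset.ne_of_mem_erase hi) with hlt | hgt
    · refine Submodule.smul_mem _ _ (lowG_mono _ ?_ (hb i).1)
      exact Nat.succ_le_of_lt hlt
    · rw [hmax i hgt, zero_smul]
      exact Submodule.zero_mem _
  have h4 : b j ∈ lowG h.1 (j : ℕ) ⊓ highG g.1 (j : ℕ) :=
    ⟨(Submodule.smul_mem_iff _ hj).1 h3, (hb j).2⟩
  rw [hg, Submodule.mem_bot] at h4
  exact hb0 j h4

/-- duality -/
theorem inter_eq_singleton {h g : GL (Fin n) ℂ} (hg : Opp h.1 g.1) (I : Fin m ↪o Fin n) :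
    ∃ V, schubert I h.1 ∩ oppSchubert I g.1 = {V} := by
  obtain ⟨b, hbi, hb⟩ := exists_lines hg
  have hbI : LinearIndependent ℂ (fun t => b (I t)) := hbi.comp I I.injective
  let V : Gr m n := ofBasis (fun t => b (I t)) hbI
  have hbV : ∀ t, b (I t) ∈ V.1 := fun t => Submodule.subset_span ⟨t, rfl⟩
  refine ⟨V, ?_⟩
  rw [Set.eq_singleton_iff_unique_mem]
  refine ⟨⟨mem_schubert.2 fun t => ?_, mem_oppSchubert.2 fun t => ?_⟩, fun V' hV' => ?_⟩
  · let f : Fin ((t : ℕ) + 1) → Fin n → ℂ := fun s => b (I (Fin.castLE t.2 s))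
    have hf : LinearIndependent ℂ f :=
      hbI.comp (Fin.castLE t.2) (Fin.castLE_injective _)
    have h1 : Submodule.span ℂ (Set.range f) ≤ V.1 ⊓ lowG h.1 ((I t : ℕ) + 1) := by
      rw [Submodule.span_le]
      rintro _ ⟨s, rfl⟩
      refine ⟨hbV _, lowG_mono _ ?_ (hb _).1⟩
      have h2 : I (Fin.castLE t.2 s) ≤ I t := I.monotone (by
        rw [Fin.le_def, Fin.val_castLE]; have := s.2; omega)
      exact Nat.succ_le_succ h2
    have h2 := Submodule.finrank_mono h1
    rwa [finrank_span_eq_card hf, Fintype.card_fin] at h2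
  · let e : Fin (m - (t : ℕ)) → Fin m := fun s => ⟨(t : ℕ) + s, by have := s.2; have := t.2; omega⟩
    have he : Function.Injective e := by
      intro s s' hs
      have := congrArg Fin.val hs
      apply Fin.ext
      simpa [e] using this
    let f : Fin (m - (t : ℕ)) → Fin n → ℂ := fun s => b (I (e s))
    have hf : LinearIndependent ℂ f := hbI.comp e he
    have h1 : Submodule.span ℂ (Set.range f) ≤ V.1 ⊓ highG g.1 (I t : ℕ) := by
      rw [Submodule.span_le]
      rintro _ ⟨s, rfl⟩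
      refine ⟨hbV _, highG_anti _ ?_ (hb _).2⟩
      have h2 : I t ≤ I (e s) := I.monotone (by rw [Fin.le_def]; simp [e])
      exact h2
    have h2 := Submodule.finrank_mono h1
    rwa [finrank_span_eq_card hf, Fintype.card_fin] at h2
  · apply Subtype.ext
    symm
    refine Submodule.eq_of_le_of_finrank_le ?_ ?_
    · show Submodule.span ℂ (Set.range fun t => b (I t)) ≤ V'.1
      rw [Submodule.span_le]
      rintro _ ⟨t, rfl⟩
      exact line_le hg hV' rfl (hb (I t))
    · rw [V'.2, V.2]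

theorem le_idx (I : Fin m ↪o Fin n) (t : Fin m) : (t : ℕ) ≤ (I t : ℕ) := by
  obtain ⟨t, ht⟩ := t
  induction t with
  | zero => exact Nat.zero_le _
  | succ k ih =>
    have h1 := ih (Nat.lt_of_succ_lt ht)
    have h2 : I ⟨k, Nat.lt_of_succ_lt ht⟩ < I ⟨k + 1, ht⟩ := I.strictMono (by
      rw [Fin.lt_def]; exact Nat.lt_succ_self k)
    have h3 : ((I ⟨k, Nat.lt_of_succ_lt ht⟩ : Fin n) : ℕ) < (I ⟨k + 1, ht⟩ : ℕ) := h2
    simp only at h1 ⊢
    omega

theorem eq_of_le_of_dimIdx_eq {I J : Fin m ↪o Fin n} (h : ∀ t, I t ≤ J t)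
    (hd : dimIdx I = dimIdx J) : I = J := by
  unfold dimIdx at hd
  have h1 := (Finset.sum_eq_sum_iff_of_le (fun t _ => Nat.sub_le_sub_right
    (show ((I t : Fin n) : ℕ) ≤ (J t : ℕ) from h t) (t : ℕ))).1 hd
  refine DFunLike.ext _ _ fun t => Fin.ext ?_
  have h2 := h1 t (Finset.mem_univ t)
  have h3 := le_idx I t
  have h4 := le_idx J t
  omega

/-- the class of a Schubert variety is a vector of the standard basis -/
theorem isClass_schubert {k : ℕ} (J : KIdx m n k) (h : GL (Fin n) ℂ) :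
    IsClass (schubert J.1 h.1) (Pi.single J 1 : KIdx m n k → ℝ) := by
  intro I
  obtain ⟨P, hP, hgen⟩ := exists_generic h
  by_cases hIJ : I = J
  · subst hIJ
    refine ⟨1, by simp, P, hP, fun g hg => ?_⟩
    obtain ⟨V, hV⟩ := inter_eq_singleton (hgen g hg) I.1
    rw [hV, Set.encard_singleton]
    rfl
  · refine ⟨0, by simp [Pi.single_apply, hIJ], P, hP, fun g hg => ?_⟩
    rw [inter_eq_empty (hgen g hg), Set.encard_empty]
    · rfl
    · intro hle
      exact hIJ (Subtype.ext (eq_of_le_of_dimIdx_eq hle (I.2.trans J.2.symm)))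

/-- the subspace spanned by the vectors `h e_(j_t)` lies in the Schubert variety of index `J` and in
no smaller one -/
theorem exists_mem_schubert (J : Fin m ↪o Fin n) (h : GL (Fin n) ℂ) : ∃ V : Gr m n,
    V ∈ schubert J h.1 ∧ ∀ I : Fin m ↪o Fin n, V ∈ schubert I h.1 → ∀ t, J t ≤ I t := by
  obtain ⟨V, hV⟩ := inter_eq_singleton (opp_self h) J
  have hmem : V ∈ schubert J h.1 ∩ oppSchubert J h.1 := by
    rw [hV]; exact Set.mem_singleton V
  exact ⟨V, hmem.1, fun I hI t => le_of_mem_inter (opp_self h) ⟨hI, hmem.2⟩ t⟩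

end Pool.Agent.GrCyc
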