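import Pool.Agent.GrCyc.Top

/-! Families of subspaces parametrised by matrices with polynomial entries. -/

namespace Pool.Agent.GrCyc

open MvPolynomial Module

variable {m n : ℕ} {σ : Type*}

/-- The value at the point `c` of a matrix with polynomial entries. -/
noncomputable def evalM (A : Fin m → Fin n → MvPolynomial σ ℂ) (c : σ → ℂ) : Fin m → Fin n → ℂ :=
  fun i j => eval c (A i j)

/-- Substitution of the maximal minors of `A` in a polynomial in the Plücker coordinates. -/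
noncomputable def pull (A : Fin m → Fin n → MvPolynomial σ ℂ)
    (P : MvPolynomial (Fin m ↪o Fin n) ℂ) : MvPolynomial σ ℂ :=
  aeval (fun K : Fin m ↪o Fin n => Matrix.det (Matrix.of fun i j => A i (K j))) P

theorem eval_pull (A : Fin m → Fin n → MvPolynomial σ ℂ) (P : MvPolynomial (Fin m ↪o Fin n) ℂ)
    (c : σ → ℂ) : eval c (pull A P) = eval (plu (evalM A c)) P := by
  have h : (eval c).comp (aeval (R := ℂ) (fun K : Fin m ↪o Fin n =>
      Matrix.det (Matrix.of fun i j => A i (K j)))).toRingHom = eval (plu (evalM A c)) := by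
    refine MvPolynomial.ringHom_ext (fun r => by simp) (fun K => ?_)
    show eval c (aeval _ (X K)) = _
    rw [aeval_X, eval_X, RingHom.map_det]
    rfl
  exact RingHom.congr_fun h P

/-- The subspaces spanned by the rows of `A(c)`, `c ∈ S` (of dimension `m`). -/
def imgSet (A : Fin m → Fin n → MvPolynomial σ ℂ) (S : Set (σ → ℂ)) : Set (Gr m n) :=
  {V | ∃ c ∈ S, Submodule.span ℂ (Set.range (evalM A c)) = V.1}

theorem eval_plu_zero {d : ℕ} {P : MvPolynomial (Fin m ↪o Fin n) ℂ} (hP : P.IsHomogeneous d)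
    (hd : 1 ≤ d) {A : Fin m → Fin n → ℂ} (hA : ¬ LinearIndependent ℂ A) :
    eval (plu A) P = 0 := by
  have h := eval_smul_of_hom hP 0 (plu A)
  rw [zero_pow (by omega), zero_mul] at h
  rw [plu_eq_zero hA, ← h]
  congr 2
  funext K
  simp

theorem imgSet_subset_zeros_iff (A : Fin m → Fin n → MvPolynomial σ ℂ) (S : Set (σ → ℂ)) {d : ℕ}
    {P : MvPolynomial (Fin m ↪o Fin n) ℂ} (hP : P.IsHomogeneous d) (hd : 1 ≤ d) :
    imgSet A S ⊆ zeros P ↔ ∀ c ∈ S, eval c (pull A P) = 0 := by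
  constructor
  · intro h c hc
    rw [eval_pull]
    by_cases hli : LinearIndependent ℂ (evalM A c)
    · exact h (show ofBasis _ hli ∈ imgSet A S from ⟨c, hc, rfl⟩) _ rfl
    · exact eval_plu_zero hP hd hli
  · rintro h V ⟨c, hc, hV⟩
    rw [mem_zeros_iff hP hV, ← eval_pull]
    exact h c hc

/-- images of irreducible sets of parameters are irreducible -/
theorem isIrreducible_imgSet [Finite σ] (A : Fin m → Fin n → MvPolynomial σ ℂ)
    (p : Ideal (MvPolynomial σ ℂ)) (hp : p.IsPrime)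
    (hne : (imgSet A (zeroLocus ℂ p)).Nonempty) : IsIrreducible (imgSet A (zeroLocus ℂ p)) := by
  refine isIrreducible_of hne ?_
  intro d e P Q hP hQ hZP hZQ
  obtain ⟨V₀, c₀, hc₀, hV₀⟩ := hne
  obtain ⟨K₀, hK₀⟩ := exists_plu_ne_zero (linearIndependent_of_span V₀ _ hV₀)
  obtain ⟨V₁, ⟨c₁, hc₁, hV₁⟩, h1⟩ := Set.not_subset.1 hZP
  obtain ⟨V₂, ⟨c₂, hc₂, hV₂⟩, h2⟩ := Set.not_subset.1 hZQ
  rw [mem_zeros_iff hP hV₁, ← eval_pull] at h1
  rw [mem_zeros_iff hQ hV₂, ← eval_pull] at h2
  have h0 : eval c₀ (pull A (X K₀)) ≠ 0 := by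
    rw [eval_pull, eval_X]; exact hK₀
  have hmem : ∀ (f : MvPolynomial σ ℂ) (c : σ → ℂ), c ∈ zeroLocus ℂ p → eval c f ≠ 0 → f ∉ p := by
    intro f c hc hf hfp
    exact hf (by simpa [aeval_eq_eval] using hc f hfp)
  have h3 : pull A P * pull A Q * pull A (X K₀) ∉ p := by
    intro h
    rcases hp.mem_or_mem h with h | h
    · rcases hp.mem_or_mem h with h | h
      · exact hmem _ c₁ hc₁ h1 h
      · exact hmem _ c₂ hc₂ h2 h
    · exact hmem _ c₀ hc₀ h0 h
  have h4 : pull A P * pull A Q * pull A (X K₀) ∉ vanishingIdeal ℂ (zeroLocus ℂ p) := by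
    rwa [IsPrime.vanishingIdeal_zeroLocus (K := ℂ) p (h := hp)]
  rw [mem_vanishingIdeal_iff] at h4
  push Not at h4
  obtain ⟨c, hc, hne⟩ := h4
  rw [aeval_eq_eval] at hne
  simp only [map_mul] at hne
  have hli : LinearIndependent ℂ (evalM A c) := by
    by_contra hcon
    apply right_ne_zero_of_mul hne
    rw [eval_pull, plu_eq_zero hcon, eval_X]; rfl
  refine ⟨ofBasis _ hli, ⟨c, hc, rfl⟩, ?_, ?_⟩
  · rw [mem_zeros_iff hP (A := evalM A c) rfl, ← eval_pull]
    exact left_ne_zero_of_mul (left_ne_zero_of_mul hne)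
  · rw [mem_zeros_iff hQ (A := evalM A c) rfl, ← eval_pull]
    exact right_ne_zero_of_mul (left_ne_zero_of_mul hne)

theorem isIrreducible_imgSet_univ [Finite σ] (A : Fin m → Fin n → MvPolynomial σ ℂ)
    (hne : (imgSet A Set.univ).Nonempty) : IsIrreducible (imgSet A Set.univ) := by
  have h : zeroLocus ℂ (⊥ : Ideal (MvPolynomial σ ℂ)) = Set.univ := zeroLocus_bot
  rw [← h] at hne ⊢
  exact isIrreducible_imgSet A ⊥ Ideal.isPrime_bot hne

/-- degree of the pull back in one variable which occurs in one row only -/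
theorem degreeOf_pull_le (A : Fin m → Fin n → MvPolynomial σ ℂ) (v : σ) (i₀ : Fin m)
    (h1 : ∀ j, degreeOf v (A i₀ j) ≤ 1) (h0 : ∀ i j, i ≠ i₀ → degreeOf v (A i j) = 0) {d : ℕ}
    {P : MvPolynomial (Fin m ↪o Fin n) ℂ} (hP : P.IsHomogeneous d) :
    degreeOf v (pull A P) ≤ d := by
  classical
  have hdet : ∀ K : Fin m ↪o Fin n,
      degreeOf v (Matrix.det (Matrix.of fun i j => A i (K j))) ≤ 1 := by
    intro K
    rw [Matrix.det_apply]
    refine (degreeOf_sum_le _ _ _).trans (Finset.sup_le fun s _ => ?_)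
    have h2 : degreeOf v (∏ i, (Matrix.of fun i j => A i (K j)) (s i) i) ≤ 1 := by
      refine (degreeOf_prod_le _ _ _).trans ?_
      rw [Finset.sum_eq_single (s.symm i₀)]
      · simpa using h1 (K (s.symm i₀))
      · intro j _ hj
        exact h0 _ _ (fun h => hj (by rw [← h]; simp))
      · intro h; exact absurd (Finset.mem_univ _) h
    rcases Int.units_eq_one_or (Equiv.Perm.sign s) with h | h
    · rw [h, one_smul]; exact h2
    · rw [h, Units.neg_smul, one_smul, degreeOf_neg]; exact h2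
  unfold pull
  rw [aeval_def, eval₂_eq]
  refine (degreeOf_sum_le _ _ _).trans (Finset.sup_le fun s hs => ?_)
  refine (degreeOf_mul_le _ _ _).trans ?_
  rw [algebraMap_eq, degreeOf_C, zero_add]
  refine (degreeOf_prod_le _ _ _).trans ?_
  rw [hP.degree_eq_sum_deg_support hs]
  refine Finset.sum_le_sum fun K _ => ?_
  refine (degreeOf_pow_le _ _ _).trans ?_
  calc s K * _ ≤ s K * 1 := Nat.mul_le_mul_left _ (hdet K)
    _ = s K := mul_one _

end Pool.Agent.GrCyc
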