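import Pool.Agent.GrCyc.Krull
import Pool.Agent.GrCyc.Flags
import Pool.Agent.GrCyc.Param

/-! Schubert varieties are irreducible of Krull dimension `dimIdx J`. -/

namespace Pool.Agent.GrCyc

open MvPolynomial Module

variable {m n : ℕ}

/-- if `dim (V ∩ F_t) ≥ t + 1` for all `t` then `V` has a basis `A_t ∈ F_t` -/
theorem exists_adapted_basis (V : Gr m n) (F : Fin m → Submodule ℂ (Fin n → ℂ))
    (hF : ∀ t : Fin m, (t : ℕ) + 1 ≤ finrank ℂ ↥(V.1 ⊓ F t)) :
    ∃ A : Fin m → Fin n → ℂ, LinearIndependent ℂ A ∧ Submodule.span ℂ (Set.range A) = V.1 ∧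
      ∀ t, A t ∈ F t := by
  have key : ∀ k : ℕ, ∀ hk : k ≤ m, ∃ A : Fin k → (Fin n → ℂ), LinearIndependent ℂ A ∧
      ∀ t : Fin k, A t ∈ V.1 ⊓ F (Fin.castLE hk t) := by
    intro k
    induction k with
    | zero => exact fun _ => ⟨Fin.elim0, linearIndependent_empty_type, fun t => t.elim0⟩
    | succ k ih =>
      intro hk
      obtain ⟨A, hA, hAF⟩ := ih (by omega)
      have h1 : finrank ℂ (Submodule.span ℂ (Set.range A)) = k := by
        rw [finrank_span_eq_card hA, Fintype.card_fin]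
      have h2 : ¬ (V.1 ⊓ F ⟨k, hk⟩ ≤ Submodule.span ℂ (Set.range A)) := by
        intro h
        have h3 := Submodule.finrank_mono h
        have h4 : k + 1 ≤ finrank ℂ ↥(V.1 ⊓ F ⟨k, hk⟩) := hF ⟨k, hk⟩
        omega
      obtain ⟨v, hv, hv'⟩ := Set.not_subset.1 h2
      refine ⟨Fin.snoc (α := fun _ => Fin n → ℂ) A v,
        linearIndependent_finSnoc.2 ⟨hA, hv'⟩, fun t => ?_⟩
      refine Fin.lastCases ?_ (fun t => ?_) t
      · rw [Fin.snoc_last]; exact hv
      · rw [Fin.snoc_castSucc]; exact hAF t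
  obtain ⟨A, hA, hAF⟩ := key m le_rfl
  refine ⟨A, hA, ?_, fun t => (hAF t).2⟩
  apply Submodule.eq_of_le_of_finrank_eq
  · rw [Submodule.span_le]
    rintro _ ⟨t, rfl⟩
    exact (hAF t).1
  · rw [finrank_span_eq_card hA, Fintype.card_fin, V.2]

/-- generic matrix: row `t` is `h` applied to a general vector of `⟨e_0, ..., e_(j_t)⟩` -/
noncomputable def bigMat (J : Fin m ↪o Fin n) (h : Matrix (Fin n) (Fin n) ℂ) :
    Fin m → Fin n → MvPolynomial (Fin m × Fin n) ℂ :=
  fun t r => ∑ l : Fin n, if l ≤ J t then C (h r l) * X (t, l) else 0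

/-- the vectors of `⟨e_0, ..., e_(j_t)⟩` with given coefficients -/
def lowVec (J : Fin m ↪o Fin n) (c : Fin m × Fin n → ℂ) (t : Fin m) : Fin n → ℂ :=
  fun l => if l ≤ J t then c (t, l) else 0

theorem evalM_bigMat (J : Fin m ↪o Fin n) (h : Matrix (Fin n) (Fin n) ℂ)
    (c : Fin m × Fin n → ℂ) (t : Fin m) :
    evalM (bigMat J h) c t = h.mulVec (lowVec J c t) := by
  funext r
  unfold evalM bigMat
  rw [map_sum]
  unfold Matrix.mulVec dotProduct lowVec
  refine Finset.sum_congr rfl fun l _ => ?_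
  split_ifs
  · rw [map_mul, eval_C, eval_X]
  · rw [map_zero, mul_zero]

theorem lowVec_mem (J : Fin m ↪o Fin n) (c : Fin m × Fin n → ℂ) (t : Fin m) :
    lowVec J c t ∈ low n ((J t : ℕ) + 1) := by
  intro i hi
  unfold lowVec
  rw [if_neg]
  intro h
  have : (i : ℕ) ≤ J t := h
  omega

theorem low_mono {i j : ℕ} (h : i ≤ j) : low n i ≤ low n j := fun _ hv l hl => hv l (h.trans hl)

theorem schubert_eq_imgSet (J : Fin m ↪o Fin n) (h : GL (Fin n) ℂ) :
    schubert J h.1 = imgSet (bigMat J h.1) Set.univ := by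
  ext V
  constructor
  · intro hV
    obtain ⟨A, -, hAV, hAF⟩ := exists_adapted_basis V
      (fun t => (low n ((J t : ℕ) + 1)).map (Matrix.toLin' h.1)) hV
    choose w hw hwA using hAF
    refine ⟨fun p => w p.1 p.2, trivial, ?_⟩
    have : evalM (bigMat J h.1) (fun p => w p.1 p.2) = A := by
      funext t
      rw [evalM_bigMat, ← hwA t, Matrix.toLin'_apply]
      congr 1
      funext l
      unfold lowVec
      split_ifs with h1
      · rfl
      · refine (hw t l ?_).symm
        have : (J t : ℕ) < l := not_le.1 h1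
        omega
    rw [this]
    exact hAV
  · rintro ⟨c, -, hc⟩ t
    have hli := linearIndependent_of_span V _ hc
    have ht : (t : ℕ) + 1 ≤ m := t.2
    have h1 : LinearIndependent ℂ (fun s : Fin ((t : ℕ) + 1) =>
        evalM (bigMat J h.1) c (Fin.castLE ht s)) :=
      hli.comp _ (Fin.castLE_injective ht)
    have h2 := finrank_span_eq_card h1
    rw [Fintype.card_fin] at h2
    rw [← h2]
    apply Submodule.finrank_mono
    rw [Submodule.span_le]
    rintro _ ⟨s, rfl⟩
    refine ⟨?_, ?_⟩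
    · rw [← hc]
      exact Submodule.subset_span ⟨_, rfl⟩
    · refine ⟨lowVec J c (Fin.castLE ht s), ?_, ?_⟩
      · refine low_mono ?_ (lowVec_mem J c _)
        have : Fin.castLE ht s ≤ t := by
          have := s.2
          exact Fin.le_def.2 (by simp; omega)
        have := Fin.le_def.1 (J.monotone this)
        omega
      · show _ = evalM (bigMat J h.1) c (Fin.castLE ht s)
        rw [evalM_bigMat, Matrix.toLin'_apply]

theorem isIrreducible_schubert (J : Fin m ↪o Fin n) (h : GL (Fin n) ℂ) :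
    IsIrreducible (schubert J h.1) := by
  obtain ⟨V, hV, -⟩ := exists_mem_schubert J h
  rw [schubert_eq_imgSet] at hV ⊢
  exact isIrreducible_imgSet_univ _ ⟨V, hV⟩

/-- the free coordinates of the Schubert cell -/
abbrev Cell (J : Fin m ↪o Fin n) : Type := {p : Fin m × Fin n // p.2 < J p.1 ∧ ∀ s, J s ≠ p.2}

/-- reduced echelon matrix: row `t` is `h (e_(j_t) + ∑ x_(t,l) e_l)` -/
noncomputable def cellMat (J : Fin m ↪o Fin n) (h : Matrix (Fin n) (Fin n) ℂ) :
    Fin m → Fin n → MvPolynomial (Cell J) ℂ :=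
  fun t r => C (h r (J t)) +
    ∑ p : Cell J, if p.1.1 = t then C (h r p.1.2) * X p else 0

theorem card_cell (J : Fin m ↪o Fin n) : Fintype.card (Cell J) = dimIdx J := by
  classical
  rw [Fintype.card_subtype]
  unfold dimIdx
  rw [Finset.card_eq_sum_card_fiberwise (f := Prod.fst) (t := Finset.univ)
    (fun _ _ => Finset.mem_coe.2 (Finset.mem_univ _))]
  refine Finset.sum_congr rfl fun t _ => ?_
  have h1 : ((Finset.univ.filter fun p : Fin m × Fin n => p.2 < J p.1 ∧ ∀ s, J s ≠ p.2).filter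
      fun p => p.1 = t).card = ((Finset.Iio (J t)) \ (Finset.Iio t).image J).card := by
    refine Finset.card_bij (fun p _ => p.2) ?_ ?_ ?_
    · rintro ⟨t', l⟩ hp
      simp only [Finset.mem_filter, Finset.mem_univ, true_and] at hp
      obtain ⟨⟨h1, h2⟩, rfl⟩ := hp
      simp only [Finset.mem_sdiff, Finset.mem_Iio, Finset.mem_image, not_exists, not_and]
      exact ⟨h1, fun s _ => h2 s⟩
    · rintro ⟨t', l⟩ hp ⟨t'', l'⟩ hp' h
      simp only [Finset.mem_filter, Finset.mem_univ, true_and] at hp hp'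
      rw [hp.2, hp'.2]
      exact Prod.ext rfl h
    · intro l hl
      simp only [Finset.mem_sdiff, Finset.mem_Iio, Finset.mem_image, not_exists, not_and] at hl
      refine ⟨(t, l), ?_, rfl⟩
      simp only [Finset.mem_filter, Finset.mem_univ, true_and]
      refine ⟨⟨hl.1, fun s hs => ?_⟩, trivial⟩
      refine hl.2 s ?_ hs
      rw [← hs] at hl
      exact J.lt_iff_lt.1 hl.1
  rw [h1, Finset.card_sdiff_of_subset, Finset.card_image_of_injective _ J.injective,
    Fin.card_Iio, Fin.card_Iio]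
  intro l hl
  obtain ⟨s, hs, rfl⟩ := Finset.mem_image.1 hl
  exact Finset.mem_Iio.2 (J.lt_iff_lt.2 (Finset.mem_Iio.1 hs))

/-- the rows of the reduced echelon matrix before the application of `h` -/
def cellVec (J : Fin m ↪o Fin n) (x : Cell J → ℂ) (t : Fin m) : Fin n → ℂ := fun l =>
  if hl : l < J t ∧ ∀ s, J s ≠ l then x ⟨(t, l), hl⟩ else if l = J t then 1 else 0

theorem evalM_cellMat (J : Fin m ↪o Fin n) (h : Matrix (Fin n) (Fin n) ℂ) (x : Cell J → ℂ)
    (t : Fin m) : evalM (cellMat J h) x t = h.mulVec (cellVec J x t) := by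
  classical
  funext r
  unfold evalM cellMat
  rw [map_add, eval_C, map_sum]
  have h1 : ∀ p : Cell J, eval x (if p.1.1 = t then C (h r p.1.2) * X p else 0) =
      if p.1.1 = t then h r p.1.2 * x p else 0 := by
    intro p
    split_ifs
    · rw [map_mul, eval_C, eval_X]
    · rw [map_zero]
  rw [Finset.sum_congr rfl fun p _ => h1 p]
  have h2 : ∑ p : Cell J, (if p.1.1 = t then h r p.1.2 * x p else 0) =
      ∑ l : Fin n, if hl : l < J t ∧ ∀ s, J s ≠ l then h r l * x ⟨(t, l), hl⟩ else 0 := by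
    rw [← Finset.sum_filter]
    have e1 : ∀ l : Fin n, (if hl : l < J t ∧ ∀ s, J s ≠ l then h r l * x ⟨(t, l), hl⟩ else 0) =
        if l < J t ∧ ∀ s, J s ≠ l then (if hl : l < J t ∧ ∀ s, J s ≠ l then
          h r l * x ⟨(t, l), hl⟩ else 0) else 0 := by
      intro l
      split_ifs <;> rfl
    rw [Finset.sum_congr rfl fun l _ => e1 l, ← Finset.sum_filter]
    refine Finset.sum_bij (fun p _ => p.1.2) ?_ ?_ ?_ ?_
    · rintro ⟨⟨t', l⟩, hp⟩ hp'
      simp only [Finset.mem_filter, Finset.mem_univ, true_and] at hp' ⊢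
      subst hp'
      exact hp
    · rintro ⟨⟨t', l⟩, hp⟩ hp' ⟨⟨t'', l'⟩, hq⟩ hq' h
      simp only [Finset.mem_filter, Finset.mem_univ, true_and] at hp' hq'
      subst hp'
      subst hq'
      have : l = l' := h
      subst this
      rfl
    · intro l hl
      simp only [Finset.mem_filter, Finset.mem_univ, true_and] at hl
      exact ⟨⟨(t, l), hl⟩, by simp, rfl⟩
    · rintro ⟨⟨t', l⟩, hp⟩ hp'
      simp only [Finset.mem_filter, Finset.mem_univ, true_and] at hp'
      subst hp'
      rw [dif_pos hp]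
  rw [h2]
  unfold Matrix.mulVec dotProduct cellVec
  have h3 : ∀ l : Fin n, h r l * (if hl : l < J t ∧ ∀ s, J s ≠ l then x ⟨(t, l), hl⟩ else
      if l = J t then 1 else 0) = (if l = J t then h r l else 0) +
      (if hl : l < J t ∧ ∀ s, J s ≠ l then h r l * x ⟨(t, l), hl⟩ else 0) := by
    intro l
    by_cases hl : l < J t ∧ ∀ s, J s ≠ l
    · rw [dif_pos hl, dif_pos hl, if_neg, zero_add]
      exact hl.1.ne
    · rw [dif_neg hl, dif_neg hl, add_zero]
      split_ifs <;> simp
  rw [Finset.sum_congr rfl fun l _ => h3 l, Finset.sum_add_distrib, Finset.sum_ite_eq']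
  simp

/-- reduction to the echelon form -/
theorem exists_cell (J : Fin m ↪o Fin n) (c : Fin m × Fin n → ℂ) (hc : ∀ t, c (t, J t) ≠ 0) :
    ∃ (M : Matrix (Fin m) (Fin m) ℂ) (x : Cell J → ℂ), ∀ t,
      lowVec J c t = ∑ s, M t s • cellVec J x s := by
  classical
  let M : Matrix (Fin m) (Fin m) ℂ := Matrix.of fun t s => lowVec J c t (J s)
  have hM : M.BlockTriangular OrderDual.toDual := by
    intro i j hij
    have hij' : i < j := OrderDual.toDual_lt_toDual.1 hij
    show lowVec J c i (J j) = 0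
    unfold lowVec
    rw [if_neg]
    exact not_le.2 (J.lt_iff_lt.2 hij')
  have hdet : M.det ≠ 0 := by
    rw [Matrix.det_of_isLowerTriangular M hM, Finset.prod_ne_zero_iff]
    intro t _
    show lowVec J c t (J t) ≠ 0
    unfold lowVec
    rw [if_pos le_rfl]
    exact hc t
  have hu : IsUnit M.det := isUnit_iff_ne_zero.2 hdet
  let _ : Invertible M := Matrix.invertibleOfIsUnitDet M hu
  have hMi := Matrix.blockTriangular_inv_of_blockTriangular hM
  let w : Fin m → Fin n → ℂ := fun t => ∑ s, M⁻¹ t s • lowVec J c s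
  refine ⟨M, fun p => w p.1.1 p.1.2, fun t => ?_⟩
  have hw : ∀ t, cellVec J (fun p : Cell J => w p.1.1 p.1.2) t = w t := by
    intro t
    funext l
    unfold cellVec
    by_cases hl : l < J t ∧ ∀ s, J s ≠ l
    · rw [dif_pos hl]
    · rw [dif_neg hl]
      by_cases h1 : ∃ s, J s = l
      · obtain ⟨s, rfl⟩ := h1
        have h2 : w t (J s) = (M⁻¹ * M) t s := by
          show (∑ r, M⁻¹ t r • lowVec J c r) (J s) = _
          rw [Finset.sum_apply, Matrix.mul_apply]
          rfl
        rw [h2, Matrix.nonsing_inv_mul _ hu, Matrix.one_apply]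
        by_cases h3 : s = t
        · rw [if_pos (by rw [h3]), if_pos h3.symm]
        · rw [if_neg (fun h => h3 (J.injective h)), if_neg (fun h => h3 h.symm)]
      · push Not at h1
        have h2 : ¬ l < J t := fun h => hl ⟨h, h1⟩
        have h3 : J t < l := lt_of_le_of_ne (not_lt.1 h2) (h1 t)
        rw [if_neg h3.ne']
        symm
        show (∑ r, M⁻¹ t r • lowVec J c r) l = 0
        rw [Finset.sum_apply]
        refine Finset.sum_eq_zero fun r _ => ?_
        show M⁻¹ t r * lowVec J c r l = 0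
        rcases lt_or_ge t r with h4 | h4
        · rw [hMi (OrderDual.toDual_lt_toDual.2 h4), zero_mul]
        · unfold lowVec
          rw [if_neg, mul_zero]
          exact not_le.2 (lt_of_le_of_lt (J.monotone h4) h3)
  rw [Finset.sum_congr rfl fun s _ => by rw [hw s]]
  show _ = ∑ s, M t s • ∑ r, M⁻¹ s r • lowVec J c r
  simp_rw [Finset.smul_sum, smul_smul]
  rw [Finset.sum_comm]
  simp_rw [← Finset.sum_smul]
  have h4 : ∀ r, ∑ s, M t s * M⁻¹ s r = (1 : Matrix (Fin m) (Fin m) ℂ) t r := by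
    intro r
    rw [← Matrix.mul_nonsing_inv _ hu, Matrix.mul_apply]
  simp_rw [h4, Matrix.one_apply]
  simp

/-- the cell is dense in the Schubert variety -/
theorem schubert_subset_zeros_of_cell (J : Fin m ↪o Fin n) (h : GL (Fin n) ℂ) {d : ℕ}
    {P : MvPolynomial (Fin m ↪o Fin n) ℂ} (hP : P.IsHomogeneous d)
    (hc : pull (cellMat J h.1) P = 0) : schubert J h.1 ⊆ zeros P := by
  have h1 : pull (bigMat J h.1) P * ∏ t, X (t, J t) = 0 := by
    refine MvPolynomial.funext fun c => ?_
    rw [map_zero, map_mul, map_prod]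
    simp_rw [eval_X]
    by_cases h2 : ∀ t, c (t, J t) ≠ 0
    · obtain ⟨M, x, hx⟩ := exists_cell J c h2
      have h3 : evalM (bigMat J h.1) c = fun t => ∑ s, M t s • evalM (cellMat J h.1) x s := by
        funext t
        rw [evalM_bigMat, hx t, ← Matrix.toLin'_apply, map_sum]
        refine Finset.sum_congr rfl fun s _ => ?_
        rw [map_smul, evalM_cellMat, Matrix.toLin'_apply]
      rw [eval_pull, h3, eval_plu_mul hP, ← eval_pull, hc, map_zero, mul_zero, zero_mul]
    · push Not at h2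
      obtain ⟨t, ht⟩ := h2
      rw [Finset.prod_eq_zero (Finset.mem_univ t) ht, mul_zero]
  have h2 : pull (bigMat J h.1) P = 0 := by
    rcases mul_eq_zero.1 h1 with h2 | h2
    · exact h2
    · exfalso
      obtain ⟨t, -, ht⟩ := Finset.prod_eq_zero_iff.1 h2
      exact X_ne_zero _ ht
  rw [schubert_eq_imgSet]
  rintro V ⟨c, -, hV⟩
  rw [mem_zeros_iff hP hV, ← eval_pull, h2, map_zero]

/-- each coordinate of the cell occurs in one row only -/
theorem degreeOf_cellMat (J : Fin m ↪o Fin n) (h : Matrix (Fin n) (Fin n) ℂ) (v : Cell J)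
    (t : Fin m) (r : Fin n) : degreeOf v (cellMat J h t r) ≤ 1 ∧
      (t ≠ v.1.1 → degreeOf v (cellMat J h t r) = 0) := by
  classical
  have h1 : degreeOf v (cellMat J h t r) ≤ if v.1.1 = t then 1 else 0 := by
    unfold cellMat
    refine (degreeOf_add_le _ _ _).trans (max_le (by rw [degreeOf_C]; exact Nat.zero_le _) ?_)
    refine (degreeOf_sum_le _ _ _).trans (Finset.sup_le fun p _ => ?_)
    split_ifs with h1 h2 h2
    · refine (degreeOf_mul_le _ _ _).trans ?_
      rw [degreeOf_C, degreeOf_X]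
      split_ifs <;> simp
    · refine (degreeOf_mul_le _ _ _).trans ?_
      rw [degreeOf_C, degreeOf_X, if_neg]
      rintro rfl
      exact h2 h1
    · rw [degreeOf_zero]; exact Nat.zero_le _
    · rw [degreeOf_zero]
  constructor
  · refine h1.trans ?_
    split_ifs <;> simp
  · intro h2
    rw [if_neg (fun h => h2 h.symm)] at h1
    exact Nat.le_zero.1 h1

theorem growth_schubert (J : Fin m ↪o Fin n) (h : GL (Fin n) ℂ) :
    Growth (schubert J h.1) (dimIdx J) := by
  classical
  refine growth_of_linearMap 1 (fun t => (Cell J → Fin (t + 1)) → ℂ) (fun t =>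
    { toFun := fun P e => coeff (Finsupp.equivFunOnFinite.symm fun i => (e i : ℕ))
        (pull (cellMat J h.1) P.1)
      map_add' := fun P Q => by
        funext e
        show coeff _ (pull _ (P.1 + Q.1)) = coeff _ _ + coeff _ _
        rw [← coeff_add]
        unfold pull
        rw [map_add]
      map_smul' := fun c P => by
        funext e
        show coeff _ (pull _ (c • P.1)) = c • coeff _ _
        unfold pull
        rw [map_smul, coeff_smul] }) ?_ ?_
  · intro t P hP
    refine schubert_subset_zeros_of_cell J h (P := P.1) P.2 ?_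
    ext e
    rw [coeff_zero]
    by_cases he : ∀ v, e v ≤ t
    · have h1 := congrFun hP (fun v => (⟨e v, Nat.lt_succ_of_le (he v)⟩ : Fin (t + 1)))
      have h2 : (Finsupp.equivFunOnFinite.symm fun v =>
          (((⟨e v, Nat.lt_succ_of_le (he v)⟩ : Fin (t + 1)) : ℕ))) = e := by
        ext v; rfl
      rw [← h2]
      exact h1
    · push Not at he
      obtain ⟨v, hv⟩ := he
      by_contra hne
      have h3 := degreeOf_pull_le (cellMat J h.1) v v.1.1
        (fun r => (degreeOf_cellMat J h.1 v _ r).1)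
        (fun i r hi => (degreeOf_cellMat J h.1 v i r).2 hi) (P := P.1) P.2
      have h4 : e v ≤ degreeOf v (pull (cellMat J h.1) P.1) :=
        monomial_le_degreeOf v (mem_support_iff.2 hne)
      omega
  · intro t
    rw [Module.finrank_fintype_fun_eq_card, Fintype.card_fun, Fintype.card_fin, card_cell, one_mul]

theorem schubert_subset {I J : Fin m ↪o Fin n} (hIJ : ∀ t, I t ≤ J t)
    (h : Matrix (Fin n) (Fin n) ℂ) : schubert I h ⊆ schubert J h := by
  intro V hV t
  refine (hV t).trans (Submodule.finrank_mono (inf_le_inf_left _ (Submodule.map_mono ?_)))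
  exact low_mono (Nat.succ_le_succ (Fin.le_def.1 (hIJ t)))

/-- if the dimension is positive, one entry can be lowered by one -/
theorem exists_lower (J : Fin m ↪o Fin n) (hJ : 0 < dimIdx J) : ∃ (I : Fin m ↪o Fin n)
    (t₀ : Fin m), I t₀ < J t₀ ∧ (∀ t, I t ≤ J t) ∧ dimIdx I + 1 = dimIdx J := by
  classical
  have hge : ∀ t : Fin m, (t : ℕ) ≤ J t := by
    intro t
    obtain ⟨t, ht⟩ := t
    induction t with
    | zero => exact Nat.zero_le _
    | succ t ih =>
      have h1 := ih (by omega)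
      have h2 : J ⟨t, by omega⟩ < J ⟨t + 1, ht⟩ := J.lt_iff_lt.2 (Fin.mk_lt_mk.2 (Nat.lt_succ_self _))
      have h3 := Fin.lt_def.1 h2
      simp only at h1 ⊢
      omega
  have hex : ∃ t : ℕ, ∃ ht : t < m, t < (J ⟨t, ht⟩ : ℕ) := by
    by_contra hcon
    push Not at hcon
    have : dimIdx J = 0 := by
      unfold dimIdx
      refine Finset.sum_eq_zero fun t _ => ?_
      have := hcon t.1 t.2
      simp only [Fin.eta] at this
      omega
    omega
  obtain ⟨t₀, ⟨ht, hlt⟩, hmin⟩ : ∃ t₀ : ℕ, (∃ ht : t₀ < m, t₀ < (J ⟨t₀, ht⟩ : ℕ)) ∧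
      ∀ s < t₀, ¬ ∃ hs : s < m, s < (J ⟨s, hs⟩ : ℕ) :=
    ⟨Nat.find hex, Nat.find_spec hex, fun s hs => Nat.find_min hex hs⟩
  have hJt : (J ⟨t₀, ht⟩ : ℕ) < n := (J ⟨t₀, ht⟩).2
  let f : Fin m → Fin n := fun t => if t = ⟨t₀, ht⟩ then ⟨(J ⟨t₀, ht⟩ : ℕ) - 1, by omega⟩ else J t
  have hf0 : (f ⟨t₀, ht⟩ : ℕ) = (J ⟨t₀, ht⟩ : ℕ) - 1 := by
    show ((if (⟨t₀, ht⟩ : Fin m) = ⟨t₀, ht⟩ then _ else _ : Fin n) : ℕ) = _
    rw [if_pos rfl]
  have hf1 : ∀ t, t ≠ ⟨t₀, ht⟩ → f t = J t := fun t h => if_neg h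
  have hfJ : ∀ t, f t ≤ J t := by
    intro t
    by_cases h : t = ⟨t₀, ht⟩
    · subst h
      rw [Fin.le_def, hf0]
      omega
    · rw [hf1 t h]
  have hmono : StrictMono f := by
    intro a b hab
    by_cases hb : b = ⟨t₀, ht⟩
    · subst hb
      rw [hf1 a hab.ne, Fin.lt_def, hf0]
      have h1 : (a : ℕ) < t₀ := Fin.lt_def.1 hab
      have h2 := hmin a h1
      push Not at h2
      have h3 := h2 a.2
      simp only [Fin.eta] at h3
      omega
    · rw [hf1 b hb]
      exact lt_of_le_of_lt (hfJ a) (J.lt_iff_lt.2 hab)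
  refine ⟨OrderEmbedding.ofStrictMono f hmono, ⟨t₀, ht⟩, ?_, fun t => hfJ t, ?_⟩
  · show f ⟨t₀, ht⟩ < J ⟨t₀, ht⟩
    rw [Fin.lt_def, hf0]
    omega
  · unfold dimIdx
    show ∑ t : Fin m, ((f t : ℕ) - (t : ℕ)) + 1 = _
    rw [← Finset.add_sum_erase _ _ (Finset.mem_univ (⟨t₀, ht⟩ : Fin m)),
      ← Finset.add_sum_erase _ _ (Finset.mem_univ (⟨t₀, ht⟩ : Fin m)), hf0]
    have h1 : ∑ t ∈ Finset.univ.erase (⟨t₀, ht⟩ : Fin m), ((f t : ℕ) - (t : ℕ)) =
        ∑ t ∈ Finset.univ.erase (⟨t₀, ht⟩ : Fin m), ((J t : ℕ) - (t : ℕ)) := by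
      refine Finset.sum_congr rfl fun t h => ?_
      rw [hf1 t (Finset.ne_of_mem_erase h)]
    rw [h1]
    simp only
    omega

theorem krullDim_schubert (J : Fin m ↪o Fin n) (h : GL (Fin n) ℂ) :
    topologicalKrullDim ↥(schubert J h.1) = dimIdx J := by
  refine le_antisymm (krullDim_le_of_growth (isClosed_schubert J h.1)
    (isIrreducible_schubert J h) (growth_schubert J h)) ?_
  obtain ⟨k, hk⟩ : ∃ k, k = dimIdx J := ⟨_, rfl⟩
  rw [← hk]
  induction k generalizing J with
  | zero =>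
    have : Nonempty ↥(schubert J h.1) := (isIrreducible_schubert J h).nonempty.to_subtype
    have h1 : (0 : WithBot ℕ∞) ≤ topologicalKrullDim ↥(schubert J h.1) := by
      have hne : Nonempty (TopologicalSpace.IrreducibleCloseds ↥(schubert J h.1)) := by
        obtain ⟨x⟩ := this
        exact ⟨⟨closure {x}, isIrreducible_singleton.closure, isClosed_closure⟩⟩
      exact Order.krullDim_nonneg
    exact h1
  | succ k ih =>
    obtain ⟨I, t₀, ht₀, hIJ, hd⟩ := exists_lower J (by omega)
    have h1 := ih I (by omega)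
    have h2 : schubert I h.1 ⊂ schubert J h.1 := by
      refine ⟨schubert_subset hIJ h.1, fun hsub => ?_⟩
      obtain ⟨V, hV, hV'⟩ := exists_mem_schubert J h
      exact absurd (hV' I (hsub hV) t₀) (not_le.2 ht₀)
    have h3 := krullDim_add_one_le (isClosed_schubert I h.1) (isIrreducible_schubert I h)
      (isClosed_schubert J h.1) (isIrreducible_schubert J h) h2
    refine le_trans ?_ h3
    rw [Nat.cast_succ]
    gcongr

theorem isSubvariety_schubert (J : Fin m ↪o Fin n) (h : GL (Fin n) ℂ) {X : Set (Gr m n)}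
    (hX : schubert J h.1 ⊆ X) : IsSubvariety (dimIdx J) X (schubert J h.1) :=
  ⟨hX, isClosed_schubert J h.1, isIrreducible_schubert J h, krullDim_schubert J h⟩

end Pool.Agent.GrCyc
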