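import Pool.Agent.GrCyc.Cover
import Pool.Agent.GrCyc.Schub
import Pool.Agent.GrCyc.GenRoots
import Pool.Agent.Work.MP_b62148_ag.HS

/-! The number of points of a closed subset of a Schubert variety on a general pencil. -/

namespace Pool.Agent.GrCyc

open MvPolynomial Module

variable {m n : ℕ}

theorem ev_aeval {S : Type*} [CommRing S] [Algebra ℂ S] (ev : S →+* ℂ)
    (hev : ∀ r : ℂ, ev (algebraMap ℂ S r) = r) (R : Fin m → Fin n → S)
    (P : MvPolynomial (Fin m ↪o Fin n) ℂ) :
    ev (aeval (fun K : Fin m ↪o Fin n => Matrix.det (Matrix.of fun i j => R i (K j))) P) =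
      eval (plu fun i j => ev (R i j)) P := by
  have h : ev.comp (aeval (R := ℂ) (fun K : Fin m ↪o Fin n =>
      Matrix.det (Matrix.of fun i j => R i (K j)))).toRingHom = eval (plu fun i j => ev (R i j)) := by
    refine MvPolynomial.ringHom_ext (fun r => ?_) (fun K => ?_)
    · show ev (aeval _ (C r)) = _
      rw [aeval_C, hev, eval_C]
    · show ev (aeval _ (X K)) = _
      rw [aeval_X, eval_X, RingHom.map_det]
      rfl
  exact RingHom.congr_fun h P

/-- the generic matrix over `ℂ[g]` -/
noncomputable def genMat (n : ℕ) : Matrix (Fin n) (Fin n) (MvPolynomial (Fin n × Fin n) ℂ) :=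
  Matrix.of fun i j => X (i, j)

/-- the polynomial in `x` with coefficients in `ℂ[g]` that describes the points `(1 : x)` of the
pencil on `Q = 0` -/
noncomputable def finPol (I J : Fin m ↪o Fin n) (t₀ : Fin m) (Q : MvPolynomial (Fin m ↪o Fin n) ℂ) :
    Polynomial (MvPolynomial (Fin n × Fin n) ℂ) :=
  aeval (fun K : Fin m ↪o Fin n => Matrix.det (Matrix.of fun i j =>
    coverRows I J t₀ ((genMat n).map Polynomial.C) 1 Polynomial.X i (K j))) Q

/-- the polynomial in `g` that describes the point `(0 : 1)` of the pencil on `Q = 0` -/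
noncomputable def infPol (I J : Fin m ↪o Fin n) (t₀ : Fin m) (Q : MvPolynomial (Fin m ↪o Fin n) ℂ) :
    MvPolynomial (Fin n × Fin n) ℂ :=
  aeval (fun K : Fin m ↪o Fin n => Matrix.det (Matrix.of fun i j =>
    coverRows I J t₀ (genMat n) 0 1 i (K j))) Q

theorem eval_finPol (I J : Fin m ↪o Fin n) (t₀ : Fin m) (Q : MvPolynomial (Fin m ↪o Fin n) ℂ)
    (g : Matrix (Fin n) (Fin n) ℂ) (x : ℂ) :
    ((finPol I J t₀ Q).map (eval fun p => g p.1 p.2)).eval x =
      eval (plu (coverRows I J t₀ g 1 x)) Q := by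
  rw [Polynomial.eval_map, ← Polynomial.coe_eval₂RingHom]
  unfold finPol
  rw [ev_aeval (ev := Polynomial.eval₂RingHom (eval fun p : Fin n × Fin n => g p.1 p.2) x)]
  · have h1 : (fun i j => (Polynomial.eval₂RingHom (eval fun p : Fin n × Fin n => g p.1 p.2) x)
        (coverRows I J t₀ ((genMat n).map Polynomial.C) 1 Polynomial.X i j)) =
        coverRows I J t₀ g 1 x := by
      funext i j
      rw [map_coverRows]
      have h2 : ((genMat n).map Polynomial.C).map
          (Polynomial.eval₂RingHom (eval fun p : Fin n × Fin n => g p.1 p.2) x) = g := by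
        ext i j
        simp [genMat]
      rw [h2, map_one, Polynomial.coe_eval₂RingHom, Polynomial.eval₂_X]
    rw [h1]
  · intro r
    rw [Polynomial.algebraMap_apply, Polynomial.coe_eval₂RingHom, Polynomial.eval₂_C,
      MvPolynomial.algebraMap_eq, eval_C]

theorem eval_infPol (I J : Fin m ↪o Fin n) (t₀ : Fin m) (Q : MvPolynomial (Fin m ↪o Fin n) ℂ)
    (g : Matrix (Fin n) (Fin n) ℂ) :
    eval (fun p => g p.1 p.2) (infPol I J t₀ Q) = eval (plu (coverRows I J t₀ g 0 1)) Q := by
  unfold infPol
  rw [ev_aeval (ev := eval fun p : Fin n × Fin n => g p.1 p.2)]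
  · have h1 : (fun i j => (eval fun p : Fin n × Fin n => g p.1 p.2)
        (coverRows I J t₀ (genMat n) 0 1 i j)) = coverRows I J t₀ g 0 1 := by
      funext i j
      rw [map_coverRows]
      have h2 : (genMat n).map (eval fun p : Fin n × Fin n => g p.1 p.2) = g := by
        ext i j
        simp [genMat]
      rw [h2, map_one, map_zero]
    rw [h1]
  · intro r
    rw [MvPolynomial.algebraMap_eq, eval_C]

/-- upper triangular matrices with units on the diagonal -/
theorem opp_of_upper (g : GL (Fin n) ℂ) (h0 : ∀ r j : Fin n, j < r → g.1 r j = 0)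
    (h1 : ∀ j, g.1 j j = 1) : Opp 1 g.1 := by
  intro k
  rw [eq_bot_iff]
  rintro x ⟨hx1, hx2⟩
  rw [Submodule.mem_bot]
  obtain ⟨y, hy, rfl⟩ := hx2
  have hx1' : ∀ c : Fin n, k ≤ (c : ℕ) → (Matrix.toLin' g.1) y c = 0 := by
    unfold lowG at hx1
    rw [Matrix.toLin'_one, Submodule.map_id] at hx1
    exact hx1
  have hy0 : y = 0 := by
    by_contra hne
    have hex : ∃ c, y c ≠ 0 := by
      by_contra hcon
      push Not at hcon
      exact hne (funext hcon)
    obtain ⟨c, hc, hmax⟩ := Finset.exists_max_image (Finset.univ.filter fun c => y c ≠ 0) id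
      (by obtain ⟨c, hc⟩ := hex; exact ⟨c, by simpa using hc⟩)
    have hc' : y c ≠ 0 := (Finset.mem_filter.1 hc).2
    have hkc : k ≤ (c : ℕ) := by
      by_contra hlt
      exact hc' (hy c (by omega))
    have h2 := hx1' c hkc
    rw [Matrix.toLin'_apply, Matrix.mulVec, dotProduct, Finset.sum_eq_single c] at h2
    · rw [h1, one_mul] at h2
      exact hc' h2
    · intro j _ hj
      rcases lt_or_gt_of_ne hj with h | h
      · rw [h0 c j h, zero_mul]
      · have : y j = 0 := by
          by_contra hyj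
          have := hmax j (by simpa using hyj)
          exact absurd this (not_le.2 h)
        rw [this, mul_zero]
    · intro h; exact absurd (Finset.mem_univ _) h
  rw [hy0, map_zero]

theorem uvec_of_upper (g : GL (Fin n) ℂ) (h0 : ∀ r j : Fin n, j < r → g.1 r j = 0)
    (h1 : ∀ j, g.1 j j = 1) (j : Fin n) : ∃ l : ℂ, l ≠ 0 ∧ ∀ r, g.1 r j = l * uvec g.1 j r := by
  have hopp := opp_of_upper g h0 h1
  have h2 : (fun r => g.1 r j) ∈ lowG (1 : Matrix (Fin n) (Fin n) ℂ) ((j : ℕ) + 1) ⊓
      highG g.1 (j : ℕ) := by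
    constructor
    · unfold lowG
      rw [Matrix.toLin'_one, Submodule.map_id]
      intro r hr
      exact h0 r j (by show (j : ℕ) < r; omega)
    · refine ⟨Pi.single j 1, ?_, ?_⟩
      · intro r hr
        rw [Pi.single_eq_of_ne]
        rintro rfl
        exact lt_irrefl _ hr
      · rw [Matrix.toLin'_apply, Matrix.mulVec_single_one]
        rfl
  rw [(span_uvec g hopp j).1, Submodule.mem_span_singleton] at h2
  obtain ⟨l, hl⟩ := h2
  refine ⟨l, ?_, fun r => (congrFun hl r).symm⟩
  rintro rfl
  have := congrFun hl j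
  rw [zero_smul, Pi.zero_apply] at this
  rw [h1 j] at this
  exact zero_ne_one this

/-- if `Q` vanishes on all members of all pencils then it vanishes on the Schubert variety -/
theorem schubert_subset_of_finPol {I J : Fin m ↪o Fin n} {t₀ : Fin m} (h : Covers I J t₀) {e : ℕ}
    {Q : MvPolynomial (Fin m ↪o Fin n) ℂ} (hQ : Q.IsHomogeneous e) (h0 : finPol I J t₀ Q = 0) :
    schubert J (1 : Matrix (Fin n) (Fin n) ℂ) ⊆ zeros Q := by
  classical
  refine schubert_subset_zeros_of_cell J (1 : GL (Fin n) ℂ) hQ ?_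
  apply MvPolynomial.funext
  intro c
  rw [eval_pull, map_zero]
  set v := evalM (cellMat J (1 : GL (Fin n) ℂ).1) c with hv
  have hvapp : ∀ τ r, v τ r = (if r = J τ then 1 else 0) +
      ∑ p : Cell J, if p.1.1 = τ then (if r = p.1.2 then 1 else 0) * c p else 0 := by
    intro τ r
    show eval c (cellMat J (1 : Matrix (Fin n) (Fin n) ℂ) τ r) = _
    unfold cellMat
    rw [map_add, eval_C, map_sum, Matrix.one_apply]
    congr 1
    refine Finset.sum_congr rfl fun p _ => ?_
    split_ifs with h1 h2
    · rw [map_mul, eval_C, eval_X, Matrix.one_apply, if_pos h2]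
    · rw [map_mul, eval_C, eval_X, Matrix.one_apply, if_neg h2]
    · rw [map_zero]
  have hv0 : ∀ τ r, J τ < r → v τ r = 0 := by
    intro τ r hr
    rw [hvapp, if_neg hr.ne', zero_add]
    refine Finset.sum_eq_zero fun p _ => ?_
    split_ifs with h1 h2
    · exfalso
      have := p.2.1
      rw [h1, ← h2] at this
      exact absurd this (not_lt.2 hr.le)
    · rw [zero_mul]
    · rfl
  have hv1 : ∀ τ, v τ (J τ) = 1 := by
    intro τ
    rw [hvapp, if_pos rfl, Finset.sum_eq_zero, add_zero]
    intro p _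
    split_ifs with h1 h2
    · exact absurd h2 (p.2.2 τ)
    · rw [zero_mul]
    · rfl
  have hIJ : I t₀ < J t₀ := by
    show (I t₀ : ℕ) < J t₀
    rw [h.2]; omega
  have hIr : ∀ τ, J τ ≠ I t₀ := by
    intro τ hτ
    by_cases h1 : τ = t₀
    · rw [h1] at hτ; exact h.ne hτ.symm
    · rw [← h.1 τ h1] at hτ
      exact h1 (I.injective hτ)
  -- the matrix `g`
  let G : Matrix (Fin n) (Fin n) ℂ := Matrix.of fun r j =>
    if hj : ∃ τ, J τ = j then v hj.choose r - (if hj.choose = t₀ ∧ r = I t₀ then 1 else 0)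
    else if r = j then 1 else 0
  have hGJ : ∀ τ r, G r (J τ) = v τ r - (if τ = t₀ ∧ r = I t₀ then 1 else 0) := by
    intro τ r
    have hex : ∃ τ', J τ' = J τ := ⟨τ, rfl⟩
    have hch : hex.choose = τ := J.injective hex.choose_spec
    show (if hj : ∃ τ', J τ' = J τ then _ else _) = _
    rw [dif_pos hex, hch]
  have hGI : ∀ r, G r (I t₀) = if r = I t₀ then 1 else 0 := by
    intro r
    show (if hj : ∃ τ', J τ' = I t₀ then _ else _) = _
    rw [dif_neg]
    rintro ⟨τ, hτ⟩
    exact hIr τ hτ
  have hG0 : ∀ r j : Fin n, j < r → G r j = 0 := by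
    intro r j hj
    by_cases hex : ∃ τ, J τ = j
    · obtain ⟨τ, rfl⟩ := hex
      rw [hGJ, hv0 τ r hj, if_neg, sub_zero]
      rintro ⟨rfl, rfl⟩
      exact absurd hj (not_lt.2 hIJ.le)
    · show (if hj : ∃ τ', J τ' = j then _ else _) = _
      rw [dif_neg hex, if_neg hj.ne']
  have hG1 : ∀ j : Fin n, G j j = 1 := by
    intro j
    by_cases hex : ∃ τ, J τ = j
    · obtain ⟨τ, rfl⟩ := hex
      rw [hGJ, hv1 τ, if_neg, sub_zero]
      rintro ⟨_, h2⟩
      exact hIr τ h2
    · show (if hj : ∃ τ', J τ' = j then _ else _) = _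
      rw [dif_neg hex, if_pos rfl]
  have hdet : G.det = 1 := by
    rw [Matrix.det_of_isUpperTriangular]
    · exact Finset.prod_eq_one fun j _ => hG1 j
    · intro r j hj
      exact hG0 r j hj
  let g : GL (Fin n) ℂ := Matrix.GeneralLinearGroup.mk'' G (by rw [hdet]; exact isUnit_one)
  have hg : g.1 = G := rfl
  have hlam := uvec_of_upper g (by rw [hg]; exact hG0) (by rw [hg]; exact hG1)
  rw [hg] at hlam
  choose l hl0 hl using hlam
  -- the rows of the cell are multiples of the rows of the pencil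
  let x : ℂ := l (J t₀) / l (I t₀)
  let μ : Fin m → ℂ := fun τ => if τ = t₀ then l (I t₀) else l (I τ)
  have hrow : v = fun i => ∑ j, (Matrix.diagonal μ) i j • coverRows I J t₀ G 1 x j := by
    funext τ r
    rw [Finset.sum_apply, Finset.sum_eq_single τ]
    · rw [Pi.smul_apply, Matrix.diagonal_apply_eq, smul_eq_mul]
      by_cases hτ : τ = t₀
      · subst hτ
        have h3 := hGJ τ r
        have h4 := hGI r
        rw [hl (J τ) r] at h3
        rw [hl (I τ) r] at h4
        have h5 : v τ r = l (J τ) * uvec G (J τ) r + l (I τ) * uvec G (I τ) r := by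
          rw [h3, h4]
          by_cases hr : r = I τ <;> simp [hr]
        rw [h5]
        simp only [μ, coverRows, if_true, x]
        have := hl0 (I τ)
        field_simp
        ring
      · have h3 := hGJ τ r
        rw [if_neg (fun h => hτ h.1), sub_zero, hl (J τ) r] at h3
        rw [← h3]
        simp only [μ, coverRows, if_neg hτ, h.1 τ hτ]
    · intro τ' _ hτ'
      rw [Pi.smul_apply, Matrix.diagonal_apply_ne _ hτ'.symm, zero_smul]
    · intro h; exact absurd (Finset.mem_univ _) h
  rw [hrow, eval_plu_mul hQ, ← eval_finPol, h0]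
  simp

/-- the members of the pencil -/
noncomputable def member {I J : Fin m ↪o Fin n} {t₀ : Fin m} (h : Covers I J t₀)
    (g : GL (Fin n) ℂ) (hg : Opp 1 g.1) (s t : ℂ) (hst : s ≠ 0 ∨ t ≠ 0) : Gr m n :=
  ofBasis (coverRows I J t₀ g.1 s t) (linearIndependent_coverRows h g hg s t hst)

/-- The number of points of a closed proper subset `W` of a Schubert variety `X_J` on the general
translate of the opposite Schubert variety `X^I`, where `J` covers `I`. -/
theorem exists_meetsIn {I J : Fin m ↪o Fin n} {t₀ : Fin m} (h : Covers I J t₀)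
    {W : Set (Gr m n)} (hW : IsClosed W) (hWJ : W ⊆ schubert J (1 : Matrix (Fin n) (Fin n) ℂ))
    (hne : ¬ schubert J (1 : Matrix (Fin n) (Fin n) ℂ) ⊆ W) : ∃ N : ℕ, MeetsIn W I N := by
  classical
  obtain ⟨r, Q, e, hQ, hWQ⟩ := exists_finite_equations hW
  have hex : ∃ i, finPol I J t₀ (Q i) ≠ 0 := by
    by_contra hcon
    push Not at hcon
    apply hne
    rw [hWQ]
    intro V hV
    rw [Set.mem_iInter]
    intro i
    exact schubert_subset_of_finPol h (hQ i) (hcon i) hV
  obtain ⟨N, D, hD, hND⟩ := generic_common_roots (fun i => finPol I J t₀ (Q i)) hex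
  obtain ⟨P₀, hP₀, hopp⟩ := exists_generic (1 : GL (Fin n) ℂ)
  -- the set of points on the pencil
  have key : ∀ (g : GL (Fin n) ℂ) (hg : Opp 1 g.1), W ∩ oppSchubert I g.1 =
      (fun x : ℂ => member h g hg 1 x (Or.inl one_ne_zero)) ''
        {x : ℂ | ∀ i, ((finPol I J t₀ (Q i)).map (eval fun p => g.1 p.1 p.2)).eval x = 0} ∪
      {V | V = member h g hg 0 1 (Or.inr one_ne_zero) ∧
        ∀ i, eval (fun p => g.1 p.1 p.2) (infPol I J t₀ (Q i)) = 0} := by
    intro g hg
    ext V
    simp only [Set.mem_inter_iff, Set.mem_union, Set.mem_image]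
    constructor
    · rintro ⟨hVW, hVI⟩
      obtain ⟨s, t, hst, hV⟩ := exists_of_mem_inter h g hg ⟨hWJ hVW, hVI⟩
      have hVQ : ∀ i, V ∈ zeros (Q i) := by
        intro i
        rw [hWQ] at hVW
        exact Set.mem_iInter.1 hVW i
      by_cases hs : s = 0
      · right
        have ht : t ≠ 0 := by
          rcases hst with h1 | h1
          · exact absurd hs h1
          · exact h1
        have hV' : Submodule.span ℂ (Set.range (coverRows I J t₀ g.1 0 1)) = V.1 := by
          rw [← hV, hs]
          have := span_coverRows_smul I J t₀ g.1 0 1 ht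
          rw [mul_zero, mul_one] at this
          exact this.symm
        refine ⟨Subtype.ext hV'.symm, fun i => ?_⟩
        rw [eval_infPol]
        exact hVQ i _ hV'
      · left
        have hV' : Submodule.span ℂ (Set.range (coverRows I J t₀ g.1 1 (t / s))) = V.1 := by
          rw [← hV]
          have := span_coverRows_smul I J t₀ g.1 1 (t / s) hs
          rw [mul_one, mul_div_cancel₀ _ hs] at this
          exact this.symm
        refine ⟨t / s, fun i => ?_, Subtype.ext hV'⟩
        rw [eval_finPol]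
        exact hVQ i _ hV'
    · rintro (⟨x, hx, rfl⟩ | ⟨rfl, hx⟩)
      · refine ⟨?_, (mem_inter_of_cover h g hg (Or.inl one_ne_zero) rfl).2⟩
        rw [hWQ, Set.mem_iInter]
        intro i
        rw [mem_zeros_iff (hQ i) (A := coverRows I J t₀ g.1 1 x) rfl, ← eval_finPol]
        exact hx i
      · refine ⟨?_, (mem_inter_of_cover h g hg (Or.inr one_ne_zero) rfl).2⟩
        rw [hWQ, Set.mem_iInter]
        intro i
        rw [mem_zeros_iff (hQ i) (A := coverRows I J t₀ g.1 0 1) rfl, ← eval_infPol]
        exact hx i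
  have hinj : ∀ (g : GL (Fin n) ℂ) (hg : Opp 1 g.1),
      Function.Injective (fun x : ℂ => member h g hg 1 x (Or.inl one_ne_zero)) := by
    intro g hg x x' hxx
    have h1 := cover_injective h g hg (congrArg Subtype.val hxx)
    simpa using h1.symm
  have hdisj : ∀ (g : GL (Fin n) ℂ) (hg : Opp 1 g.1) (x : ℂ),
      member h g hg 1 x (Or.inl one_ne_zero) ≠ member h g hg 0 1 (Or.inr one_ne_zero) := by
    intro g hg x hxx
    have h1 := cover_injective h g hg (congrArg Subtype.val hxx)
    simp at h1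
  by_cases hinf : ∀ i, infPol I J t₀ (Q i) = 0
  · refine ⟨N + 1, D * P₀, mul_ne_zero hD hP₀, fun g hg => ?_⟩
    rw [map_mul] at hg
    have hg1 := left_ne_zero_of_mul hg
    have hopp' := hopp g (right_ne_zero_of_mul hg)
    rw [key g hopp', Set.encard_union_eq, (hinj g hopp').encard_image, hND _ hg1]
    · have : {V | V = member h g hopp' 0 1 (Or.inr one_ne_zero) ∧
          ∀ i, eval (fun p => g.1 p.1 p.2) (infPol I J t₀ (Q i)) = 0} =
          {member h g hopp' 0 1 (Or.inr one_ne_zero)} := by
        ext V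
        simp [hinf]
      rw [this, Set.encard_singleton]
      rfl
    · rw [Set.disjoint_left]
      rintro V ⟨x, _, rfl⟩ ⟨h2, _⟩
      exact hdisj g hopp' x h2
  · push Not at hinf
    obtain ⟨i, hi⟩ := hinf
    refine ⟨N, D * P₀ * infPol I J t₀ (Q i), mul_ne_zero (mul_ne_zero hD hP₀) hi, fun g hg => ?_⟩
    rw [map_mul, map_mul] at hg
    have hg1 := left_ne_zero_of_mul (left_ne_zero_of_mul hg)
    have hopp' := hopp g (right_ne_zero_of_mul (left_ne_zero_of_mul hg))
    have hgi := right_ne_zero_of_mul hg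
    have : {V | V = member h g hopp' 0 1 (Or.inr one_ne_zero) ∧
          ∀ i, eval (fun p => g.1 p.1 p.2) (infPol I J t₀ (Q i)) = 0} = ∅ := by
      ext V
      simp only [Set.mem_ofPred_eq, Set.mem_empty_iff_false, iff_false, not_and]
      intro _ hall
      exact hgi (hall i)
    rw [key g hopp', this, Set.union_empty, (hinj g hopp').encard_image, hND _ hg1]

/-- a form of degree `d ≥ 1` has a zero on every pencil -/
theorem exists_zero_on_pencil {I J : Fin m ↪o Fin n} {t₀ : Fin m} (h : Covers I J t₀)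
    (g : GL (Fin n) ℂ) (hg : Opp 1 g.1) {d : ℕ} (hd : 1 ≤ d)
    {P : MvPolynomial (Fin m ↪o Fin n) ℂ} (hP : P.IsHomogeneous d) :
    ∃ V : Gr m n, V ∈ zeros P ∧ V ∈ schubert J (1 : Matrix (Fin n) (Fin n) ℂ) ∧
      V ∈ oppSchubert I g.1 := by
  classical
  let A : Fin m → Fin n → MvPolynomial (Fin 2) ℂ :=
    coverRows I J t₀ (g.1.map C) (X 0) (X 1)
  have hA : ∀ c : Fin 2 → ℂ, evalM A c = coverRows I J t₀ g.1 (c 0) (c 1) := by
    intro c
    funext i j
    show eval c (coverRows I J t₀ (g.1.map C) (X 0) (X 1) i j) = _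
    rw [map_coverRows]
    have h2 : (g.1.map C).map (eval c) = g.1 := by
      ext i j
      simp
    rw [h2, eval_X, eval_X]
  obtain ⟨c, hc0, hc⟩ := Pool.Agent.Work.PD.exists_common_zero (K := ℂ) (n := 2) (m := 1)
    (by norm_num) (fun _ => pull A P) (by
      intro _
      rw [eval_pull, hA]
      apply eval_plu_zero hP hd
      intro hli
      have h3 := hli.ne_zero t₀
      apply h3
      funext c
      simp [coverRows])
  have hst : c 0 ≠ 0 ∨ c 1 ≠ 0 := by
    by_contra hcon
    push Not at hcon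
    apply hc0
    funext i
    fin_cases i
    · exact hcon.1
    · exact hcon.2
  refine ⟨member h g hg (c 0) (c 1) hst, ?_, ?_⟩
  · rw [mem_zeros_iff hP (A := coverRows I J t₀ g.1 (c 0) (c 1)) rfl, ← hA, ← eval_pull]
    exact hc 0
  · exact mem_inter_of_cover h g hg hst rfl

end Pool.Agent.GrCyc
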