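import Pool.Agent.GrCyc.Index
import Pool.Agent.GrCyc.Param

/-! The intersection of a Schubert variety with an opposite Schubert variety of one dimension less:
a pencil of subspaces. -/

namespace Pool.Agent.GrCyc

open MvPolynomial Module

variable {m n : ℕ}

theorem uvec_eq_zero {R : Type*} [CommRing R] (g : Matrix (Fin n) (Fin n) R) {j i : Fin n}
    (h : j < i) : uvec g j i = 0 := by
  unfold uvec
  rw [if_neg (not_lt.2 h.le), if_neg h.ne']

theorem det_uvec_ne_zero (g : GL (Fin n) ℂ) (hg : Opp 1 g.1) :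
    Matrix.det (Matrix.of fun j => uvec g.1 j) ≠ 0 := by
  rw [Matrix.det_of_isLowerTriangular]
  · exact Finset.prod_ne_zero_iff.2 fun j _ => (span_uvec g hg j).2
  · intro i j hij
    exact uvec_eq_zero g.1 hij

theorem card_le_finrank {A : Fin m → Fin n → ℂ} (hA : LinearIndependent ℂ A) (S : Finset (Fin m))
    (W : Submodule ℂ (Fin n → ℂ)) (h : ∀ i ∈ S, A i ∈ W) : S.card ≤ finrank ℂ W := by
  have h1 : LinearIndependent ℂ (fun i : S => A i) := hA.comp _ Subtype.val_injective
  have h2 : finrank ℂ (Submodule.span ℂ (Set.range fun i : S => A i)) = S.card := by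
    rw [finrank_span_eq_card h1, Fintype.card_coe]
  rw [← h2]
  refine Submodule.finrank_mono (Submodule.span_le.2 ?_)
  rintro _ ⟨i, rfl⟩
  exact h i.1 i.2

/-- `J` covers `I`: they differ by one at the place `t₀` only -/
def Covers (I J : Fin m ↪o Fin n) (t₀ : Fin m) : Prop :=
  (∀ τ, τ ≠ t₀ → I τ = J τ) ∧ (J t₀ : ℕ) = I t₀ + 1

/-- the pencil: row `t₀` is `s u_(i) + t u_(i+1)`, the other rows are `u_(i_τ)` -/
def coverRows {R : Type*} [CommRing R] (I J : Fin m ↪o Fin n) (t₀ : Fin m)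
    (g : Matrix (Fin n) (Fin n) R) (s t : R) : Fin m → Fin n → R := fun τ c =>
  if τ = t₀ then s * uvec g (I t₀) c + t * uvec g (J t₀) c else uvec g (I τ) c

/-- coefficients of the rows of the pencil -/
def coverCoef (I J : Fin m ↪o Fin n) (t₀ : Fin m) (s t : ℂ) : Matrix (Fin m) (Fin n) ℂ :=
  Matrix.of fun τ j => if τ = t₀ then (if j = I t₀ then s else if j = J t₀ then t else 0)
    else if j = I τ then 1 else 0

theorem Covers.ne {I J : Fin m ↪o Fin n} {t₀ : Fin m} (h : Covers I J t₀) : I t₀ ≠ J t₀ := by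
  intro heq
  have := h.2
  rw [heq] at this
  omega

theorem Covers.ne' {I J : Fin m ↪o Fin n} {t₀ : Fin m} (h : Covers I J t₀) {τ : Fin m}
    (hτ : τ ≠ t₀) : I τ ≠ J t₀ := by
  intro heq
  rw [h.1 τ hτ] at heq
  exact hτ (J.injective heq)

theorem coverRows_eq {I J : Fin m ↪o Fin n} {t₀ : Fin m} (h : Covers I J t₀)
    (g : Matrix (Fin n) (Fin n) ℂ) (s t : ℂ) :
    Matrix.of (coverRows I J t₀ g s t) = coverCoef I J t₀ s t * Matrix.of fun j => uvec g j := by
  ext τ c
  rw [Matrix.mul_apply]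
  by_cases hτ : τ = t₀
  · subst hτ
    have h1 : ∀ j, coverCoef I J τ s t τ j * (Matrix.of fun j => uvec g j) j c =
        (if j = I τ then s * uvec g (I τ) c else 0) + (if j = J τ then t * uvec g (J τ) c else 0) := by
      intro j
      simp only [coverCoef, Matrix.of_apply, if_true]
      by_cases h1 : j = I τ
      · subst h1
        simp [h.ne]
      · by_cases h2 : j = J τ
        · subst h2
          simp [h.ne.symm]
        · simp [h1, h2]
    rw [Finset.sum_congr rfl (fun j _ => h1 j), Finset.sum_add_distrib]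
    simp [coverRows]
  · have h1 : ∀ j, coverCoef I J t₀ s t τ j * (Matrix.of fun j => uvec g j) j c =
        (if j = I τ then uvec g (I τ) c else 0) := by
      intro j
      simp only [coverCoef, Matrix.of_apply, if_neg hτ]
      by_cases h1 : j = I τ
      · subst h1; simp
      · simp [h1]
    rw [Finset.sum_congr rfl (fun j _ => h1 j)]
    simp [coverRows, hτ]

theorem linearIndependent_coverRows {I J : Fin m ↪o Fin n} {t₀ : Fin m} (h : Covers I J t₀)
    (g : GL (Fin n) ℂ) (hg : Opp 1 g.1) (s t : ℂ) (hst : s ≠ 0 ∨ t ≠ 0) :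
    LinearIndependent ℂ (coverRows I J t₀ g.1 s t) := by
  rw [Fintype.linearIndependent_iff]
  intro c hc
  have h1 : Matrix.vecMul c (Matrix.of (coverRows I J t₀ g.1 s t)) = 0 := by
    funext j
    have := congrFun hc j
    simpa [Matrix.vecMul, dotProduct, Finset.sum_apply] using this
  rw [coverRows_eq h, ← Matrix.vecMul_vecMul] at h1
  have h2 : Matrix.vecMul c (coverCoef I J t₀ s t) = 0 := by
    have hu : IsUnit (Matrix.of fun j => uvec g.1 j).det := isUnit_iff_ne_zero.2 (det_uvec_ne_zero g hg)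
    have h3 := congrArg (fun v => Matrix.vecMul v (Matrix.of fun j => uvec g.1 j)⁻¹) h1
    simp only [Matrix.vecMul_vecMul, Matrix.zero_vecMul] at h3
    rwa [Matrix.mul_assoc, Matrix.mul_nonsing_inv _ hu, Matrix.mul_one] at h3
  have h4 : ∀ τ, τ ≠ t₀ → c τ = 0 := by
    intro τ hτ
    have h5 := congrFun h2 (I τ)
    simp only [Matrix.vecMul, dotProduct, Pi.zero_apply] at h5
    rw [Finset.sum_eq_single τ] at h5
    · simpa [coverCoef, hτ] using h5
    · intro τ' _ hτ'
      by_cases h6 : τ' = t₀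
      · subst h6
        have h7 : I τ ≠ I τ' := fun h8 => hτ' (I.injective h8).symm
        have h8 := h.ne' hτ
        simp [coverCoef, h7, h8]
      · have h7 : I τ ≠ I τ' := fun h8 => hτ' (I.injective h8).symm
        simp [coverCoef, h6, h7]
    · intro h6; exact absurd (Finset.mem_univ _) h6
  have h5 : ∀ j, c t₀ * coverCoef I J t₀ s t t₀ j = 0 := by
    intro j
    have h6 := congrFun h2 j
    simp only [Matrix.vecMul, dotProduct, Pi.zero_apply] at h6
    rw [Finset.sum_eq_single t₀] at h6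
    · exact h6
    · intro τ' _ hτ'
      rw [h4 τ' hτ', zero_mul]
    · intro h7; exact absurd (Finset.mem_univ _) h7
  intro τ
  by_cases hτ : τ = t₀
  · subst hτ
    rcases hst with hs | ht
    · have := h5 (I τ)
      simpa [coverCoef, hs] using this
    · have := h5 (J τ)
      simpa [coverCoef, h.ne.symm, ht] using this
  · exact h4 τ hτ

theorem uvec_mem_low (g : GL (Fin n) ℂ) (hg : Opp 1 g.1) (j : Fin n) :
    uvec g.1 j ∈ lowG (1 : Matrix (Fin n) (Fin n) ℂ) ((j : ℕ) + 1) := by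
  have h : uvec g.1 j ∈ Submodule.span ℂ {uvec g.1 j} := Submodule.mem_span_singleton_self _
  rw [← (span_uvec g hg j).1] at h
  exact h.1

theorem uvec_mem_high (g : GL (Fin n) ℂ) (hg : Opp 1 g.1) (j : Fin n) :
    uvec g.1 j ∈ highG g.1 (j : ℕ) := by
  have h : uvec g.1 j ∈ Submodule.span ℂ {uvec g.1 j} := Submodule.mem_span_singleton_self _
  rw [← (span_uvec g hg j).1] at h
  exact h.2

/-- the members of the pencil are in the intersection -/
theorem mem_inter_of_cover {I J : Fin m ↪o Fin n} {t₀ : Fin m} (h : Covers I J t₀)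
    (g : GL (Fin n) ℂ) (hg : Opp 1 g.1) {s t : ℂ} (hst : s ≠ 0 ∨ t ≠ 0) {V : Gr m n}
    (hV : Submodule.span ℂ (Set.range (coverRows I J t₀ g.1 s t)) = V.1) :
    V ∈ schubert J (1 : Matrix (Fin n) (Fin n) ℂ) ∩ oppSchubert I g.1 := by
  have hli := linearIndependent_coverRows h g hg s t hst
  have hrowV : ∀ τ, coverRows I J t₀ g.1 s t τ ∈ V.1 := by
    intro τ
    rw [← hV]; exact Submodule.subset_span ⟨τ, rfl⟩
  have hJt : (J t₀ : ℕ) = I t₀ + 1 := h.2
  have hlow : ∀ τ, coverRows I J t₀ g.1 s t τ ∈ lowG (1 : Matrix (Fin n) (Fin n) ℂ) ((J τ : ℕ) + 1) := by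
    intro τ
    by_cases hτ : τ = t₀
    · subst hτ
      have : coverRows I J τ g.1 s t τ = s • uvec g.1 (I τ) + t • uvec g.1 (J τ) := by
        funext c; simp [coverRows]
      rw [this]
      refine Submodule.add_mem _ (Submodule.smul_mem _ _ ?_) (Submodule.smul_mem _ _ ?_)
      · exact lowG_mono _ (by omega) (uvec_mem_low g hg (I τ))
      · exact uvec_mem_low g hg (J τ)
    · have : coverRows I J t₀ g.1 s t τ = uvec g.1 (I τ) := by
        funext c; simp [coverRows, hτ]
      rw [this, ← h.1 τ hτ]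
      exact uvec_mem_low g hg (I τ)
  have hhigh : ∀ τ, coverRows I J t₀ g.1 s t τ ∈ highG g.1 (I τ : ℕ) := by
    intro τ
    by_cases hτ : τ = t₀
    · subst hτ
      have : coverRows I J τ g.1 s t τ = s • uvec g.1 (I τ) + t • uvec g.1 (J τ) := by
        funext c; simp [coverRows]
      rw [this]
      refine Submodule.add_mem _ (Submodule.smul_mem _ _ ?_) (Submodule.smul_mem _ _ ?_)
      · exact uvec_mem_high g hg (I τ)
      · exact highG_anti _ (by omega) (uvec_mem_high g hg (J τ))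
    · have : coverRows I J t₀ g.1 s t τ = uvec g.1 (I τ) := by
        funext c; simp [coverRows, hτ]
      rw [this]
      exact uvec_mem_high g hg (I τ)
  constructor
  · intro τ
    have h1 := card_le_finrank hli (Finset.Iic τ)
      (V.1 ⊓ lowG (1 : Matrix (Fin n) (Fin n) ℂ) ((J τ : ℕ) + 1)) (by
        intro i hi
        refine ⟨hrowV i, lowG_mono _ ?_ (hlow i)⟩
        have : J i ≤ J τ := J.monotone (Finset.mem_Iic.1 hi)
        have : (J i : ℕ) ≤ J τ := this
        omega)
    rw [Fin.card_Iic] at h1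
    exact h1
  · intro τ
    have h1 := card_le_finrank hli (Finset.Ici τ)
      (V.1 ⊓ highG g.1 (I τ : ℕ)) (by
        intro i hi
        refine ⟨hrowV i, highG_anti _ ?_ (hhigh i)⟩
        have : I τ ≤ I i := I.monotone (Finset.mem_Ici.1 hi)
        exact this)
    rw [Fin.card_Ici] at h1
    exact h1

theorem finrank_inf_ge {V U W : Submodule ℂ (Fin n → ℂ)} :
    finrank ℂ ↥(V ⊓ U) + finrank ℂ ↥(V ⊓ W) ≤ finrank ℂ V + finrank ℂ ↥(V ⊓ (U ⊓ W)) := by
  have h1 := Submodule.finrank_sup_add_finrank_inf_eq (V ⊓ U) (V ⊓ W)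
  have h2 : (V ⊓ U) ⊓ (V ⊓ W) = V ⊓ (U ⊓ W) := by
    rw [inf_inf_inf_comm, inf_idem]
  rw [h2] at h1
  have h3 : finrank ℂ ↥(V ⊓ U ⊔ V ⊓ W) ≤ finrank ℂ V :=
    Submodule.finrank_mono (sup_le inf_le_left inf_le_left)
  omega

/-- the plane `F_(i+2) ∩ F'_i` is spanned by `u_i` and `u_(i+1)` -/
theorem mem_plane (g : GL (Fin n) ℂ) (hg : Opp 1 g.1) {i j : Fin n} (hij : (j : ℕ) = i + 1)
    {w : Fin n → ℂ} (hw : w ∈ lowG (1 : Matrix (Fin n) (Fin n) ℂ) ((j : ℕ) + 1) ⊓ highG g.1 (i : ℕ)) :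
    ∃ s t : ℂ, w = s • uvec g.1 i + t • uvec g.1 j := by
  have hl : ∀ (k : ℕ) (v : Fin n → ℂ), v ∈ lowG (1 : Matrix (Fin n) (Fin n) ℂ) k ↔
      ∀ c : Fin n, k ≤ (c : ℕ) → v c = 0 := by
    intro k v
    unfold lowG
    rw [Matrix.toLin'_one, Submodule.map_id]
    rfl
  have hjj := (span_uvec g hg j).2
  have hii := (span_uvec g hg i).2
  -- subtract multiples to reach `low i ∩ high i = 0`
  let t := w j / uvec g.1 j j
  let w1 := w - t • uvec g.1 j
  let s := w1 i / uvec g.1 i i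
  refine ⟨s, t, ?_⟩
  have hw1high : w1 ∈ highG g.1 (i : ℕ) :=
    Submodule.sub_mem _ hw.2 (Submodule.smul_mem _ _ (highG_anti _ (by omega) (uvec_mem_high g hg j)))
  have h2high : w1 - s • uvec g.1 i ∈ highG g.1 (i : ℕ) :=
    Submodule.sub_mem _ hw1high (Submodule.smul_mem _ _ (uvec_mem_high g hg i))
  have h2low : w1 - s • uvec g.1 i ∈ lowG (1 : Matrix (Fin n) (Fin n) ℂ) (i : ℕ) := by
    rw [hl]
    intro c hc
    have hw' := (hl _ w).1 hw.1
    have huj := (hl _ _).1 (uvec_mem_low g hg j)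
    have hui := (hl _ _).1 (uvec_mem_low g hg i)
    rcases Nat.lt_or_ge (j : ℕ) (c : ℕ) with h | h
    · show (w c - t * uvec g.1 j c) - s * uvec g.1 i c = 0
      rw [hw' c (by omega), huj c (by omega), hui c (by omega)]
      ring
    · rcases Nat.lt_or_ge (i : ℕ) (c : ℕ) with h' | h'
      · have hcj : c = j := Fin.ext (by omega)
        subst hcj
        show (w c - (w c / uvec g.1 c c) * uvec g.1 c c) - s * uvec g.1 i c = 0
        rw [hui c (by omega), div_mul_cancel₀ _ hjj]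
        ring
      · have hci : c = i := Fin.ext (by omega)
        subst hci
        show w1 c - (w1 c / uvec g.1 c c) * uvec g.1 c c = 0
        rw [div_mul_cancel₀ _ hii]
        ring
  have h3 : w1 - s • uvec g.1 i ∈ (⊥ : Submodule ℂ (Fin n → ℂ)) := by
    rw [← hg (i : ℕ)]
    exact ⟨h2low, h2high⟩
  rw [Submodule.mem_bot, sub_eq_zero] at h3
  rw [← h3]
  show w = (w - t • uvec g.1 j) + t • uvec g.1 j
  abel

/-- the intersection is the pencil -/
theorem exists_of_mem_inter {I J : Fin m ↪o Fin n} {t₀ : Fin m} (h : Covers I J t₀)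
    (g : GL (Fin n) ℂ) (hg : Opp 1 g.1) {V : Gr m n}
    (hV : V ∈ schubert J (1 : Matrix (Fin n) (Fin n) ℂ) ∩ oppSchubert I g.1) :
    ∃ s t : ℂ, (s ≠ 0 ∨ t ≠ 0) ∧
      Submodule.span ℂ (Set.range (coverRows I J t₀ g.1 s t)) = V.1 := by
  have hg' : Opp (1 : GL (Fin n) ℂ).1 g.1 := hg
  have h1 : (t₀ : ℕ) + 1 ≤ finrank ℂ ↥(V.1 ⊓ lowG (1 : Matrix (Fin n) (Fin n) ℂ) ((J t₀ : ℕ) + 1)) :=
    hV.1 t₀
  have h2 : m - (t₀ : ℕ) ≤ finrank ℂ ↥(V.1 ⊓ highG g.1 (I t₀ : ℕ)) := hV.2 t₀
  have h3 := finrank_inf_ge (V := V.1) (U := lowG (1 : Matrix (Fin n) (Fin n) ℂ) ((J t₀ : ℕ) + 1))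
    (W := highG g.1 (I t₀ : ℕ))
  rw [V.2] at h3
  have ht := t₀.2
  have h4 : 0 < finrank ℂ ↥(V.1 ⊓ (lowG (1 : Matrix (Fin n) (Fin n) ℂ) ((J t₀ : ℕ) + 1) ⊓
      highG g.1 (I t₀ : ℕ))) := by omega
  obtain ⟨⟨w, hwV, hw⟩, hw0⟩ := Module.finrank_pos_iff_exists_ne_zero.1 h4
  obtain ⟨s, t, hst⟩ := mem_plane g hg h.2 hw
  have hne : s ≠ 0 ∨ t ≠ 0 := by
    by_contra hcon
    push Not at hcon
    apply hw0
    apply Subtype.ext
    show w = 0
    rw [hst, hcon.1, hcon.2]
    simp
  refine ⟨s, t, hne, ?_⟩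
  have hli := linearIndependent_coverRows h g hg s t hne
  apply Submodule.eq_of_le_of_finrank_eq
  · rw [Submodule.span_le]
    rintro _ ⟨τ, rfl⟩
    by_cases hτ : τ = t₀
    · subst hτ
      have : coverRows I J τ g.1 s t τ = s • uvec g.1 (I τ) + t • uvec g.1 (J τ) := by
        funext c; simp [coverRows]
      rw [this, ← hst]
      exact hwV
    · have : coverRows I J t₀ g.1 s t τ = uvec g.1 (I τ) := by
        funext c; simp [coverRows, hτ]
      rw [this]
      refine line_le hg' (I := I) (J := J) hV (h.1 τ hτ) ?_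
      exact ⟨uvec_mem_low g hg (I τ), uvec_mem_high g hg (I τ)⟩
  · rw [finrank_span_eq_card hli, Fintype.card_fin, V.2]

/-- different parameters give different members of the pencil -/
theorem cover_injective {I J : Fin m ↪o Fin n} {t₀ : Fin m} (h : Covers I J t₀)
    (g : GL (Fin n) ℂ) (hg : Opp 1 g.1) {s t s' t' : ℂ}
    (heq : Submodule.span ℂ (Set.range (coverRows I J t₀ g.1 s t)) =
      Submodule.span ℂ (Set.range (coverRows I J t₀ g.1 s' t'))) : s * t' = s' * t := by
  -- the row `t₀` of the second is a combination of the rows of the first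
  have h1 : coverRows I J t₀ g.1 s' t' t₀ ∈ Submodule.span ℂ (Set.range (coverRows I J t₀ g.1 s t)) := by
    rw [heq]; exact Submodule.subset_span ⟨t₀, rfl⟩
  obtain ⟨c, hc⟩ := (Submodule.mem_span_range_iff_exists_fun ℂ).1 h1
  have h2 : Matrix.vecMul c (Matrix.of (coverRows I J t₀ g.1 s t)) =
      Matrix.vecMul (Pi.single t₀ 1) (Matrix.of (coverRows I J t₀ g.1 s' t')) := by
    rw [Matrix.single_one_vecMul]
    funext j
    have := congrFun hc j
    simpa [Matrix.vecMul, dotProduct, Finset.sum_apply] using this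
  rw [coverRows_eq h, coverRows_eq h, ← Matrix.vecMul_vecMul, ← Matrix.vecMul_vecMul] at h2
  have hu : IsUnit (Matrix.of fun j => uvec g.1 j).det := isUnit_iff_ne_zero.2 (det_uvec_ne_zero g hg)
  have h3 := congrArg (fun v => Matrix.vecMul v (Matrix.of fun j => uvec g.1 j)⁻¹) h2
  simp only [Matrix.vecMul_vecMul] at h3
  rw [Matrix.mul_assoc, Matrix.mul_nonsing_inv _ hu, Matrix.mul_one, Matrix.mul_assoc,
    Matrix.mul_nonsing_inv _ hu, Matrix.mul_one, Matrix.single_one_vecMul] at h3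
  -- coordinates `I t₀` and `J t₀`
  have h4 : ∀ j, (∀ τ, τ ≠ t₀ → j ≠ I τ) → c t₀ * coverCoef I J t₀ s t t₀ j =
      coverCoef I J t₀ s' t' t₀ j := by
    intro j hj
    have h5 := congrFun h3 j
    simp only [Matrix.vecMul, dotProduct] at h5
    rw [Finset.sum_eq_single t₀] at h5
    · exact h5
    · intro τ' _ hτ'
      simp [coverCoef, hτ', hj τ' hτ']
    · intro h7; exact absurd (Finset.mem_univ _) h7
  have h5 := h4 (I t₀) (fun τ hτ h8 => hτ (I.injective h8).symm)
  have h6 := h4 (J t₀) (fun τ hτ h8 => h.ne' hτ h8.symm)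
  simp only [coverCoef, Matrix.of_apply, if_true, if_neg h.ne.symm] at h5 h6
  rw [← h5, ← h6]
  ring

theorem map_coverRows {R S : Type*} [CommRing R] [CommRing S] (f : R →+* S) (I J : Fin m ↪o Fin n)
    (t₀ : Fin m) (g : Matrix (Fin n) (Fin n) R) (s t : R) (τ : Fin m) (c : Fin n) :
    f (coverRows I J t₀ g s t τ c) = coverRows I J t₀ (g.map f) (f s) (f t) τ c := by
  unfold coverRows
  split_ifs
  · rw [map_add, map_mul, map_mul, map_uvec, map_uvec]
  · rw [map_uvec]

theorem span_coverRows_smul (I J : Fin m ↪o Fin n) (t₀ : Fin m) (g : Matrix (Fin n) (Fin n) ℂ)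
    (s t : ℂ) {l : ℂ} (hl : l ≠ 0) :
    Submodule.span ℂ (Set.range (coverRows I J t₀ g (l * s) (l * t))) =
      Submodule.span ℂ (Set.range (coverRows I J t₀ g s t)) := by
  have key : ∀ (s t l : ℂ), Submodule.span ℂ (Set.range (coverRows I J t₀ g (l * s) (l * t))) ≤
      Submodule.span ℂ (Set.range (coverRows I J t₀ g s t)) := by
    intro s t l
    rw [Submodule.span_le]
    rintro _ ⟨τ, rfl⟩
    by_cases hτ : τ = t₀
    · have : coverRows I J t₀ g (l * s) (l * t) τ = l • coverRows I J t₀ g s t τ := by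
        funext c; simp [coverRows, hτ]; ring
      rw [this]
      exact Submodule.smul_mem _ _ (Submodule.subset_span ⟨τ, rfl⟩)
    · have : coverRows I J t₀ g (l * s) (l * t) τ = coverRows I J t₀ g s t τ := by
        funext c; simp [coverRows, hτ]
      rw [this]
      exact Submodule.subset_span ⟨τ, rfl⟩
  refine le_antisymm (key s t l) ?_
  have h := key (l * s) (l * t) l⁻¹
  rwa [inv_mul_cancel_left₀ hl, inv_mul_cancel_left₀ hl] at h

end Pool.Agent.GrCyc
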