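import Mathlib

/-!
# Numerical classes of subvarieties of the Grassmannian `Gr(m,n)` over `ℂ`

`Gr m n` is the set of `m`-dimensional linear subspaces of `ℂ^n` with its Zariski topology.
Hypersurfaces, subvarieties, the numerical class of a subvariety (intersection numbers with general
translates of Schubert varieties) and the effective cone of `k`-cycles of a subset `X`.
-/

namespace Pool.Agent.GrCyc

open MvPolynomial

/-- The Grassmannian `Gr(m,n)`: the `m`-dimensional linear subspaces of `ℂ^n`. -/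
def Gr (m n : ℕ) : Type := {V : Submodule ℂ (Fin n → ℂ) // Module.finrank ℂ V = m}

/-- The Plücker coordinates of an `m`-tuple `A` of vectors of `ℂ^n`: for increasing column indices
`K 0 < ... < K (m-1)` the corresponding maximal minor of the `m × n` matrix with rows `A`. -/
def plu {m n : ℕ} (A : Fin m → Fin n → ℂ) (K : Fin m ↪o Fin n) : ℂ :=
  Matrix.det (Matrix.of fun i j => A i (K j))

/-- The zero locus in `Gr(m,n)` of a (homogeneous) polynomial `P` in the Plücker coordinates. -/
def zeros {m n : ℕ} (P : MvPolynomial (Fin m ↪o Fin n) ℂ) : Set (Gr m n) :=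
  {V | ∀ A : Fin m → Fin n → ℂ, Submodule.span ℂ (Set.range A) = V.1 → eval (plu A) P = 0}

/-- The Zariski topology of `Gr(m,n)`: generated by the complements of the zero loci of homogeneous
polynomials in the Plücker coordinates. -/
instance zariski (m n : ℕ) : TopologicalSpace (Gr m n) :=
  TopologicalSpace.generateFrom {U | ∃ (d : ℕ) (P : MvPolynomial (Fin m ↪o Fin n) ℂ),
    P.IsHomogeneous d ∧ U = (zeros P)ᶜ}

/-- `X` is a hypersurface of degree `d` of `Gr(m,n)`: the zero locus of a section of `𝒪(d)` (a form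
of degree `d` in the Plücker coordinates) which does not vanish identically on `Gr(m,n)`. -/
def IsHypersurface {m n : ℕ} (d : ℕ) (X : Set (Gr m n)) : Prop :=
  ∃ P : MvPolynomial (Fin m ↪o Fin n) ℂ, P.IsHomogeneous d ∧ zeros P ≠ Set.univ ∧ X = zeros P

/-- The coordinate subspace `⟨e_0, ..., e_(j-1)⟩` of `ℂ^n`. -/
def low (n j : ℕ) : Submodule ℂ (Fin n → ℂ) where
  carrier := {v | ∀ i : Fin n, j ≤ (i : ℕ) → v i = 0}
  add_mem' := fun {a b} ha hb i hi => by simp [ha i hi, hb i hi]
  zero_mem' := fun i _ => rfl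
  smul_mem' := fun c v hv i hi => by simp [hv i hi]

/-- The coordinate subspace `⟨e_j, ..., e_(n-1)⟩` of `ℂ^n`. -/
def high (n j : ℕ) : Submodule ℂ (Fin n → ℂ) where
  carrier := {v | ∀ i : Fin n, (i : ℕ) < j → v i = 0}
  add_mem' := fun {a b} ha hb i hi => by simp [ha i hi, hb i hi]
  zero_mem' := fun i _ => rfl
  smul_mem' := fun c v hv i hi => by simp [hv i hi]

/-- The dimension `∑ (i_t - t)` of the Schubert variety with index `i_0 < ... < i_(m-1)`. -/
def dimIdx {m n : ℕ} (I : Fin m ↪o Fin n) : ℕ := ∑ t : Fin m, ((I t : ℕ) - (t : ℕ))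

/-- The Schubert variety of index `I` (of dimension `dimIdx I`) with respect to the flag
`g⟨e_0,...,e_(j-1)⟩`: all `V` with `dim (V ∩ g⟨e_0, ..., e_(i_t)⟩) ≥ t + 1` for all `t`. -/
def schubert {m n : ℕ} (I : Fin m ↪o Fin n) (g : Matrix (Fin n) (Fin n) ℂ) : Set (Gr m n) :=
  {V | ∀ t : Fin m, (t : ℕ) + 1 ≤
    Module.finrank ℂ ↥(V.1 ⊓ (low n ((I t : ℕ) + 1)).map (Matrix.toLin' g))}

/-- The opposite Schubert variety of index `I` (of codimension `dimIdx I`), translated by `g`: all
`V` with `dim (V ∩ g⟨e_(i_t), ..., e_(n-1)⟩) ≥ m - t` for all `t`. -/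
def oppSchubert {m n : ℕ} (I : Fin m ↪o Fin n) (g : Matrix (Fin n) (Fin n) ℂ) : Set (Gr m n) :=
  {V | ∀ t : Fin m, m - (t : ℕ) ≤
    Module.finrank ℂ ↥(V.1 ⊓ (high n (I t : ℕ)).map (Matrix.toLin' g))}

/-- The indices of the Schubert classes of dimension `k`. -/
abbrev KIdx (m n k : ℕ) : Type := {I : Fin m ↪o Fin n // dimIdx I = k}

/-- For general `g ∈ GL_n(ℂ)` (outside the zero set of a nonzero polynomial in the entries of `g`)
the set `Z` meets the translate by `g` of the opposite Schubert variety of index `I` in exactly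
`N` points. -/
def MeetsIn {m n : ℕ} (Z : Set (Gr m n)) (I : Fin m ↪o Fin n) (N : ℕ) : Prop :=
  ∃ P : MvPolynomial (Fin n × Fin n) ℂ, P ≠ 0 ∧
    ∀ g : GL (Fin n) ℂ, eval (fun p => g.1 p.1 p.2) P ≠ 0 → (Z ∩ oppSchubert I g.1).encard = N

/-- `v` is the numerical class of the `k`-dimensional subvariety `Z` of `Gr(m,n)`: its coordinate at
the index `I` (the coefficient of the Schubert class `σ_I` of dimension `k`) is the intersection
number of `Z` with the opposite Schubert variety of index `I`. -/
def IsClass {m n k : ℕ} (Z : Set (Gr m n)) (v : KIdx m n k → ℝ) : Prop :=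
  ∀ I : KIdx m n k, ∃ N : ℕ, v I = N ∧ MeetsIn Z I.1 N

/-- `Z` is a `k`-dimensional subvariety of `Gr(m,n)` contained in `X`. -/
def IsSubvariety {m n : ℕ} (k : ℕ) (X Z : Set (Gr m n)) : Prop :=
  Z ⊆ X ∧ IsClosed Z ∧ IsIrreducible Z ∧ topologicalKrullDim ↥Z = k

/-- The effective cone of `k`-cycles of the closed subset `X` of `G = Gr(m,n)`, as a subset of
`N_k(G)` (with coordinates with respect to the basis of Schubert classes): the closure of the convex
cone spanned by the classes of the `k`-dimensional subvarieties of `X`. -/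
def effCone {m n : ℕ} (k : ℕ) (X : Set (Gr m n)) : Set (KIdx m n k → ℝ) :=
  closure (Submodule.span NNReal
    {v : KIdx m n k → ℝ | ∃ Z : Set (Gr m n), IsSubvariety k X Z ∧ IsClass Z v} :
      Set (KIdx m n k → ℝ))

/-- The cone spanned by the Schubert classes. -/
def schubertCone (m n k : ℕ) : Set (KIdx m n k → ℝ) := {v | ∀ I, 0 ≤ v I}

end Pool.Agent.GrCyc
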