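import Pool.Agent.GrCyc.Flags

/-! Index sets of small dimension. -/

namespace Pool.Agent.GrCyc

open Module

variable {m n : ℕ}

/-- `I s - s` is monotone in `s` -/
theorem idx_sub_mono (I : Fin m ↪o Fin n) {s t : Fin m} (h : s ≤ t) :
    (I s : ℕ) + t ≤ (I t : ℕ) + s := by
  have h1 : ∀ (j : ℕ) (s : Fin m) (hj : s.1 + j < m), (I s : ℕ) + j ≤ (I ⟨s.1 + j, hj⟩ : ℕ) := by
    intro j
    induction j with
    | zero => intro s hj; simp
    | succ j ih =>
      intro s hj
      have h1 := ih s (by omega)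
      have h2 : (I ⟨s.1 + j, by omega⟩ : ℕ) < (I ⟨s.1 + (j + 1), hj⟩ : ℕ) := by
        have : (⟨s.1 + j, by omega⟩ : Fin m) < ⟨s.1 + (j + 1), hj⟩ := Fin.mk_lt_mk.2 (by omega)
        exact_mod_cast I.strictMono this
      omega
  have h2 := h1 (t.1 - s.1) s (by have := t.2; omega)
  have h3 : (⟨s.1 + (t.1 - s.1), by have := t.2; have : s.1 ≤ t.1 := h; omega⟩ : Fin m) = t :=
    Fin.ext (by have : s.1 ≤ t.1 := h; simp; omega)
  rw [h3] at h2
  have : s.1 ≤ t.1 := h
  omega

theorem idx_le_add (I : Fin m ↪o Fin n) (t : Fin m) : (I t : ℕ) ≤ t + dimIdx I := by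
  have h : (I t : ℕ) - t ≤ dimIdx I :=
    Finset.single_le_sum (f := fun t : Fin m => ((I t : ℕ) - (t : ℕ))) (fun _ _ => Nat.zero_le _)
      (Finset.mem_univ t)
  omega

theorem idx_eq_of_lt (I : Fin m ↪o Fin n) (t : Fin m) (ht : (t : ℕ) + dimIdx I < m) :
    (I t : ℕ) = t := by
  by_contra hne
  have h0 := le_idx I t
  have h1 : ∑ s ∈ Finset.univ.filter (fun s : Fin m => t ≤ s), 1 ≤ dimIdx I := by
    unfold dimIdx
    refine (Finset.sum_le_sum ?_).trans (Finset.sum_le_sum_of_subset (Finset.filter_subset _ _))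
    intro s hs
    have h2 := idx_sub_mono I (Finset.mem_filter.1 hs).2
    have h3 := le_idx I s
    omega
  rw [Finset.sum_const, smul_eq_mul, mul_one] at h1
  have h2 : (Finset.univ.filter (fun s : Fin m => t ≤ s)).card = m - t := by
    have : Finset.univ.filter (fun s : Fin m => t ≤ s) = Finset.Ici t := by
      ext s; simp
    rw [this, Fin.card_Ici]
  omega

theorem schubert_le {k : ℕ} (I : Fin m ↪o Fin n) (hI : dimIdx I = k) (h : GL (Fin n) ℂ)
    {V : Gr m n} (hV : V ∈ schubert I h.1) :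
    (low n (m - k)).map (Matrix.toLin' h.1) ≤ V.1 ∧
      V.1 ≤ (low n (min (m + k) n)).map (Matrix.toLin' h.1) := by
  constructor
  · rcases Nat.eq_zero_or_pos (m - k) with h0 | h0
    · rw [h0]
      have : low n 0 = ⊥ := by
        rw [eq_bot_iff]
        intro v hv
        rw [Submodule.mem_bot]
        funext i
        exact hv i (Nat.zero_le _)
      rw [this, Submodule.map_bot]
      exact bot_le
    · have hlt : m - k - 1 < m := by omega
      have h1 := hV ⟨m - k - 1, hlt⟩
      have h2 : (I ⟨m - k - 1, hlt⟩ : ℕ) = m - k - 1 :=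
        idx_eq_of_lt I ⟨m - k - 1, hlt⟩ (by rw [hI]; show m - k - 1 + k < m; omega)
      rw [h2] at h1
      have h3 : m - k - 1 + 1 = m - k := by omega
      have h1 : m - k ≤ finrank ℂ ↥(V.1 ⊓ lowG h.1 (m - k)) := by
        have h6 : m - k - 1 + 1 ≤ finrank ℂ ↥(V.1 ⊓ lowG h.1 (m - k - 1 + 1)) := h1
        rwa [h3] at h6
      have hmn : m ≤ n := by
        have := (Fintype.card_le_of_injective I I.injective)
        simpa using this
      have h4 : finrank ℂ ↥(lowG h.1 (m - k)) = m - k := finrank_lowG h (by omega)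
      have h5 : V.1 ⊓ lowG h.1 (m - k) = lowG h.1 (m - k) :=
        Submodule.eq_of_le_of_finrank_le inf_le_right (by rw [h4]; exact h1)
      exact inf_eq_right.1 h5
  · rcases Nat.eq_zero_or_pos m with h0 | h0
    · have : V.1 = ⊥ := by
        apply Submodule.finrank_eq_zero.1
        rw [V.2, h0]
      rw [this]; exact bot_le
    · have hlt : m - 1 < m := by omega
      have h1 := hV ⟨m - 1, hlt⟩
      have h2 := idx_le_add I ⟨m - 1, hlt⟩
      have h3 : (⟨m - 1, hlt⟩ : Fin m).1 = m - 1 := rfl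
      rw [h3] at h2
      have h5 : V.1 ⊓ lowG h.1 ((I ⟨m - 1, hlt⟩ : ℕ) + 1) = V.1 :=
        Submodule.eq_of_le_of_finrank_le inf_le_left (by
          rw [V.2]
          refine le_trans ?_ h1
          show m ≤ m - 1 + 1
          omega)
      refine (inf_eq_left.1 h5).trans (lowG_mono h.1 ?_)
      have := (I ⟨m - 1, hlt⟩).2
      rw [hI] at h2
      omega

end Pool.Agent.GrCyc
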