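import Pool.Agent.GrCyc.Param
import Pool.Agent.Work.MP_b62148_ag.HS

/-! A form of degree `d ≥ 1` vanishes on a large sub-Grassmannian `{A ≤ V ≤ B}` if `n` is large. -/

namespace Pool.Agent.GrCyc

open MvPolynomial Module

variable {m n : ℕ}

theorem eval_zero_hom {σ : Type*} {d : ℕ} (hd : 1 ≤ d) {P : MvPolynomial σ ℂ}
    (hP : P.IsHomogeneous d) : eval (0 : σ → ℂ) P = 0 := by
  have h := eval_smul_of_hom hP 0 (0 : σ → ℂ)
  rw [zero_pow (by omega), zero_mul] at h
  rw [← h]
  congr 1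
  congr 1
  funext i
  simp

/-- a family of `m` vectors spanning a subspace of the interval -/
theorem eval_plu_of_interval {d : ℕ} (hd : 1 ≤ d) {P : MvPolynomial (Fin m ↪o Fin n) ℂ}
    (hP : P.IsHomogeneous d) {A B : Submodule ℂ (Fin n → ℂ)}
    (hV : ∀ V : Gr m n, A ≤ V.1 → V.1 ≤ B → V ∈ zeros P) (R : Fin m → Fin n → ℂ)
    (h1 : A ≤ Submodule.span ℂ (Set.range R)) (h2 : Submodule.span ℂ (Set.range R) ≤ B) :
    eval (plu R) P = 0 := by
  by_cases hR : LinearIndependent ℂ R
  · exact (mem_zeros_iff hP (V := ofBasis R hR) rfl).1 (hV (ofBasis R hR) h1 h2)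
  · rw [plu_eq_zero hR]
    exact eval_zero_hom hd hP

theorem exists_ext {A B : Submodule ℂ (Fin n → ℂ)} (hAB : A ≤ B) {s t : ℕ}
    (hA : finrank ℂ A = s) (hB : finrank ℂ B = s + t) :
    ∃ β : Fin t → Fin n → ℂ, A ⊔ Submodule.span ℂ (Set.range β) = B := by
  obtain ⟨C, hC⟩ := Submodule.exists_isCompl A
  have h1 : A ⊔ (C ⊓ B) = B := by
    rw [← sup_inf_assoc_of_le C hAB, hC.sup_eq_top, top_inf_eq]
  have h2 : A ⊓ (C ⊓ B) = ⊥ := by
    rw [← inf_assoc, hC.inf_eq_bot, bot_inf_eq]
  have h3 := Submodule.finrank_sup_add_finrank_inf_eq A (C ⊓ B)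
  rw [h1, h2, finrank_bot, hA, hB] at h3
  have h4 : finrank ℂ ↥(C ⊓ B) = t := by omega
  let b := finBasisOfFinrankEq ℂ ↥(C ⊓ B) h4
  refine ⟨fun i => (b i : Fin n → ℂ), ?_⟩
  have h5 : Submodule.span ℂ (Set.range fun i => (b i : Fin n → ℂ)) = C ⊓ B := by
    have := congrArg (Submodule.map (C ⊓ B).subtype) b.span_eq
    rw [Submodule.map_span, Submodule.map_top, Submodule.range_subtype, ← Set.range_comp] at this
    exact this
  rw [h5, h1]

theorem ext_indep {A : Submodule ℂ (Fin n → ℂ)} {s t : ℕ}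
    (hA : finrank ℂ A = s) {β : Fin t → Fin n → ℂ}
    (hB : finrank ℂ ↥(A ⊔ Submodule.span ℂ (Set.range β)) = s + t)
    {c : Fin t → ℂ} (hc : ∑ i, c i • β i ∈ A) : c = 0 := by
  have h1 := Submodule.finrank_sup_add_finrank_inf_eq A (Submodule.span ℂ (Set.range β))
  have h2 : finrank ℂ ↥(Submodule.span ℂ (Set.range β)) ≤ t := by
    have := finrank_range_le_card (R := ℂ) (b := β)
    simpa [Set.finrank] using this
  rw [hB, hA] at h1
  have h3 : finrank ℂ ↥(Submodule.span ℂ (Set.range β)) = t := by omega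
  have h4 : finrank ℂ ↥(A ⊓ Submodule.span ℂ (Set.range β)) = 0 := by omega
  have h5 : A ⊓ Submodule.span ℂ (Set.range β) = ⊥ := Submodule.finrank_eq_zero.1 h4
  have hli : LinearIndependent ℂ β := by
    rw [linearIndependent_iff_card_eq_finrank_span, Set.finrank, h3, Fintype.card_fin]
  have h6 : ∑ i, c i • β i ∈ A ⊓ Submodule.span ℂ (Set.range β) :=
    ⟨hc, Submodule.sum_mem _ fun i _ => Submodule.smul_mem _ _ (Submodule.subset_span ⟨i, rfl⟩)⟩
  rw [h5, Submodule.mem_bot] at h6
  funext i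
  exact Fintype.linearIndependent_iff.1 hli c h6 i

theorem exists_span {A : Submodule ℂ (Fin n → ℂ)} {s : ℕ} (hA : finrank ℂ A = s) :
    ∃ α : Fin s → Fin n → ℂ, Submodule.span ℂ (Set.range α) = A := by
  obtain ⟨α, h⟩ := exists_ext (A := ⊥) (B := A) bot_le (s := 0) (t := s) (by simp) (by omega)
  exact ⟨α, by simpa using h⟩

theorem finrank_sup_singleton {C : Submodule ℂ (Fin n → ℂ)} {v : Fin n → ℂ} (hv : v ∉ C) :
    finrank ℂ ↥(C ⊔ Submodule.span ℂ {v}) = finrank ℂ C + 1 := by
  have h := Submodule.finrank_sup_add_finrank_inf_eq C (Submodule.span ℂ {v})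
  have hv0 : v ≠ 0 := fun h => hv (h ▸ C.zero_mem)
  have hd : C ⊓ Submodule.span ℂ {v} = ⊥ := by
    rw [← disjoint_iff]
    exact (Submodule.disjoint_span_singleton' hv0).2 hv
  rw [hd, finrank_bot, finrank_span_singleton hv0] at h
  omega

theorem exists_between {A B : Submodule ℂ (Fin n → ℂ)} (hAB : A ≤ B) {r : ℕ}
    (h1 : finrank ℂ A ≤ r) (h2 : r ≤ finrank ℂ B) :
    ∃ C : Submodule ℂ (Fin n → ℂ), A ≤ C ∧ C ≤ B ∧ finrank ℂ C = r := by
  induction r, h1 using Nat.le_induction with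
  | base => exact ⟨A, le_rfl, hAB, rfl⟩
  | succ r hr ih =>
    obtain ⟨C, hAC, hCB, hC⟩ := ih (by omega)
    have hne : ¬ B ≤ C := by
      intro h
      have := Submodule.finrank_mono h
      omega
    obtain ⟨v, hvB, hvC⟩ := Set.not_subset.1 hne
    refine ⟨C ⊔ Submodule.span ℂ {v}, hAC.trans le_sup_left,
      sup_le hCB ((Submodule.span_singleton_le_iff_mem v B).2 hvB), ?_⟩
    rw [finrank_sup_singleton hvC, hC]

theorem exists_above {A : Submodule ℂ (Fin n → ℂ)} {r : ℕ} (h1 : finrank ℂ A ≤ r) (h2 : r ≤ n) :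
    ∃ C : Submodule ℂ (Fin n → ℂ), A ≤ C ∧ finrank ℂ C = r := by
  obtain ⟨C, h, -, h'⟩ := exists_between (le_top : A ≤ ⊤) h1 (by simpa using h2)
  exact ⟨C, h, h'⟩

theorem exists_below {B : Submodule ℂ (Fin n → ℂ)} {r : ℕ} (h2 : r ≤ finrank ℂ B) :
    ∃ C : Submodule ℂ (Fin n → ℂ), C ≤ B ∧ finrank ℂ C = r := by
  obtain ⟨C, -, h, h'⟩ := exists_between (bot_le : ⊥ ≤ B) (by simp) h2
  exact ⟨C, h, h'⟩

theorem exists_zero {d : ℕ} (hd : 1 ≤ d) (hm : 1 ≤ m) (hmn : m < n)
    {P : MvPolynomial (Fin m ↪o Fin n) ℂ} (hP : P.IsHomogeneous d) : (zeros P).Nonempty := by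
  obtain ⟨s, rfl⟩ : ∃ s, m = s + 1 := ⟨m - 1, by omega⟩
  obtain ⟨A, -, hA⟩ := exists_above (n := n) (A := ⊥) (r := s) (by simp) (by omega)
  obtain ⟨B, hAB, hB⟩ := exists_above (A := A) (r := s + 2) (by omega) (by omega)
  obtain ⟨α, hα⟩ := exists_span hA
  obtain ⟨w, hw⟩ := exists_ext hAB hA hB
  let M : Fin (s + 1) → Fin n → MvPolynomial (Fin 2) ℂ := fun i j =>
    Fin.cases (∑ q, X q * C (w q j)) (fun i' => C (α i' j)) i
  have hM : ∀ x : Fin 2 → ℂ, evalM M x = Fin.cases (∑ q, x q • w q) α := by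
    intro x
    funext i j
    refine Fin.cases ?_ (fun i' => ?_) i
    · simp [M, evalM]
    · simp [M, evalM]
  obtain ⟨x, hx0, hx⟩ := Pool.Agent.Work.PD.exists_common_zero (K := ℂ) (n := 2) (m := 1) (by omega)
    (fun _ => pull M P) (by
      intro _
      rw [eval_pull, plu_eq_zero, eval_zero_hom hd hP]
      rw [hM]
      intro h
      exact h.ne_zero 0 (by simp))
  have hx := hx 0
  rw [eval_pull, hM] at hx
  -- the family is independent
  have hspan : Submodule.span ℂ (Set.range (Fin.cases (∑ q, x q • w q) α : Fin (s + 1) → Fin n → ℂ))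
      = A ⊔ Submodule.span ℂ {∑ q, x q • w q} := by
    have : Set.range (Fin.cases (∑ q, x q • w q) α : Fin (s + 1) → Fin n → ℂ)
        = insert (∑ q, x q • w q) (Set.range α) := by
      ext y
      constructor
      · rintro ⟨i, rfl⟩
        refine Fin.cases ?_ (fun i' => ?_) i
        · left; rfl
        · right; exact ⟨i', rfl⟩
      · rintro (h | ⟨i, rfl⟩)
        · exact ⟨0, h.symm⟩
        · exact ⟨i.succ, rfl⟩
    rw [this, Submodule.span_insert, hα, sup_comm]
  have hnot : (∑ q, x q • w q) ∉ A := by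
    intro hmem
    exact hx0 (ext_indep hA (by rw [hw, hB]) hmem)
  have hli : LinearIndependent ℂ (Fin.cases (∑ q, x q • w q) α : Fin (s + 1) → Fin n → ℂ) := by
    rw [linearIndependent_iff_card_eq_finrank_span, Set.finrank, hspan,
      finrank_sup_singleton hnot, hA, Fintype.card_fin]
  exact ⟨ofBasis _ hli, (mem_zeros_iff hP (V := ofBasis _ hli) rfl).2 hx⟩

/-- the grid argument -/
theorem exists_grid_zero {τ : Type*} [Fintype τ] {N d : ℕ} (Φ : (Fin N → ℂ) → (τ → ℂ) → ℂ)
    (F : (τ → ℂ) → MvPolynomial (Fin N) ℂ) (hF : ∀ c x, eval x (F c) = Φ x c)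
    (G : (Fin N → ℂ) → MvPolynomial τ ℂ) (hG : ∀ x c, eval c (G x) = Φ x c)
    (hdeg : ∀ x v, degreeOf v (G x) ≤ d) (h0 : ∀ c, Φ 0 c = 0)
    (hN : (d + 1) ^ (Fintype.card τ) < N) : ∃ x : Fin N → ℂ, x ≠ 0 ∧ ∀ c, Φ x c = 0 := by
  classical
  let e : (τ → Fin (d + 1)) ≃ Fin ((d + 1) ^ (Fintype.card τ)) :=
    Fintype.equivFinOfCardEq (by simp)
  obtain ⟨x, hx0, hx⟩ := Pool.Agent.Work.PD.exists_common_zero (K := ℂ) hN
    (fun i => F (fun v => (((e.symm i v : Fin (d + 1)) : ℕ) : ℂ))) (by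
      intro i
      rw [hF, h0])
  refine ⟨x, hx0, ?_⟩
  have hz : G x = 0 := by
    refine MvPolynomial.eq_zero_of_eval_zero_at_prod_finset (G x)
      (fun _ => (Finset.range (d + 1)).image (fun j : ℕ => (j : ℂ))) ?_ ?_
    · intro v
      rw [Finset.card_image_of_injective _ Nat.cast_injective, Finset.card_range]
      exact Nat.lt_succ_of_le (hdeg x v)
    · intro c hc
      have h1 : ∀ v, ∃ j : Fin (d + 1), ((j : ℕ) : ℂ) = c v := by
        intro v
        obtain ⟨j, hj, hjc⟩ := Finset.mem_image.1 (hc v)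
        exact ⟨⟨j, Finset.mem_range.1 hj⟩, hjc⟩
      choose g hg using h1
      have h2 := hx (e g)
      simp only [Equiv.symm_apply_apply] at h2
      rw [hF] at h2
      rw [hG]
      convert h2 using 2
      funext v
      exact (hg v).symm
  intro c
  rw [← hG, hz, map_zero]

/-- rows: a fixed family `α` and `a` combinations of `v, β` with coefficients `c` -/
noncomputable def rowsA {s a t : ℕ} (α : Fin s → Fin n → ℂ) (β : Fin t → Fin n → ℂ)
    (v : Fin n → ℂ) (c : Fin a × Fin (t + 1) → ℂ) : Fin (s + a) → Fin n → ℂ :=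
  Fin.append α (fun r => ∑ l : Fin (t + 1), c (r, l) • (Fin.cases v β l : Fin n → ℂ))

theorem span_rowsA {s a t : ℕ} (α : Fin s → Fin n → ℂ) (β : Fin t → Fin n → ℂ)
    (v : Fin n → ℂ) (c : Fin a × Fin (t + 1) → ℂ) :
    Submodule.span ℂ (Set.range (rowsA α β v c)) = Submodule.span ℂ (Set.range α) ⊔
      Submodule.span ℂ (Set.range fun r : Fin a =>
        ∑ l : Fin (t + 1), c (r, l) • (Fin.cases v β l : Fin n → ℂ)) := by
  rw [← Submodule.span_union]
  congr 1
  ext y
  constructor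
  · rintro ⟨i, rfl⟩
    refine Fin.addCases (fun i => ?_) (fun i => ?_) i
    · left; exact ⟨i, by simp [rowsA]⟩
    · right; exact ⟨i, by simp [rowsA]⟩
  · rintro (⟨i, rfl⟩ | ⟨i, rfl⟩)
    · exact ⟨Fin.castAdd a i, by simp [rowsA]⟩
    · exact ⟨Fin.natAdd s i, by simp [rowsA]⟩

/-- every `V` between `A` and `A + ⟨v, β⟩` has a basis of the form `rowsA` -/
theorem exists_rowsA {s a t : ℕ} {α : Fin s → Fin n → ℂ} {A : Submodule ℂ (Fin n → ℂ)}
    (hα : Submodule.span ℂ (Set.range α) = A) (hA : finrank ℂ A = s) (β : Fin t → Fin n → ℂ)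
    (v : Fin n → ℂ) {V : Submodule ℂ (Fin n → ℂ)} (hV : finrank ℂ V = s + a) (hAV : A ≤ V)
    (hVB : V ≤ A ⊔ Submodule.span ℂ (Set.range (Fin.cases v β : Fin (t + 1) → Fin n → ℂ))) :
    ∃ c : Fin a × Fin (t + 1) → ℂ, Submodule.span ℂ (Set.range (rowsA α β v c)) = V := by
  obtain ⟨γ, hγ⟩ := exists_ext hAV hA hV
  have h1 : ∀ r, ∃ c : Fin (t + 1) → ℂ,
      γ r - ∑ l : Fin (t + 1), c l • (Fin.cases v β l : Fin n → ℂ) ∈ A := by
    intro r
    have h2 : γ r ∈ A ⊔ Submodule.span ℂ (Set.range (Fin.cases v β : Fin (t + 1) → Fin n → ℂ)) :=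
      hVB (hγ ▸ (le_sup_right : _ ≤ A ⊔ Submodule.span ℂ (Set.range γ))
        (Submodule.subset_span ⟨r, rfl⟩))
    obtain ⟨x, hx, y, hy, hxy⟩ := Submodule.mem_sup.1 h2
    obtain ⟨c, hc⟩ := (Submodule.mem_span_range_iff_exists_fun ℂ).1 hy
    refine ⟨c, ?_⟩
    rw [hc, ← hxy]
    simpa using hx
  choose c hc using h1
  refine ⟨fun p => c p.1 p.2, ?_⟩
  rw [span_rowsA, hα]
  rw [← hγ]
  apply le_antisymm
  · refine sup_le le_sup_left (Submodule.span_le.2 ?_)
    rintro _ ⟨r, rfl⟩
    have h3 : γ r ∈ A ⊔ Submodule.span ℂ (Set.range γ) :=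
      (le_sup_right : _ ≤ A ⊔ Submodule.span ℂ (Set.range γ)) (Submodule.subset_span ⟨r, rfl⟩)
    have h4 := Submodule.sub_mem _ h3 ((le_sup_left : A ≤ A ⊔ Submodule.span ℂ (Set.range γ)) (hc r))
    simpa using h4
  · refine sup_le le_sup_left (Submodule.span_le.2 ?_)
    rintro _ ⟨r, rfl⟩
    have h3 : (∑ l : Fin (t + 1), c r l • (Fin.cases v β l : Fin n → ℂ)) ∈
        A ⊔ Submodule.span ℂ (Set.range fun r : Fin a =>
          ∑ l : Fin (t + 1), c r l • (Fin.cases v β l : Fin n → ℂ)) :=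
      (le_sup_right : _ ≤ A ⊔ Submodule.span ℂ (Set.range fun r : Fin a =>
          ∑ l : Fin (t + 1), c r l • (Fin.cases v β l : Fin n → ℂ)))
        (Submodule.subset_span ⟨r, rfl⟩)
    have h4 := Submodule.add_mem _ ((le_sup_left : A ≤ A ⊔ Submodule.span ℂ (Set.range
      fun r : Fin a => ∑ l : Fin (t + 1), c r l • (Fin.cases v β l : Fin n → ℂ))) (hc r)) h3
    simpa using h4

/-- the vector with coordinates `x` in the family `w` -/
noncomputable def comb {N : ℕ} (w : Fin N → Fin n → ℂ) (x : Fin N → ℂ) : Fin n → ℂ :=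
  ∑ q, x q • w q

theorem enlarge {d : ℕ} (hd : 1 ≤ d) {P : MvPolynomial (Fin m ↪o Fin n) ℂ} (hP : P.IsHomogeneous d)
    (a b : ℕ) {A B : Submodule ℂ (Fin n → ℂ)} (hAB : A ≤ B) (hA : finrank ℂ A + a = m)
    (hB : finrank ℂ B = m + b) (hn : m + b + (d + 1) ^ (a * (a + b + 1)) < n)
    (hV : ∀ V : Gr m n, A ≤ V.1 → V.1 ≤ B → V ∈ zeros P) :
    ∃ B' : Submodule ℂ (Fin n → ℂ), B ≤ B' ∧ finrank ℂ B' = m + b + 1 ∧
      ∀ V : Gr m n, A ≤ V.1 → V.1 ≤ B' → V ∈ zeros P := by
  obtain ⟨s, hs⟩ : ∃ s, finrank ℂ A = s := ⟨_, rfl⟩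
  rw [hs] at hA
  subst hA
  obtain ⟨α, hα⟩ := exists_span hs
  obtain ⟨β, hβ⟩ := exists_ext (t := a + b) hAB hs (by omega)
  obtain ⟨N, hN⟩ : ∃ N, n = s + a + b + N := ⟨n - (s + a + b), by omega⟩
  obtain ⟨w, hw⟩ := exists_ext (A := B) (B := ⊤) (s := s + a + b) (t := N) le_top hB
    (by rw [finrank_top, finrank_fin_fun]; exact hN)
  obtain ⟨x, hx0, hx⟩ := exists_grid_zero (τ := Fin a × Fin (a + b + 1)) (N := N) (d := d)
    (fun x c => eval (plu (rowsA α β (comb w x) c)) P)
    (fun c => pull (fun i j => Fin.addCases (fun i' => C (α i' j))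
      (fun r => ∑ l, C (c (r, l)) * Fin.cases (∑ q, X q * C (w q j)) (fun l' => C (β l' j)) l) i) P)
    (by
      intro c x
      show eval x (pull _ P) = _
      rw [eval_pull]
      congr 3
      funext i j
      refine Fin.addCases (fun i => ?_) (fun r => ?_) i
      · simp [evalM, rowsA]
      · simp only [evalM, rowsA, Fin.addCases_right, Fin.append_right, map_sum, map_mul, eval_C,
          Finset.sum_apply, Pi.smul_apply, smul_eq_mul]
        refine Finset.sum_congr rfl fun l _ => ?_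
        congr 1
        refine Fin.cases ?_ (fun l' => ?_) l
        · simp [comb]
        · simp)
    (fun x => pull (fun i j => Fin.addCases (fun i' => C (α i' j))
      (fun r => ∑ l, X (r, l) * C ((Fin.cases (comb w x) β l : Fin n → ℂ) j)) i) P)
    (by
      intro x c
      show eval c (pull _ P) = _
      rw [eval_pull]
      congr 3
      funext i j
      refine Fin.addCases (fun i => ?_) (fun r => ?_) i
      · simp [evalM, rowsA]
      · simp [evalM, rowsA])
    (by
      rintro x ⟨r, l⟩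
      refine degreeOf_pull_le _ (r, l) (Fin.natAdd s r) ?_ ?_ hP
      · intro j
        simp only [Fin.addCases_right]
        refine (degreeOf_sum_le _ _ _).trans (Finset.sup_le fun l' _ => ?_)
        refine (degreeOf_mul_le _ _ _).trans ?_
        rw [degreeOf_C, add_zero]
        classical
        rw [degreeOf_X]
        split_ifs <;> simp
      · intro i j hi
        induction i using Fin.addCases with
        | left i => simp only [Fin.addCases_left, degreeOf_C]
        | right r' =>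
          simp only [Fin.addCases_right]
          have hr : r' ≠ r := fun h => hi (by rw [h])
          refine Nat.le_zero.1 ?_
          refine (degreeOf_sum_le _ _ _).trans (Finset.sup_le fun l' _ => ?_)
          refine (degreeOf_mul_le _ _ _).trans ?_
          rw [degreeOf_C, add_zero, degreeOf_X_of_ne]
          intro h
          exact hr (Prod.ext_iff.1 h).1.symm)
    (by
      intro c
      refine eval_plu_of_interval hd hP hV _ ?_ ?_
      · rw [span_rowsA, hα]
        exact le_sup_left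
      · rw [span_rowsA, hα]
        refine sup_le hAB (Submodule.span_le.2 ?_)
        rintro _ ⟨r, rfl⟩
        refine Submodule.sum_mem _ fun l _ => Submodule.smul_mem _ _ ?_
        refine Fin.cases ?_ (fun l' => ?_) l
        · simp [comb]
        · rw [← hβ]
          exact (le_sup_right : _ ≤ A ⊔ Submodule.span ℂ (Set.range β))
            (Submodule.subset_span ⟨l', rfl⟩))
    (by
      rw [Fintype.card_prod, Fintype.card_fin, Fintype.card_fin]
      omega)
  have hnot : comb w x ∉ B := by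
    intro hmem
    exact hx0 (ext_indep hB (by rw [hw, finrank_top, finrank_fin_fun]; exact hN) hmem)
  refine ⟨B ⊔ Submodule.span ℂ {comb w x}, le_sup_left, ?_, ?_⟩
  · rw [finrank_sup_singleton hnot, hB]
  · intro V hAV hVB
    obtain ⟨c, hc⟩ := exists_rowsA hα hs β (comb w x) V.2 hAV (by
      refine hVB.trans ?_
      rw [← hβ]
      refine sup_le (sup_le le_sup_left ?_) ?_
      · refine le_sup_of_le_right (Submodule.span_mono ?_)
        rintro _ ⟨i, rfl⟩
        exact ⟨i.succ, rfl⟩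
      · refine le_sup_of_le_right (Submodule.span_mono ?_)
        rintro _ rfl
        exact ⟨0, rfl⟩)
    exact (mem_zeros_iff hP hc).2 (hx c)

/-- bordered determinants: for `ξ ≠ 0` the vector of determinants of `(ξ | v_K)` is proportional to
the Plücker vector of a spanning family of `{∑ c_i v_i : ∑ c_i ξ_i = 0}` -/
theorem bordered (v : Fin (m + 1) → Fin n → ℂ) (ξ : Fin (m + 1) → ℂ) (hξ : ξ ≠ 0) :
    ∃ (A : Fin m → Fin n → ℂ) (δ : ℂ), δ ≠ 0 ∧
      (∀ K : Fin m ↪o Fin n, δ * Matrix.det (Matrix.of fun i (j : Fin (m + 1)) =>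
        Fin.cases (ξ i) (fun j' => v i (K j')) j) = plu A K) ∧
      ∀ w : Fin n → ℂ, w ∈ Submodule.span ℂ (Set.range A) ↔
        ∃ c : Fin (m + 1) → ℂ, ∑ i, c i * ξ i = 0 ∧ w = ∑ i, c i • v i := by
  obtain ⟨i0, hi0⟩ : ∃ i, ξ i ≠ 0 := by
    by_contra h
    push Not at h
    exact hξ (funext h)
  refine ⟨fun i => v (i0.succAbove i) - (ξ (i0.succAbove i) / ξ i0) • v i0,
    ((-1) ^ (i0 : ℕ) * ξ i0)⁻¹, ?_, ?_, ?_⟩
  · exact inv_ne_zero (mul_ne_zero (pow_ne_zero _ (by norm_num)) hi0)
  · intro K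
    set M : Matrix (Fin (m + 1)) (Fin (m + 1)) ℂ := Matrix.of fun i (j : Fin (m + 1)) =>
        Fin.cases (ξ i) (fun j' => v i (K j')) j with hM
    let M' : Matrix (Fin (m + 1)) (Fin (m + 1)) ℂ := Matrix.of fun i j =>
      if i = i0 then M i0 j else M i j - (ξ i / ξ i0) * M i0 j
    have h1 : M.det = M'.det := by
      refine Matrix.det_eq_of_forall_row_eq_smul_add_const
        (fun i => if i = i0 then 0 else ξ i / ξ i0) i0 (by simp) ?_
      intro i j
      by_cases hi : i = i0
      · simp [M', hi]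
      · simp [M', hi]
    have h2 : M'.det = (-1) ^ (i0 : ℕ) * ξ i0 *
        (M'.submatrix i0.succAbove Fin.succ).det := by
      rw [Matrix.det_succ_column_zero, Finset.sum_eq_single i0]
      · simp [M', hM]
      · intro i _ hi
        have : M' i 0 = 0 := by
          simp only [M', Matrix.of_apply, if_neg hi, hM, Fin.cases_zero]
          field_simp
          ring
        rw [this]
        ring
      · intro h; exact absurd (Finset.mem_univ _) h
    rw [h1, h2, ← mul_assoc, inv_mul_cancel₀ (mul_ne_zero (pow_ne_zero _ (by norm_num)) hi0),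
      one_mul]
    unfold plu
    congr 1
    ext i j
    simp [M', hM, Fin.succAbove_ne]
  · intro w
    rw [Submodule.mem_span_range_iff_exists_fun]
    constructor
    · rintro ⟨c, rfl⟩
      refine ⟨i0.insertNth (-(∑ i, c i * (ξ (i0.succAbove i) / ξ i0))) c, ?_, ?_⟩
      · rw [Fin.sum_univ_succAbove _ i0]
        simp only [Fin.insertNth_apply_same, Fin.insertNth_apply_succAbove]
        rw [neg_mul, Finset.sum_mul, neg_add_eq_zero]
        refine Finset.sum_congr rfl fun i _ => ?_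
        field_simp
      · rw [Fin.sum_univ_succAbove _ i0]
        simp only [Fin.insertNth_apply_same, Fin.insertNth_apply_succAbove, smul_sub,
          Finset.sum_sub_distrib, smul_smul, neg_smul, Finset.sum_smul]
        abel
    · rintro ⟨c, hc, rfl⟩
      refine ⟨fun i => c (i0.succAbove i), ?_⟩
      rw [Fin.sum_univ_succAbove _ i0] at hc ⊢
      simp only [smul_sub, Finset.sum_sub_distrib, smul_smul]
      rw [← Finset.sum_smul]
      have h3 : ∑ i, c (i0.succAbove i) * (ξ (i0.succAbove i) / ξ i0) = - c i0 := by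
        have h4 : ∑ i, c (i0.succAbove i) * ξ (i0.succAbove i) = - (c i0 * ξ i0) := by
          linear_combination hc
        simp_rw [← mul_div_assoc]
        rw [← Finset.sum_div, h4]
        field_simp
      rw [h3, neg_smul]
      abel

/-- the index `(0, K + 1)` -/
def bord (K : Fin m ↪o Fin n) : Fin (m + 1) ↪o Fin (n + 1) :=
  OrderEmbedding.ofStrictMono (Fin.cases 0 fun j => (K j).succ) (by
    intro i j h
    induction i using Fin.cases with
    | zero =>
      induction j using Fin.cases with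
      | zero => exact absurd h (lt_irrefl _)
      | succ j => exact Fin.succ_pos _
    | succ i =>
      induction j using Fin.cases with
      | zero => exact absurd h (Fin.not_lt_zero _)
      | succ j => simpa using h)

theorem bord_zero (K : Fin m ↪o Fin n) : bord K 0 = 0 := rfl

theorem bord_succ (K : Fin m ↪o Fin n) (j : Fin m) : bord K j.succ = (K j).succ := rfl

theorem eval_bord (v : Fin (m + 1) → Fin n → ℂ) (ξ : Fin (m + 1) → ℂ)
    (P : MvPolynomial (Fin m ↪o Fin n) ℂ) :
    eval (plu (fun i (j : Fin (n + 1)) => (Fin.cases (ξ i) (v i) j : ℂ))) (rename bord P) =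
      eval (fun K => Matrix.det (Matrix.of fun i (j : Fin (m + 1)) =>
        (Fin.cases (ξ i) (fun j' => v i (K j')) j : ℂ))) P := by
  rw [eval_rename]
  congr 2
  funext K
  unfold plu
  show Matrix.det _ = _
  congr 1
  ext i j
  induction j using Fin.cases with
  | zero => simp [bord_zero]
  | succ j => simp [bord_succ]

/-- the coefficients `ξ` -/
def xiB {s a t : ℕ} (x : Fin s → ℂ) (c : Fin (a + 1) × Fin (t + 1) → ℂ) :
    Fin (s + a + 1) → ℂ :=
  (Fin.append x (fun r => - c (r, 0)) : Fin (s + (a + 1)) → ℂ)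

/-- the family `(α, β(y))` -/
noncomputable def vB {s a t : ℕ} (α : Fin s → Fin n → ℂ) (β : Fin t → Fin n → ℂ)
    (c : Fin (a + 1) × Fin (t + 1) → ℂ) : Fin (s + a + 1) → Fin n → ℂ :=
  (Fin.append α (fun r => ∑ l, c (r, l.succ) • β l) : Fin (s + (a + 1)) → Fin n → ℂ)

theorem xiB_left {s a t : ℕ} (x : Fin s → ℂ) (c : Fin (a + 1) × Fin (t + 1) → ℂ) (i : Fin s) :
    xiB x c (Fin.castAdd (a + 1) i) = x i := Fin.append_left _ _ i

theorem xiB_right {s a t : ℕ} (x : Fin s → ℂ) (c : Fin (a + 1) × Fin (t + 1) → ℂ)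
    (r : Fin (a + 1)) : xiB x c (Fin.natAdd s r) = - c (r, 0) := Fin.append_right _ _ r

theorem vB_left {s a t : ℕ} (α : Fin s → Fin n → ℂ) (β : Fin t → Fin n → ℂ)
    (c : Fin (a + 1) × Fin (t + 1) → ℂ) (i : Fin s) :
    vB α β c (Fin.castAdd (a + 1) i) = α i := Fin.append_left _ _ i

theorem vB_right {s a t : ℕ} (α : Fin s → Fin n → ℂ) (β : Fin t → Fin n → ℂ)
    (c : Fin (a + 1) × Fin (t + 1) → ℂ) (r : Fin (a + 1)) :
    vB α β c (Fin.natAdd s r) = ∑ l, c (r, l.succ) • β l := Fin.append_right _ _ r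

/-- the bordered family -/
noncomputable def rowsB {s a t : ℕ} (α : Fin s → Fin n → ℂ) (β : Fin t → Fin n → ℂ)
    (x : Fin s → ℂ) (c : Fin (a + 1) × Fin (t + 1) → ℂ) : Fin (s + a + 1) → Fin (n + 1) → ℂ :=
  fun i j => Fin.cases (xiB x c i) (vB α β c i) j

theorem sum_vB {s a t : ℕ} (α : Fin s → Fin n → ℂ) (β : Fin t → Fin n → ℂ)
    (c : Fin (a + 1) × Fin (t + 1) → ℂ) (e : Fin (s + a + 1) → ℂ) :
    ∑ i, e i • vB α β c i = ∑ i, e (Fin.castAdd (a + 1) i) • α i +
      ∑ r, e (Fin.natAdd s r) • ∑ l, c (r, l.succ) • β l := by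
  refine (Fin.sum_univ_add (a := s) (b := a + 1) (fun i => e i • vB α β c i)).trans ?_
  simp only [vB_left, vB_right]

theorem sum_xiB {s a t : ℕ} (x : Fin s → ℂ) (c : Fin (a + 1) × Fin (t + 1) → ℂ)
    (e : Fin (s + a + 1) → ℂ) :
    ∑ i, e i * xiB x c i = ∑ i, e (Fin.castAdd (a + 1) i) * x i -
      ∑ r, e (Fin.natAdd s r) * c (r, 0) := by
  refine (Fin.sum_univ_add (a := s) (b := a + 1) (fun i => e i * xiB x c i)).trans ?_
  simp only [xiB_left, xiB_right, mul_neg, Finset.sum_neg_distrib, sub_eq_add_neg]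

theorem shrink {d : ℕ} (hd : 1 ≤ d) {P : MvPolynomial (Fin m ↪o Fin n) ℂ} (hP : P.IsHomogeneous d)
    (a b : ℕ) {A B : Submodule ℂ (Fin n → ℂ)} (hAB : A ≤ B) (hA : finrank ℂ A + a = m)
    (hB : finrank ℂ B = m + b) (hn : (d + 1) ^ ((a + 1) * (a + b + 1)) < finrank ℂ A)
    (hV : ∀ V : Gr m n, A ≤ V.1 → V.1 ≤ B → V ∈ zeros P) :
    ∃ A' : Submodule ℂ (Fin n → ℂ), A' ≤ A ∧ finrank ℂ A' + (a + 1) = m ∧
      ∀ V : Gr m n, A' ≤ V.1 → V.1 ≤ B → V ∈ zeros P := by
  obtain ⟨s, hs⟩ : ∃ s, finrank ℂ A = s := ⟨_, rfl⟩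
  rw [hs] at hA hn
  subst hA
  obtain ⟨α, hα⟩ := exists_span hs
  obtain ⟨β, hβ⟩ := exists_ext (t := a + b) hAB hs (by omega)
  have hmemα : ∀ i, α i ∈ A := fun i => hα ▸ Submodule.subset_span ⟨i, rfl⟩
  have hmemβ : ∀ i, β i ∈ B := fun i => hβ ▸
    (le_sup_right : _ ≤ A ⊔ Submodule.span ℂ (Set.range β)) (Submodule.subset_span ⟨i, rfl⟩)
  obtain ⟨x, hx0, hx⟩ := exists_grid_zero (τ := Fin (a + 1) × Fin (a + b + 1)) (N := s) (d := d)
    (fun x c => eval (plu (rowsB α β x c)) (rename bord P))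
    (fun c => pull (m := s + a + 1) (n := n + 1) (fun i j =>
      Fin.addCases (m := s) (n := a + 1)
      (fun i' => Fin.cases (X i') (fun j' => C (α i' j')) j)
      (fun r => Fin.cases (C (- c (r, 0))) (fun j' => C ((∑ l, c (r, l.succ) • β l) j')) j) i)
      (rename bord P))
    (by
      intro c x
      show eval x (pull _ (rename bord P)) = _
      rw [eval_pull]
      congr 3
      funext i j
      refine Fin.addCases (m := s) (n := a + 1) (fun i => ?_) (fun r => ?_) i
      · refine Fin.cases ?_ (fun j' => ?_) j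
        · simp [evalM, rowsB, xiB]
        · simp [evalM, rowsB, vB]
      · refine Fin.cases ?_ (fun j' => ?_) j
        · simp [evalM, rowsB, xiB]
        · simp [evalM, rowsB, vB])
    (fun x => pull (m := s + a + 1) (n := n + 1) (fun i j =>
      Fin.addCases (m := s) (n := a + 1)
      (fun i' => C (Fin.cases (x i') (α i') j))
      (fun r => Fin.cases (- X (r, 0)) (fun j' => ∑ l, X (r, l.succ) * C (β l j')) j) i)
      (rename bord P))
    (by
      intro x c
      show eval c (pull _ (rename bord P)) = _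
      rw [eval_pull]
      congr 3
      funext i j
      refine Fin.addCases (m := s) (n := a + 1) (fun i => ?_) (fun r => ?_) i
      · refine Fin.cases ?_ (fun j' => ?_) j
        · simp [evalM, rowsB, xiB]
        · simp [evalM, rowsB, vB]
      · refine Fin.cases ?_ (fun j' => ?_) j
        · simp [evalM, rowsB, xiB]
        · simp [evalM, rowsB, vB])
    (by
      rintro x ⟨r, l⟩
      refine degreeOf_pull_le _ (r, l) (Fin.natAdd s r) ?_ ?_ hP.rename_isHomogeneous
      · intro j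
        simp only [Fin.addCases_right]
        refine Fin.cases ?_ (fun j' => ?_) j
        · classical
          simp only [Fin.cases_zero, degreeOf_neg, degreeOf_X]
          split_ifs <;> simp
        · simp only [Fin.cases_succ]
          refine (degreeOf_sum_le _ _ _).trans (Finset.sup_le fun l' _ => ?_)
          refine (degreeOf_mul_le _ _ _).trans ?_
          rw [degreeOf_C, add_zero]
          classical
          rw [degreeOf_X]
          split_ifs <;> simp
      · intro i j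
        refine Fin.addCases (m := s) (n := a + 1) (fun i => ?_) (fun r' => ?_) i
        · intro _
          simp only [Fin.addCases_left, degreeOf_C]
        · intro hi
          simp only [Fin.addCases_right]
          have hr : r' ≠ r := fun h => hi (by rw [h])
          refine Fin.cases ?_ (fun j' => ?_) j
          · simp only [Fin.cases_zero, degreeOf_neg]
            rw [degreeOf_X_of_ne]
            intro h
            exact hr (Prod.ext_iff.1 h).1.symm
          · simp only [Fin.cases_succ]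
            refine Nat.le_zero.1 ?_
            refine (degreeOf_sum_le _ _ _).trans (Finset.sup_le fun l' _ => ?_)
            refine (degreeOf_mul_le _ _ _).trans ?_
            rw [degreeOf_C, add_zero, degreeOf_X_of_ne]
            intro h
            exact hr (Prod.ext_iff.1 h).1.symm)
    (by
      intro c
      refine (eval_bord (m := s + a) (vB α β c) (xiB (0 : Fin s → ℂ) c) P).trans ?_
      by_cases hξ : xiB (0 : Fin s → ℂ) c = 0
      · have : (fun K : Fin (s + a) ↪o Fin n => Matrix.det (Matrix.of fun i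
            (j : Fin (s + a + 1)) => (Fin.cases (xiB (0 : Fin s → ℂ) c i)
              (fun j' => vB α β c i (K j')) j : ℂ))) = 0 := by
          funext K
          refine Matrix.det_eq_zero_of_column_eq_zero 0 ?_
          intro i
          simp only [Matrix.of_apply, Fin.cases_zero]
          exact congrFun hξ i
        rw [this]
        exact eval_zero_hom hd hP
      · obtain ⟨A'', δ, hδ, h1, h2⟩ :=
          bordered (m := s + a) (vB α β c) (xiB (0 : Fin s → ℂ) c) hξ
        have h3 : eval (plu A'') P = 0 := by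
          refine eval_plu_of_interval hd hP hV _ ?_ ?_
          · rw [← hα]
            refine Submodule.span_le.2 ?_
            rintro _ ⟨i, rfl⟩
            refine (h2 _).2 ⟨(Fin.append (Pi.single i 1) (fun _ => 0) :
              Fin (s + (a + 1)) → ℂ), ?_, ?_⟩
            · rw [sum_xiB]
              simp
            · rw [sum_vB]
              simp [Pi.single_apply]
          · intro y hy
            obtain ⟨e, -, rfl⟩ := (h2 y).1 hy
            refine Submodule.sum_mem _ fun i _ => Submodule.smul_mem _ _ ?_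
            refine Fin.addCases (m := s) (n := a + 1) (fun i => ?_) (fun r => ?_) i
            · rw [vB_left]; exact hAB (hmemα i)
            · rw [vB_right]
              exact Submodule.sum_mem _ fun l _ => Submodule.smul_mem _ _ (hmemβ l)
        have h4 : (plu A'' : (Fin (s + a) ↪o Fin n) → ℂ) = fun K => δ * Matrix.det (Matrix.of fun i
            (j : Fin (s + a + 1)) => (Fin.cases (xiB (0 : Fin s → ℂ) c i)
              (fun j' => vB α β c i (K j')) j : ℂ)) := by
          funext K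
          exact (h1 K).symm
        rw [h4, eval_smul_of_hom hP] at h3
        exact (mul_eq_zero.1 h3).resolve_left (pow_ne_zero _ hδ))
    (by
      rw [Fintype.card_prod, Fintype.card_fin, Fintype.card_fin]
      exact hn)
  have hli : LinearIndependent ℂ α := by
    rw [linearIndependent_iff_card_eq_finrank_span, Set.finrank, hα, hs, Fintype.card_fin]
  let f : (Fin s → ℂ) →ₗ[ℂ] ℂ := Fintype.linearCombination ℂ x
  have hf : ∀ y, f y = ∑ i, y i * x i := by
    intro y
    simp [f, Fintype.linearCombination_apply]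
  have hf0 : f ≠ 0 := by
    intro h
    apply hx0
    funext i
    have := LinearMap.congr_fun h (Pi.single i 1)
    rw [hf] at this
    simpa [Pi.single_apply] using this
  let A' : Submodule ℂ (Fin n → ℂ) := (LinearMap.ker f).map (Fintype.linearCombination ℂ α)
  have hmemA' : ∀ e : Fin s → ℂ, ∑ i, e i * x i = 0 → ∑ i, e i • α i ∈ A' := by
    intro e he
    refine ⟨e, ?_, by simp [Fintype.linearCombination_apply]⟩
    rw [SetLike.mem_coe, LinearMap.mem_ker, hf, he]
  have hA'A : A' ≤ A := by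
    rintro _ ⟨e, -, rfl⟩
    rw [Fintype.linearCombination_apply]
    exact Submodule.sum_mem _ fun i _ => Submodule.smul_mem _ _ (hmemα i)
  have hA'r : finrank ℂ A' + 1 = s := by
    have h1 : finrank ℂ A' = finrank ℂ (LinearMap.ker f) :=
      (Submodule.equivMapOfInjective _
        (linearIndependent_iff_injective_fintypeLinearCombination.1 hli) _).finrank_eq.symm
    have h2 := Module.Dual.finrank_ker_add_one_of_ne_zero hf0
    rw [h1, h2]
    simp
  refine ⟨A', hA'A, by omega, ?_⟩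
  intro V hAV hVB
  obtain ⟨γ, hγ⟩ := exists_ext (s := s - 1) (t := a + 1) hAV (by omega) (by rw [V.2]; omega)
  have h1 : ∀ r, ∃ (u : Fin s → ℂ) (y : Fin (a + b) → ℂ),
      γ r = ∑ i, u i • α i + ∑ l, y l • β l := by
    intro r
    have h2 : γ r ∈ A ⊔ Submodule.span ℂ (Set.range β) := by
      rw [hβ]
      exact hVB (hγ ▸ (le_sup_right : _ ≤ A' ⊔ Submodule.span ℂ (Set.range γ))
        (Submodule.subset_span ⟨r, rfl⟩))
    obtain ⟨p, hp, q, hq, hpq⟩ := Submodule.mem_sup.1 h2
    rw [← hα] at hp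
    obtain ⟨u, hu⟩ := (Submodule.mem_span_range_iff_exists_fun ℂ).1 hp
    obtain ⟨y, hy⟩ := (Submodule.mem_span_range_iff_exists_fun ℂ).1 hq
    exact ⟨u, y, by rw [hu, hy, hpq]⟩
  choose u y hu using h1
  let c : Fin (a + 1) × Fin (a + b + 1) → ℂ := fun p =>
    Fin.cases (∑ i, u p.1 i * x i) (y p.1) p.2
  have hc := hx c
  have hc := (eval_bord (m := s + a) (vB α β c) (xiB x c) P).symm.trans hc
  have hξ : xiB x c ≠ 0 := by
    intro h
    apply hx0
    funext i
    rw [← xiB_left x c i, h]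
    rfl
  obtain ⟨A'', δ, hδ, h1, h2⟩ := bordered (m := s + a) (vB α β c) (xiB x c) hξ
  have h4 : (plu A'' : (Fin (s + a) ↪o Fin n) → ℂ) = fun K => δ * Matrix.det (Matrix.of fun i
      (j : Fin (s + a + 1)) => (Fin.cases (xiB x c i)
        (fun j' => vB α β c i (K j')) j : ℂ)) := by
    funext K
    exact (h1 K).symm
  have h5 : eval (plu A'') P = 0 := by
    rw [h4, eval_smul_of_hom hP, hc, mul_zero]
  refine (mem_zeros_iff hP (A := A'') ?_).2 h5
  apply le_antisymm
  · intro w hw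
    obtain ⟨e, he, rfl⟩ := (h2 w).1 hw
    rw [sum_xiB] at he
    rw [sum_vB]
    have h6 : ∑ r, e (Fin.natAdd s r) • ∑ l, c (r, l.succ) • β l =
        ∑ r, e (Fin.natAdd s r) • γ r - ∑ i, (∑ r, e (Fin.natAdd s r) * u r i) • α i := by
      have h7 : ∑ i, (∑ r, e (Fin.natAdd s r) * u r i) • α i =
          ∑ r, e (Fin.natAdd s r) • ∑ i, u r i • α i := by
        simp_rw [Finset.sum_smul, Finset.smul_sum, smul_smul]
        rw [Finset.sum_comm]
      rw [h7, ← Finset.sum_sub_distrib]
      refine Finset.sum_congr rfl fun r _ => ?_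
      rw [← smul_sub, hu r]
      simp [c]
    rw [h6]
    have h8 : ∑ i, e (Fin.castAdd (a + 1) i) • α i + (∑ r, e (Fin.natAdd s r) • γ r -
        ∑ i, (∑ r, e (Fin.natAdd s r) * u r i) • α i) =
        ∑ i, (e (Fin.castAdd (a + 1) i) - ∑ r, e (Fin.natAdd s r) * u r i) • α i +
          ∑ r, e (Fin.natAdd s r) • γ r := by
      simp_rw [sub_smul]
      rw [Finset.sum_sub_distrib]
      abel
    rw [h8, ← hγ]
    refine Submodule.add_mem _ ((le_sup_left : A' ≤ A' ⊔ Submodule.span ℂ (Set.range γ))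
      (hmemA' _ ?_)) ((le_sup_right : _ ≤ A' ⊔ Submodule.span ℂ (Set.range γ))
        (Submodule.sum_mem _ fun r _ => Submodule.smul_mem _ _ (Submodule.subset_span ⟨r, rfl⟩)))
    simp_rw [sub_mul]
    rw [Finset.sum_sub_distrib, ← he]
    congr 1
    simp_rw [Finset.sum_mul, c, Fin.cases_zero, Finset.mul_sum, mul_assoc]
    rw [Finset.sum_comm]
  · rw [← hγ]
    refine sup_le ?_ (Submodule.span_le.2 ?_)
    · rintro _ ⟨e, he, rfl⟩
      rw [SetLike.mem_coe, LinearMap.mem_ker, hf] at he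
      refine (h2 _).2 ⟨(Fin.append e (fun _ => 0) : Fin (s + (a + 1)) → ℂ), ?_, ?_⟩
      · rw [sum_xiB]
        simp [he]
      · rw [sum_vB]
        simp [Fintype.linearCombination_apply]
    · rintro _ ⟨r, rfl⟩
      refine (h2 _).2 ⟨(Fin.append (u r) (Pi.single r 1) : Fin (s + (a + 1)) → ℂ), ?_, ?_⟩
      · rw [sum_xiB]
        simp [c, Pi.single_apply]
      · rw [sum_vB]
        simp [c, Pi.single_apply, hu r]

theorem gr_eq_of_le {V W : Gr m n} (h : V.1 ≤ W.1) : V = W :=
  Subtype.ext (Submodule.eq_of_le_of_finrank_eq h (V.2.trans W.2.symm))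

theorem exists_interval_explicit (k d : ℕ) (hd : 1 ≤ d) (m n : ℕ) (hm : 1 ≤ m) (hmn : m < n)
    (hn : 2 * (k + (d + 1) ^ (k * (k + k + 1))) + 1 ≤ n)
    (P : MvPolynomial (Fin m ↪o Fin n) ℂ) (hP : P.IsHomogeneous d) :
      ∃ A B : Submodule ℂ (Fin n → ℂ), A ≤ B ∧ finrank ℂ A = m - k ∧ finrank ℂ B = min (m + k) n ∧
        ∀ V : Gr m n, A ≤ V.1 → V.1 ≤ B → V ∈ zeros P := by
  obtain ⟨D, hD⟩ : ∃ D, D = (d + 1) ^ (k * (k + k + 1)) := ⟨_, rfl⟩
  rw [← hD] at hn
  obtain ⟨V₀, hV₀⟩ := exists_zero hd hm hmn hP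
  by_cases hcase : m + (k + D) < n
  · -- enlarge
    obtain ⟨A, hA, hAr⟩ := exists_below (B := V₀.1) (r := m - k) (by rw [V₀.2]; omega)
    obtain ⟨a, ha1, ha2⟩ : ∃ a, m - k + a = m ∧ a ≤ k := ⟨min m k, by omega, by omega⟩
    have key : ∀ j, j ≤ k → ∃ B : Submodule ℂ (Fin n → ℂ), A ≤ B ∧ finrank ℂ B = m + j ∧
        ∀ V : Gr m n, A ≤ V.1 → V.1 ≤ B → V ∈ zeros P := by
      intro j
      induction j with
      | zero =>
        intro _
        refine ⟨V₀.1, hA, V₀.2, fun V _ h => ?_⟩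
        rw [gr_eq_of_le h]
        exact hV₀
      | succ j ih =>
        intro hj
        obtain ⟨B, hAB, hB, hV⟩ := ih (by omega)
        have hpow : (d + 1) ^ (a * (a + j + 1)) ≤ D := by
          rw [hD]
          refine Nat.pow_le_pow_right (by omega) ?_
          exact Nat.mul_le_mul (by omega) (by omega)
        have e1 : finrank ℂ A + a = m := by rw [hAr, ha1]
        have e2 : m + j + (d + 1) ^ (a * (a + j + 1)) < n := by omega
        obtain ⟨B', h1, h2, h3⟩ := enlarge hd hP a j hAB e1 hB e2 hV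
        exact ⟨B', hAB.trans h1, h2, h3⟩
    obtain ⟨B, hAB, hB, hV⟩ := key k le_rfl
    exact ⟨A, B, hAB, hAr, by omega, hV⟩
  · -- shrink
    obtain ⟨B, hB, hBr⟩ := exists_above (A := V₀.1) (r := min (m + k) n) (by rw [V₀.2]; omega)
      (by omega)
    have key : ∀ j, j ≤ k → ∃ A : Submodule ℂ (Fin n → ℂ), A ≤ B ∧ finrank ℂ A + j = m ∧
        ∀ V : Gr m n, A ≤ V.1 → V.1 ≤ B → V ∈ zeros P := by
      intro j
      induction j with
      | zero =>
        intro _
        refine ⟨V₀.1, hB, by rw [V₀.2]; rfl, fun V h _ => ?_⟩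
        rw [← gr_eq_of_le h]
        exact hV₀
      | succ j ih =>
        intro hj
        obtain ⟨A, hAB, hA, hV⟩ := ih (by omega)
        have hpow : (d + 1) ^ ((j + 1) * (j + (min (m + k) n - m) + 1)) ≤ D := by
          rw [hD]
          refine Nat.pow_le_pow_right (by omega) ?_
          exact Nat.mul_le_mul (by omega) (by omega)
        have e1 : finrank ℂ B = m + (min (m + k) n - m) := by rw [hBr]; omega
        have e2 : (d + 1) ^ ((j + 1) * (j + (min (m + k) n - m) + 1)) < finrank ℂ A := by omega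
        obtain ⟨A', h1, h2, h3⟩ := shrink hd hP j (min (m + k) n - m) hAB hA e1 e2 hV
        exact ⟨A', h1.trans hAB, h2, h3⟩
    obtain ⟨A, hAB, hA, hV⟩ := key k le_rfl
    exact ⟨A, B, hAB, by omega, hBr, hV⟩

theorem exists_interval (k d : ℕ) (hd : 1 ≤ d) : ∃ n₀ : ℕ, ∀ m n : ℕ, 1 ≤ m → m < n → n₀ ≤ n →
    ∀ P : MvPolynomial (Fin m ↪o Fin n) ℂ, P.IsHomogeneous d →
      ∃ A B : Submodule ℂ (Fin n → ℂ), A ≤ B ∧ finrank ℂ A = m - k ∧ finrank ℂ B = min (m + k) n ∧
        ∀ V : Gr m n, A ≤ V.1 → V.1 ≤ B → V ∈ zeros P :=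
  ⟨_, fun m n hm hmn hn P hP => exists_interval_explicit k d hd m n hm hmn hn P hP⟩

theorem map_low (e : Fin n → Fin n → ℂ) (j : ℕ) :
    (low n j).map (Matrix.toLin' (Matrix.of fun p q => e q p)) =
      Submodule.span ℂ (e '' {i | (i : ℕ) < j}) := by
  have happ : ∀ v : Fin n → ℂ, Matrix.toLin' (Matrix.of fun p q => e q p) v = ∑ i, v i • e i := by
    intro v
    funext p
    simp [Matrix.toLin'_apply, Matrix.mulVec, dotProduct, mul_comm]
  apply le_antisymm
  · rintro _ ⟨v, hv, rfl⟩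
    rw [happ]
    refine Submodule.sum_mem _ fun i _ => ?_
    by_cases hi : (i : ℕ) < j
    · exact Submodule.smul_mem _ _ (Submodule.subset_span ⟨i, hi, rfl⟩)
    · rw [hv i (not_lt.1 hi), zero_smul]
      exact Submodule.zero_mem _
  · refine Submodule.span_le.2 ?_
    rintro _ ⟨i, hi, rfl⟩
    refine ⟨Pi.single i 1, ?_, ?_⟩
    · intro l hl
      have : l ≠ i := by
        rintro rfl
        exact absurd hi (not_lt.2 hl)
      exact Pi.single_eq_of_ne this 1
    · rw [happ]
      simp [Pi.single_apply]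

theorem exists_GL_flag_aux {s t r : ℕ} {A B : Submodule ℂ (Fin (s + t + r) → ℂ)} (hAB : A ≤ B)
    (hA : finrank ℂ A = s) (hB : finrank ℂ B = s + t) : ∃ h : GL (Fin (s + t + r)) ℂ,
    (low _ s).map (Matrix.toLin' h.1) = A ∧ (low _ (s + t)).map (Matrix.toLin' h.1) = B := by
  obtain ⟨α, hα⟩ := exists_span hA
  obtain ⟨β, hβ⟩ := exists_ext hAB hA hB
  obtain ⟨γ, hγ⟩ := exists_ext (A := B) (B := ⊤) (s := s + t) (t := r) le_top hB (by simp)
  let e : Fin (s + t + r) → Fin (s + t + r) → ℂ := Fin.append (Fin.append α β) γ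
  have h1 : e '' {i | (i : ℕ) < s} = Set.range α := by
    ext y
    constructor
    · rintro ⟨i, hi, rfl⟩
      have h0 : e (Fin.castAdd r (Fin.castAdd t ⟨i, hi⟩)) = α ⟨i, hi⟩ := by
        simp only [e, Fin.append_left]
      exact ⟨⟨i, hi⟩, h0.symm.trans (congrArg e (Fin.ext rfl))⟩
    · rintro ⟨i, rfl⟩
      exact ⟨Fin.castAdd r (Fin.castAdd t i), by simp, by simp [e]⟩
  have h2 : e '' {i | (i : ℕ) < s + t} = Set.range α ∪ Set.range β := by
    ext y
    constructor
    · rintro ⟨i, hi, rfl⟩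
      have : i = Fin.castAdd r ⟨i, hi⟩ := by ext; simp
      rw [this]
      simp only [e, Fin.append_left]
      refine Fin.addCases (fun i => ?_) (fun i => ?_) (⟨i, hi⟩ : Fin (s + t))
      · left; exact ⟨i, by simp⟩
      · right; exact ⟨i, by simp⟩
    · rintro (⟨i, rfl⟩ | ⟨i, rfl⟩)
      · exact ⟨Fin.castAdd r (Fin.castAdd t i), by
          have := i.isLt
          simp only [Set.mem_ofPred_eq, Fin.val_castAdd]; omega, by simp [e]⟩
      · exact ⟨Fin.castAdd r (Fin.natAdd s i), by simp, by simp [e]⟩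
  have hspan : Submodule.span ℂ (Set.range e) = ⊤ := by
    rw [eq_top_iff, ← hγ, ← hβ, ← hα, ← Submodule.span_union, ← Submodule.span_union]
    refine Submodule.span_mono ?_
    rintro _ ((⟨i, rfl⟩ | ⟨i, rfl⟩) | ⟨i, rfl⟩)
    · exact ⟨Fin.castAdd r (Fin.castAdd t i), by simp [e]⟩
    · exact ⟨Fin.castAdd r (Fin.natAdd s i), by simp [e]⟩
    · exact ⟨Fin.natAdd (s + t) i, by simp [e]⟩
  have hli : LinearIndependent ℂ e :=
    linearIndependent_of_top_le_span_of_card_eq_finrank hspan.ge (by simp)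
  have hM : (Matrix.of fun p q => e q p).det ≠ 0 := by
    have h3 : IsUnit (Matrix.of e) := Matrix.linearIndependent_rows_iff_isUnit.1 hli
    have h4 := (Matrix.isUnit_iff_isUnit_det _).1 h3
    have h5 : (Matrix.of fun p q => e q p) = (Matrix.of e).transpose := rfl
    rw [h5, Matrix.det_transpose]
    exact h4.ne_zero
  refine ⟨Matrix.GeneralLinearGroup.mkOfDetNeZero (Matrix.of fun p q => e q p) hM, ?_, ?_⟩
  · refine (map_low e s).trans ?_
    rw [h1, hα]
  · refine (map_low e (s + t)).trans ?_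
    rw [h2, Submodule.span_union, hα, hβ]

/-- a pair `A ≤ B` is part of a translate of the standard flag -/
theorem exists_GL_flag {A B : Submodule ℂ (Fin n → ℂ)} (hAB : A ≤ B) : ∃ h : GL (Fin n) ℂ,
    (low n (finrank ℂ A)).map (Matrix.toLin' h.1) = A ∧
      (low n (finrank ℂ B)).map (Matrix.toLin' h.1) = B := by
  obtain ⟨s, hs⟩ : ∃ s, finrank ℂ A = s := ⟨_, rfl⟩
  obtain ⟨t, ht⟩ : ∃ t, finrank ℂ B = s + t :=
    ⟨finrank ℂ B - s, by have := Submodule.finrank_mono hAB; omega⟩
  obtain ⟨r, hr⟩ : ∃ r, n = s + t + r := ⟨n - (s + t), by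
    have := Submodule.finrank_le B
    rw [finrank_fin_fun] at this
    omega⟩
  rw [hs, ht]
  subst hr
  exact exists_GL_flag_aux hAB hs ht

end Pool.Agent.GrCyc
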