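import Pool.Agent.GrCyc.Index

/-! Rectangular index sets and the index sets of dimension at most three. -/

namespace Pool.Agent.GrCyc

open Module

variable {m n : ℕ}

/-- `I` is the index set of the rectangle with `a` rows and `b` columns minus its corner -/
def IsNearRect (a b : ℕ) (I : Fin m ↪o Fin n) : Prop :=
  ∀ t : Fin m, (I t : ℕ) =
    if (t : ℕ) < m - a then (t : ℕ) else if (t : ℕ) = m - a then t + b - 1 else t + b

/-- the index set of the rectangle with `a` rows and `b` columns -/
def rectIdx (a b : ℕ) (h : m + b ≤ n) : Fin m ↪o Fin n :=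
  OrderEmbedding.ofStrictMono
    (fun t : Fin m => if (t : ℕ) < m - a then (⟨t, by have := t.2; omega⟩ : Fin n)
      else ⟨t + b, by have := t.2; omega⟩)
    (by
      intro s t hst
      have h1 : (s : ℕ) < t := hst
      by_cases hs : (s : ℕ) < m - a <;> by_cases ht : (t : ℕ) < m - a <;>
        simp only [hs, ht, if_true, if_false, Fin.mk_lt_mk] <;> omega)

theorem rectIdx_apply (a b : ℕ) (h : m + b ≤ n) (t : Fin m) :
    (rectIdx a b h t : ℕ) = if (t : ℕ) < m - a then (t : ℕ) else t + b := by
  show ((if (t : ℕ) < m - a then (⟨t, _⟩ : Fin n) else ⟨t + b, _⟩ : Fin n) : ℕ) = _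
  split_ifs <;> rfl

theorem sum_step (c a b : ℕ) : ∑ i ∈ Finset.range (c + a), (if i < c then 0 else b) = a * b := by
  induction a with
  | zero =>
    rw [Nat.zero_mul, Nat.add_zero]
    exact Finset.sum_eq_zero fun i hi => if_pos (Finset.mem_range.1 hi)
  | succ a ih =>
    rw [← Nat.add_assoc, Finset.sum_range_succ, ih, if_neg (by omega), Nat.succ_mul]

theorem sum_step_fin (a b : ℕ) (ha : a ≤ m) :
    ∑ t : Fin m, (if (t : ℕ) < m - a then 0 else b) = a * b := by
  rw [Fin.sum_univ_eq_sum_range (fun i => if i < m - a then 0 else b) m]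
  have h := sum_step (m - a) a b
  rwa [Nat.sub_add_cancel ha] at h

theorem dimIdx_rectIdx (a b : ℕ) (h : m + b ≤ n) (ha : a ≤ m) :
    dimIdx (rectIdx (m := m) (n := n) a b h) = a * b := by
  rw [← sum_step_fin (m := m) a b ha]
  unfold dimIdx
  refine Finset.sum_congr rfl fun t _ => ?_
  rw [rectIdx_apply]
  split_ifs <;> omega

theorem low_eq_lowG (j : ℕ) :
    (low n j).map (Matrix.toLin' (1 : Matrix (Fin n) (Fin n) ℂ)) = low n j := by
  rw [Matrix.toLin'_one, Submodule.map_id]

theorem finrank_low' {j : ℕ} (hj : j ≤ n) : finrank ℂ ↥(low n j) = j := by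
  have h := finrank_lowG (1 : GL (Fin n) ℂ) hj
  unfold lowG at h
  rwa [Units.val_one, low_eq_lowG] at h

theorem low_mono' {i j : ℕ} (h : i ≤ j) : low n i ≤ low n j := by
  intro v hv k hk
  exact hv k (h.trans hk)

/-- the Schubert variety of a rectangle is an interval -/
theorem mem_schubert_rectIdx (a b : ℕ) (h : m + b ≤ n) (ha : a ≤ m) (V : Gr m n) :
    V ∈ schubert (rectIdx a b h) (1 : Matrix (Fin n) (Fin n) ℂ) ↔
      low n (m - a) ≤ V.1 ∧ V.1 ≤ low n (m + b) := by
  have hV := V.2
  constructor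
  · intro hS
    constructor
    · rcases Nat.eq_zero_or_pos (m - a) with h0 | h0
      · rw [h0]
        intro v hv
        have : v = 0 := funext fun i => hv i (Nat.zero_le _)
        rw [this]
        exact V.1.zero_mem
      · have hlt : m - a - 1 < m := by omega
        have h1 := hS ⟨m - a - 1, hlt⟩
        rw [low_eq_lowG, rectIdx_apply, if_pos (show m - a - 1 < m - a by omega)] at h1
        have h3 : m - a - 1 + 1 = m - a := by omega
        have h1 : m - a ≤ finrank ℂ ↥(V.1 ⊓ low n (m - a)) := by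
          have h6 : m - a - 1 + 1 ≤ finrank ℂ ↥(V.1 ⊓ low n (m - a - 1 + 1)) := h1
          rwa [h3] at h6
        have h5 : V.1 ⊓ low n (m - a) = low n (m - a) :=
          Submodule.eq_of_le_of_finrank_le inf_le_right (by
            rw [finrank_low' (by omega)]; exact h1)
        exact inf_eq_right.1 h5
    · rcases Nat.eq_zero_or_pos m with h0 | h0
      · have : V.1 = ⊥ := by
          apply Submodule.finrank_eq_zero.1
          rw [V.2, h0]
        rw [this]; exact bot_le
      · have hlt : m - 1 < m := by omega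
        have h1 := hS ⟨m - 1, hlt⟩
        rw [low_eq_lowG, rectIdx_apply] at h1
        have h5 : V.1 ⊓ low n ((if m - 1 < m - a then m - 1 else m - 1 + b) + 1) = V.1 :=
          Submodule.eq_of_le_of_finrank_le inf_le_left (by
            rw [V.2]
            refine le_trans ?_ h1
            show m ≤ m - 1 + 1
            omega)
        refine (inf_eq_left.1 h5).trans (low_mono' ?_)
        split_ifs <;> omega
  · rintro ⟨h1, h2⟩ t
    rw [low_eq_lowG, rectIdx_apply]
    have ht := t.2
    by_cases hta : (t : ℕ) < m - a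
    · have e : (if (t : ℕ) < m - a then (t : ℕ) else t + b) + 1 = (t : ℕ) + 1 := by
        rw [if_pos hta]
      rw [e]
      have h3 : V.1 ⊓ low n ((t : ℕ) + 1) = low n ((t : ℕ) + 1) :=
        inf_eq_right.2 ((low_mono' (by omega)).trans h1)
      have h4 : finrank ℂ ↥(V.1 ⊓ low n ((t : ℕ) + 1)) = (t : ℕ) + 1 := by
        rw [h3, finrank_low' (by omega)]
      exact h4.ge
    · have e : (if (t : ℕ) < m - a then (t : ℕ) else t + b) + 1 = (t : ℕ) + b + 1 := by
        rw [if_neg hta]
      rw [e]
      have h3 := Submodule.finrank_sup_add_finrank_inf_eq V.1 (low n ((t : ℕ) + b + 1))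
      rw [V.2, finrank_low' (show (t : ℕ) + b + 1 ≤ n by omega)] at h3
      have h4 : finrank ℂ ↥(V.1 ⊔ low n ((t : ℕ) + b + 1)) ≤ m + b := by
        rw [← finrank_low' (n := n) h]
        exact Submodule.finrank_mono (sup_le h2 (low_mono' (by omega)))
      have h5 : (t : ℕ) + 1 ≤ finrank ℂ ↥(V.1 ⊓ low n ((t : ℕ) + b + 1)) := by
        omega
      exact h5

theorem IsNearRect.apply_eq {a b : ℕ} (h : m + b ≤ n) {I : Fin m ↪o Fin n} (hI : IsNearRect a b I)
    (ha : 1 ≤ a) (ham : a ≤ m) (hb : 1 ≤ b) (t : Fin m) :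
    (rectIdx a b h t : ℕ) = if (t : ℕ) = m - a then (I t : ℕ) + 1 else (I t : ℕ) := by
  rw [rectIdx_apply, hI t]
  split_ifs <;> omega

theorem IsNearRect.dimIdx {a b : ℕ} {I : Fin m ↪o Fin n} (hI : IsNearRect a b I) (ha : 1 ≤ a)
    (ham : a ≤ m) (hb : 1 ≤ b) : dimIdx I + 1 = a * b := by
  have hlt : m - a < m := by omega
  have h1 : ∑ t : Fin m, (if t = ⟨m - a, hlt⟩ then 1 else 0) = 1 := by
    rw [Finset.sum_ite_eq']
    simp
  rw [← sum_step_fin (m := m) a b ham]
  unfold GrCyc.dimIdx
  rw [← h1, ← Finset.sum_add_distrib]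
  refine Finset.sum_congr rfl fun t _ => ?_
  rw [hI t]
  have h2 : t = ⟨m - a, hlt⟩ ↔ (t : ℕ) = m - a := Fin.ext_iff
  by_cases h3 : (t : ℕ) = m - a
  · rw [if_pos (h2.2 h3)]
    split_ifs <;> omega
  · rw [if_neg (fun h => h3 (h2.1 h))]
    split_ifs <;> omega

/-- the near rectangle is the only index set of its dimension below the rectangle -/
theorem IsNearRect.unique {a b : ℕ} (h : m + b ≤ n) {I : Fin m ↪o Fin n} (hI : IsNearRect a b I)
    (ha : 1 ≤ a) (ham : a ≤ m) (hb : 1 ≤ b) {I' : Fin m ↪o Fin n}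
    (hI' : ∀ t, I' t ≤ rectIdx a b h t) (hd : GrCyc.dimIdx I' = GrCyc.dimIdx I) : I' = I := by
  refine eq_of_le_of_dimIdx_eq (fun t => ?_) hd
  have h1 : (I' t : ℕ) ≤ rectIdx a b h t := hI' t
  rw [hI.apply_eq h ha ham hb t] at h1
  have hgoal : (I' t : ℕ) ≤ I t := by
    by_cases ht : (t : ℕ) = m - a
    · by_contra hcon
      have h2 : (I' t : ℕ) = rectIdx a b h t := by
        rw [hI.apply_eq h ha ham hb t, if_pos ht]
        rw [if_pos ht] at h1
        omega
      have h3 : ∀ s : Fin m, rectIdx a b h s ≤ I' s := by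
        intro s
        show (rectIdx a b h s : ℕ) ≤ I' s
        rw [rectIdx_apply]
        rw [rectIdx_apply] at h2
        have h4 := le_idx I' s
        split_ifs with hs
        · exact h4
        · have hst : t ≤ s := by
            show (t : ℕ) ≤ s
            omega
          have h5 := idx_sub_mono I' hst
          rw [if_neg (by omega)] at h2
          omega
      have h5 : I' = rectIdx a b h := by
        refine eq_of_le_of_dimIdx_eq hI' ?_
        refine le_antisymm ?_ ?_
        · exact Finset.sum_le_sum fun s _ => by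
            have h6 : (I' s : ℕ) ≤ rectIdx a b h s := hI' s
            omega
        · exact Finset.sum_le_sum fun s _ => by
            have h6 : (rectIdx a b h s : ℕ) ≤ I' s := h3 s
            omega
      have h6 := hI.dimIdx ha ham hb
      have h7 := dimIdx_rectIdx (m := m) (n := n) a b h ham
      rw [← h5, hd] at h7
      omega
    · rwa [if_neg ht] at h1
  exact hgoal

/-- the last three entries of an index set of dimension at most three -/
theorem exists_last_three {k : ℕ} (hm : 1 ≤ m) (hk3 : k ≤ 3) (I : Fin m ↪o Fin n)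
    (hI : GrCyc.dimIdx I = k) : ∃ x y z : ℕ,
      (∀ t : Fin m, (t : ℕ) + 3 < m → (I t : ℕ) = t) ∧
      (∀ t : Fin m, (t : ℕ) + 3 = m → (I t : ℕ) = t + x) ∧
      (∀ t : Fin m, (t : ℕ) + 2 = m → (I t : ℕ) = t + y) ∧
      (∀ t : Fin m, (t : ℕ) + 1 = m → (I t : ℕ) = t + z) ∧
      x + y + z = k ∧ x ≤ y ∧ y ≤ z ∧ (m < 3 → x = 0) ∧ (m < 2 → y = 0) ∧ m + z ≤ n := by
  have h0 : ∀ t : Fin m, (t : ℕ) + 3 < m → (I t : ℕ) = t := fun t ht =>
    idx_eq_of_lt I t (by omega)
  have hcase : m = 1 ∨ m = 2 ∨ ∃ m', m = m' + 3 := by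
    rcases Nat.lt_or_ge m 3 with h | h
    · omega
    · exact Or.inr (Or.inr ⟨m - 3, by omega⟩)
  rcases hcase with rfl | rfl | ⟨m', rfl⟩
  · have h1 := le_idx I ⟨0, by omega⟩
    have h2 := (I ⟨0, by omega⟩).2
    refine ⟨0, 0, (I ⟨0, by omega⟩ : ℕ), h0, fun t ht => by omega, fun t ht => by omega,
      fun t ht => ?_, ?_, le_rfl, Nat.zero_le _, fun _ => rfl, fun _ => rfl, by omega⟩
    · have : t = ⟨0, by omega⟩ := Fin.ext (by omega)
      rw [this]
      simp
    · unfold GrCyc.dimIdx at hI
      rw [Fin.sum_univ_one] at hI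
      rw [← hI]
      simp
  · have h1 := le_idx I ⟨0, by omega⟩
    have h2 := le_idx I ⟨1, by omega⟩
    have h3 := (I ⟨1, by omega⟩).2
    have h4 := idx_sub_mono I (s := ⟨0, by omega⟩) (t := ⟨1, by omega⟩) (by
      show 0 ≤ 1
      omega)
    unfold GrCyc.dimIdx at hI
    rw [Fin.sum_univ_two] at hI
    have e0 : (0 : Fin 2) = ⟨0, by omega⟩ := rfl
    have e1 : (1 : Fin 2) = ⟨1, by omega⟩ := rfl
    rw [e0, e1] at hI
    simp only at h1 h2 h3 h4 hI
    refine ⟨0, (I ⟨0, by omega⟩ : ℕ), (I ⟨1, by omega⟩ : ℕ) - 1, h0, fun t ht => by omega,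
      fun t ht => ?_, fun t ht => ?_, by omega, Nat.zero_le _, by omega, fun _ => rfl,
      fun h => by omega, by omega⟩
    · have : t = ⟨0, by omega⟩ := Fin.ext (by simp; omega)
      rw [this]
      simp
    · have : t = ⟨1, by omega⟩ := Fin.ext (by simp; omega)
      rw [this]
      simp only
      omega
  · have h1 := le_idx I ⟨m', by omega⟩
    have h2 := le_idx I ⟨m' + 1, by omega⟩
    have h3 := le_idx I ⟨m' + 2, by omega⟩
    have h4 := idx_sub_mono I (s := ⟨m', by omega⟩) (t := ⟨m' + 1, by omega⟩) (by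
      show m' ≤ m' + 1
      omega)
    have h5 := idx_sub_mono I (s := ⟨m' + 1, by omega⟩) (t := ⟨m' + 2, by omega⟩) (by
      show m' + 1 ≤ m' + 2
      omega)
    have h6 := (I ⟨m' + 2, by omega⟩).2
    have hsum : ((I ⟨m', by omega⟩ : ℕ) - m') + ((I ⟨m' + 1, by omega⟩ : ℕ) - (m' + 1)) +
        ((I ⟨m' + 2, by omega⟩ : ℕ) - (m' + 2)) = k := by
      unfold GrCyc.dimIdx at hI
      rw [Fin.sum_univ_castSucc, Fin.sum_univ_castSucc, Fin.sum_univ_castSucc] at hI
      rw [Finset.sum_eq_zero (fun t _ => ?_), zero_add] at hI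
      · exact hI
      · have := h0 t.castSucc.castSucc.castSucc (by
          have := t.2
          simp only [Fin.val_castSucc]
          omega)
        omega
    simp only at h1 h2 h3 h4 h5 h6
    refine ⟨(I ⟨m', by omega⟩ : ℕ) - m', (I ⟨m' + 1, by omega⟩ : ℕ) - (m' + 1),
      (I ⟨m' + 2, by omega⟩ : ℕ) - (m' + 2), h0, fun t ht => ?_, fun t ht => ?_, fun t ht => ?_,
      hsum, by omega, by omega, fun h => by omega, fun h => by omega, by omega⟩
    · have : t = ⟨m', by omega⟩ := Fin.ext (by simp only; omega)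
      rw [this]
      simp only
      omega
    · have : t = ⟨m' + 1, by omega⟩ := Fin.ext (by simp only; omega)
      rw [this]
      simp only
      omega
    · have : t = ⟨m' + 2, by omega⟩ := Fin.ext (by simp only; omega)
      rw [this]
      simp only
      omega

/-- all index sets of dimension `≤ 3` are near rectangles, if `m ≠ k ≠ n - m` for `k = 2, 3` -/
theorem exists_isNearRect {k : ℕ} (hm : 1 ≤ m) (hmn : m < n) (hk : k < m * (n - m))
    (hk3 : k ≤ 1 ∨ (k ≤ 3 ∧ k ≠ m ∧ k ≠ n - m)) (I : Fin m ↪o Fin n) (hI : GrCyc.dimIdx I = k) :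
    ∃ a b : ℕ, 1 ≤ a ∧ a ≤ m ∧ 1 ≤ b ∧ m + b ≤ n ∧ a * b = k + 1 ∧ IsNearRect a b I := by
  obtain ⟨x, y, z, h0, hx, hy, hz, hsum, hxy, hyz, hm3, hm2, hzn⟩ :=
    exists_last_three hm (by omega) I hI
  -- verification of the near rectangle property
  have key : ∀ a b : ℕ, 1 ≤ a → a ≤ m → a ≤ 4 → 1 ≤ b → (a = 4 → b = 1) →
      (x = if a = 4 then 1 else if a = 3 then b - 1 else if a = 3 then b else 0) →
      (y = if a = 4 then 1 else if a = 3 then b else if a = 2 then b - 1 else 0) →
      (z = if a = 1 then b - 1 else b) → IsNearRect a b I := by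
    intro a b ha1 ham ha4 hb hab hx' hy' hz' t
    have ht := t.2
    have hcase : (t : ℕ) + 3 < m ∨ (t : ℕ) + 3 = m ∨ (t : ℕ) + 2 = m ∨ (t : ℕ) + 1 = m := by
      omega
    rcases hcase with h | h | h | h
    · rw [h0 t h]
      split_ifs <;> omega
    · rw [hx t h, hx']
      split_ifs <;> omega
    · rw [hy t h, hy']
      split_ifs <;> omega
    · rw [hz t h, hz']
      split_ifs <;> omega
  have hn2 : n - m = 1 ∨ 2 ≤ n - m := by omega
  have hk' : k = 0 ∨ k = 1 ∨ k = 2 ∨ k = 3 := by omega
  rcases hk' with rfl | rfl | rfl | rfl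
  · exact ⟨1, 1, le_rfl, hm, le_rfl, by omega, rfl,
      key 1 1 le_rfl (by omega) (by omega) le_rfl (by omega) (by simp; omega) (by simp; omega)
        (by simp; omega)⟩
  · rcases hn2 with h | h
    · have hm2' : 2 ≤ m := by
        rw [h, Nat.mul_one] at hk
        omega
      exact ⟨2, 1, by omega, hm2', le_rfl, by omega, rfl,
        key 2 1 (by omega) (by omega) (by omega) le_rfl (by omega) (by simp; omega) (by simp; omega)
          (by simp; omega)⟩
    · exact ⟨1, 2, le_rfl, hm, by omega, by omega, rfl,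
        key 1 2 le_rfl (by omega) (by omega) (by omega) (by omega) (by simp; omega) (by simp; omega)
          (by simp; omega)⟩
  · by_cases hy1 : y = 0
    · exact ⟨1, 3, le_rfl, hm, by omega, by omega, rfl,
        key 1 3 le_rfl (by omega) (by omega) (by omega) (by omega) (by simp; omega) (by simp; omega)
          (by simp; omega)⟩
    · exact ⟨3, 1, by omega, by omega, le_rfl, by omega, rfl,
        key 3 1 (by omega) (by omega) (by omega) le_rfl (by omega) (by simp; omega) (by simp; omega)
          (by simp; omega)⟩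
  · by_cases hy1 : y = 0
    · exact ⟨1, 4, le_rfl, hm, by omega, by omega, rfl,
        key 1 4 le_rfl (by omega) (by omega) (by omega) (by omega) (by simp; omega) (by simp; omega)
          (by simp; omega)⟩
    · by_cases hx1 : x = 0
      · exact ⟨2, 2, by omega, by omega, by omega, by omega, rfl,
          key 2 2 (by omega) (by omega) (by omega) (by omega) (by omega) (by simp; omega) (by simp; omega)
            (by simp; omega)⟩
      · exact ⟨4, 1, by omega, by omega, le_rfl, by omega, rfl,
          key 4 1 (by omega) (by omega) (by omega) le_rfl (by omega) (by simp; omega) (by simp; omega)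
            (by simp; omega)⟩

end Pool.Agent.GrCyc
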