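import Pool.Agent.GrCyc.Count
import Pool.Agent.GrCyc.Chart
import Pool.Agent.GrCyc.Rect
import Pool.Agent.GrCyc.Cone

/-! The Schubert classes of rectangles minus a corner are effective on every hypersurface. -/

namespace Pool.Agent.GrCyc

open MvPolynomial Module

variable {m n : ℕ}

theorem le_of_add_one_le {x : WithBot ℕ∞} {k : ℕ} (h : x + 1 ≤ ((k + 1 : ℕ) : WithBot ℕ∞)) :
    x ≤ k := by
  induction x with
  | bot => exact bot_le
  | coe y =>
    have h1 : ((y + 1 : ℕ∞) : WithBot ℕ∞) ≤ (((k : ℕ∞) + 1 : ℕ∞) : WithBot ℕ∞) := by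
      exact_mod_cast h
    rw [WithBot.coe_le_coe] at h1
    have h2 : y ≤ k := (ENat.add_le_add_iff_right (by simp)).1 h1
    exact_mod_cast h2

theorem isClass_of_meetsIn {k : ℕ} {I : KIdx m n k} {J : Fin m ↪o Fin n} {W : Set (Gr m n)}
    (hWJ : W ⊆ schubert J (1 : Matrix (Fin n) (Fin n) ℂ)) {N : ℕ} (hN : MeetsIn W I.1 N)
    (huniq : ∀ I' : KIdx m n k, (∀ t, I'.1 t ≤ J t) → I' = I) :
    IsClass W (Pi.single I (N : ℝ) : KIdx m n k → ℝ) := by
  intro I'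
  by_cases h : I' = I
  · subst h
    exact ⟨N, by rw [Pi.single_eq_same], hN⟩
  · refine ⟨0, by rw [Pi.single_eq_of_ne h, Nat.cast_zero], ?_⟩
    obtain ⟨P₀, hP₀, hopp⟩ := exists_generic (1 : GL (Fin n) ℂ)
    refine ⟨P₀, hP₀, fun g hg => ?_⟩
    have h1 := inter_eq_empty (h := 1) (hopp g hg) (I := I'.1) (J := J) (fun h2 => h (huniq I' h2))
    have h2 : W ∩ oppSchubert I'.1 g.1 = ∅ := by
      rw [Set.eq_empty_iff_forall_notMem]
      rintro V ⟨hV1, hV2⟩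
      have : V ∈ schubert J (1 : GL (Fin n) ℂ).1 ∩ oppSchubert I'.1 g.1 := ⟨hWJ hV1, hV2⟩
      rw [h1] at this
      exact this
    rw [h2, Set.encard_empty]
    rfl

theorem nearRect {a b : ℕ} (ha : 1 ≤ a) (ham : a ≤ m) (hb : 1 ≤ b) (hbn : m + b ≤ n) {k : ℕ}
    (I : KIdx m n k) (hI : IsNearRect a b I.1) (hk : a * b = k + 1) {d : ℕ} (hd : 1 ≤ d)
    {P : MvPolynomial (Fin m ↪o Fin n) ℂ} (hP : P.IsHomogeneous d) :
    ∃ (Z : Set (Gr m n)) (N : ℕ), 0 < N ∧ IsSubvariety k (zeros P) Z ∧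
      IsClass Z (Pi.single I (N : ℝ) : KIdx m n k → ℝ) := by
  classical
  let J : Fin m ↪o Fin n := rectIdx a b hbn
  let t₀ : Fin m := ⟨m - a, by omega⟩
  have hcov : Covers I.1 J t₀ := by
    constructor
    · intro τ hτ
      have h1 := hI.apply_eq hbn ha ham hb τ
      have h2 : (τ : ℕ) ≠ m - a := fun h => hτ (Fin.ext h)
      rw [if_neg h2] at h1
      exact Fin.ext h1.symm
    · have h1 := hI.apply_eq hbn ha ham hb t₀
      rwa [if_pos rfl] at h1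
  have hdJ : dimIdx J = k + 1 := by rw [← hk]; exact dimIdx_rectIdx a b hbn ham
  have huniq : ∀ I' : KIdx m n k, (∀ t, I'.1 t ≤ J t) → I' = I := by
    intro I' h
    exact Subtype.ext (hI.unique hbn ha ham hb h (I'.2.trans I.2.symm))
  have hleIJ : ∀ t, I.1 t ≤ J t := by
    intro t
    by_cases h : t = t₀
    · subst h
      have := hcov.2
      show (I.1 t₀ : ℕ) ≤ J t₀
      omega
    · rw [hcov.1 t h]
  by_cases hPJ : schubert J (1 : Matrix (Fin n) (Fin n) ℂ) ⊆ zeros P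
  · refine ⟨schubert I.1 (1 : GL (Fin n) ℂ).1, 1, Nat.one_pos, ?_, ?_⟩
    · have h3 := isSubvariety_schubert I.1 1 (X := zeros P)
        ((schubert_subset hleIJ _).trans hPJ)
      rwa [I.2] at h3
    · rw [Nat.cast_one]
      exact isClass_schubert I 1
  -- the Schubert variety of the rectangle
  have hYc : IsClosed (schubert J (1 : Matrix (Fin n) (Fin n) ℂ)) := isClosed_schubert J _
  have hYi : IsIrreducible (schubert J (1 : Matrix (Fin n) (Fin n) ℂ)) :=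
    isIrreducible_schubert J 1
  have hYd : topologicalKrullDim ↥(schubert J (1 : Matrix (Fin n) (Fin n) ℂ)) = (k + 1 : ℕ) := by
    have := krullDim_schubert J 1
    rwa [hdJ] at this
  have hXc : IsClosed (schubert J (1 : Matrix (Fin n) (Fin n) ℂ) ∩ zeros P) :=
    hYc.inter (isClosed_zeros hP)
  have := noetherian m n
  obtain ⟨S, hSf, hSc, hSi, hSU⟩ :=
    TopologicalSpace.NoetherianSpace.exists_finite_set_isClosed_irreducible hXc
  have hSX : ∀ Z ∈ S, Z ⊆ schubert J (1 : Matrix (Fin n) (Fin n) ℂ) ∩ zeros P := by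
    intro Z hZ
    rw [hSU]; exact Set.subset_sUnion_of_mem hZ
  have hSne : ∀ Z ∈ S, ¬ schubert J (1 : Matrix (Fin n) (Fin n) ℂ) ⊆ Z := by
    intro Z hZ h
    exact hPJ (h.trans ((hSX Z hZ).trans Set.inter_subset_right))
  have hSN : ∀ Z ∈ S, ∃ N : ℕ, MeetsIn Z I.1 N := fun Z hZ =>
    exists_meetsIn hcov (hSc Z hZ) ((hSX Z hZ).trans Set.inter_subset_left) (hSne Z hZ)
  choose! N hN using hSN
  choose! D hD0 hD using hN
  -- a general translate
  obtain ⟨P₀, hP₀, hopp⟩ := exists_generic (1 : GL (Fin n) ℂ)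
  let T := hSf.toFinset
  let dt : MvPolynomial (Fin n × Fin n) ℂ := Matrix.det (Matrix.of fun i j => X (i, j))
  have hdt : ∀ x : Fin n × Fin n → ℂ, eval x dt = Matrix.det (Matrix.of fun i j => x (i, j)) := by
    intro x
    show eval x (Matrix.det _) = _
    rw [RingHom.map_det]
    congr 1
    ext i j
    simp
  have hdt0 : dt ≠ 0 := by
    intro h
    have h1 := hdt (fun p => if p.1 = p.2 then 1 else 0)
    rw [h, map_zero] at h1
    have h2 : (Matrix.of fun i j : Fin n => if (i, j).1 = (i, j).2 then (1 : ℂ) else 0) = 1 := by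
      ext i j
      simp [Matrix.one_apply]
    rw [h2, Matrix.det_one] at h1
    exact zero_ne_one h1
  have hprod : dt * P₀ * ∏ Z ∈ T, D Z ≠ 0 :=
    mul_ne_zero (mul_ne_zero hdt0 hP₀)
      (Finset.prod_ne_zero_iff.2 fun Z hZ => hD0 Z (hSf.mem_toFinset.1 hZ))
  obtain ⟨x, hx⟩ : ∃ x : Fin n × Fin n → ℂ, eval x (dt * P₀ * ∏ Z ∈ T, D Z) ≠ 0 := by
    by_contra hcon
    push Not at hcon
    exact hprod (MvPolynomial.funext fun x => by rw [hcon x, map_zero])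
  rw [map_mul, map_mul, map_prod] at hx
  have hx1 := left_ne_zero_of_mul (left_ne_zero_of_mul hx)
  have hx2 := right_ne_zero_of_mul (left_ne_zero_of_mul hx)
  have hx3 := Finset.prod_ne_zero_iff.1 (right_ne_zero_of_mul hx)
  rw [hdt] at hx1
  let g : GL (Fin n) ℂ := Matrix.GeneralLinearGroup.mk'' (Matrix.of fun i j => x (i, j))
    (isUnit_iff_ne_zero.2 hx1)
  have hgx : (fun p : Fin n × Fin n => g.1 p.1 p.2) = x := rfl
  have hopp' : Opp 1 g.1 := hopp g (by rw [hgx]; exact hx2)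
  obtain ⟨V₀, hV₀P, hV₀J, hV₀I⟩ := exists_zero_on_pencil hcov g hopp' hd hP
  have hV₀ : V₀ ∈ ⋃₀ S := by rw [← hSU]; exact ⟨hV₀J, hV₀P⟩
  obtain ⟨Z₀, hZ₀S, hV₀Z₀⟩ := hV₀
  -- a maximal member
  obtain ⟨Z, hZ₀Z, hZmax⟩ := hSf.exists_le_maximal hZ₀S
  have hZS : Z ∈ S := hZmax.1
  have hNZ : 0 < N Z := by
    rcases Nat.eq_zero_or_pos (N Z) with h0 | h0
    · exfalso
      have h1 := hD Z hZS g (by rw [hgx]; exact hx3 Z (hSf.mem_toFinset.2 hZS))
      rw [h0, Nat.cast_zero, Set.encard_eq_zero] at h1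
      have h2 : V₀ ∈ Z ∩ oppSchubert I.1 g.1 := ⟨hZ₀Z hV₀Z₀, hV₀I⟩
      rw [h1] at h2
      exact h2
    · exact h0
  have hZJ : Z ⊆ schubert J (1 : Matrix (Fin n) (Fin n) ℂ) := (hSX Z hZS).trans Set.inter_subset_left
  have hZssJ : Z ⊂ schubert J (1 : Matrix (Fin n) (Fin n) ℂ) := ⟨hZJ, hSne Z hZS⟩
  refine ⟨Z, N Z, hNZ, ⟨(hSX Z hZS).trans Set.inter_subset_right, hSc Z hZS, hSi Z hZS, ?_⟩,
    isClass_of_meetsIn hZJ ⟨D Z, hD0 Z hZS, hD Z hZS⟩ huniq⟩
  -- a point of `Z` outside the other members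
  obtain ⟨V, hVZ, hV⟩ : ∃ V ∈ Z, ∀ W ∈ S, V ∈ W → W = Z := by
    by_contra hcon
    push Not at hcon
    let T' := (hSf.toFinset).filter (fun W => W ≠ Z)
    have h1 : Z ⊆ ⋃₀ (↑T' : Set (Set (Gr m n))) := by
      intro V hV
      obtain ⟨W, hW, hVW, hWZ⟩ := hcon V hV
      exact ⟨W, by simp [T', hW, hWZ], hVW⟩
    obtain ⟨W, hW, hZW⟩ := isIrreducible_iff_sUnion_isClosed.1 (hSi Z hZS) T'
      (fun W hW => hSc W (hSf.mem_toFinset.1 (Finset.mem_filter.1 hW).1)) h1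
    have hWS : W ∈ S := hSf.mem_toFinset.1 (Finset.mem_filter.1 hW).1
    exact (Finset.mem_filter.1 hW).2 (Set.Subset.antisymm (hZmax.2 hWS hZW) hZW)
  -- lower bound of the dimension
  have hVX := hSX Z hZS hVZ
  have hint := (mem_schubert_rectIdx a b hbn ham V).1 hVX.1
  obtain ⟨Z', hZ'c, hZ'i, hVZ', hZ'X, hZ'd⟩ := exists_subset_interval a b ha hb ham hbn hP
    hint.1 hint.2 hVX.2
  have hZ'X' : Z' ⊆ ⋃₀ S := by
    rw [← hSU]
    intro W hW
    obtain ⟨h1, h2⟩ := hZ'X hW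
    exact ⟨(mem_schubert_rectIdx a b hbn ham W).2 h1, h2⟩
  have hZ'Z : Z' ⊆ Z := by
    obtain ⟨W, hW, hZ'W⟩ := isIrreducible_iff_sUnion_isClosed.1 hZ'i T
      (fun W hW => hSc W (hSf.mem_toFinset.1 hW)) (by
        intro V hV
        obtain ⟨W, hW, hVW⟩ := hZ'X' hV
        exact ⟨W, by simpa [T] using hW, hVW⟩)
    rwa [hV W (hSf.mem_toFinset.1 hW) (hZ'W hVZ')] at hZ'W
  have hk1 : a * b - 1 = k := by omega
  rw [hk1] at hZ'd
  have hle1 : topologicalKrullDim ↥Z' ≤ topologicalKrullDim ↥Z := by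
    rcases eq_or_ne Z' Z with h | h
    · rw [h]
    · have := krullDim_add_one_le hZ'c hZ'i (hSc Z hZS) (hSi Z hZS)
        ⟨hZ'Z, fun h2 => h (Set.Subset.antisymm hZ'Z h2)⟩
      refine le_trans ?_ this
      exact le_add_of_nonneg_right (by norm_num)
  have hle2 : topologicalKrullDim ↥Z + 1 ≤ (k + 1 : ℕ) := by
    rw [← hYd]
    exact krullDim_add_one_le (hSc Z hZS) (hSi Z hZS) hYc hYi hZssJ
  exact le_antisymm (le_of_add_one_le hle2) (hZ'd.trans hle1)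

/-- all degrees, `k ≤ 3` -/
theorem small_dimension {k d : ℕ} (hd : 1 ≤ d) (hm : 1 ≤ m) (hmn : m < n)
    (hk : k < m * (n - m)) (hk3 : k ≤ 1 ∨ (k ≤ 3 ∧ k ≠ m ∧ k ≠ n - m)) {X : Set (Gr m n)}
    (hX : IsHypersurface d X) : effCone k X = schubertCone m n k := by
  obtain ⟨P, hP, _, rfl⟩ := hX
  refine effCone_eq fun I => ?_
  obtain ⟨a, b, ha, ham, hb, hbn, hab, hI⟩ := exists_isNearRect hm hmn hk hk3 I.1 I.2
  exact nearRect ha ham hb hbn I hI hab hd hP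

end Pool.Agent.GrCyc
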