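import Pool.Agent.GrCyc.Defs

/-! Plücker coordinates: change of basis, homogeneous polynomials, alternating forms. -/

namespace Pool.Agent.GrCyc

open MvPolynomial Module

variable {m n : ℕ}

theorem eval_smul_of_hom {σ : Type*} {d : ℕ} {P : MvPolynomial σ ℂ} (hP : P.IsHomogeneous d)
    (c : ℂ) (x : σ → ℂ) : eval (fun i => c * x i) P = c ^ d * eval x P := by
  rw [eval_eq, eval_eq, Finset.mul_sum]
  refine Finset.sum_congr rfl fun s hs => ?_
  have h1 := hP.degree_eq_sum_deg_support hs
  rw [Finset.prod_congr rfl (fun i _ => mul_pow c (x i) (s i)), Finset.prod_mul_distrib,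
    Finset.prod_pow_eq_pow_sum]
  have : ∑ i ∈ s.support, s i = d := h1.symm
  rw [this]
  ring

theorem plu_mul (M : Matrix (Fin m) (Fin m) ℂ) (A : Fin m → Fin n → ℂ) (K : Fin m ↪o Fin n) :
    plu (fun i => ∑ j, M i j • A j) K = M.det * plu A K := by
  unfold plu
  rw [← Matrix.det_mul]
  congr 1
  ext i j
  simp [Matrix.mul_apply, Finset.sum_apply]

theorem eval_plu_mul {d : ℕ} {P : MvPolynomial (Fin m ↪o Fin n) ℂ} (hP : P.IsHomogeneous d)
    (M : Matrix (Fin m) (Fin m) ℂ) (A : Fin m → Fin n → ℂ) :
    eval (plu (fun i => ∑ j, M i j • A j)) P = M.det ^ d * eval (plu A) P := by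
  have : plu (fun i => ∑ j, M i j • A j) = fun K => M.det * plu A K := by
    funext K
    exact plu_mul M A K
  rw [this, eval_smul_of_hom hP]

theorem linearIndependent_of_span (V : Gr m n) (A : Fin m → Fin n → ℂ)
    (h : Submodule.span ℂ (Set.range A) = V.1) : LinearIndependent ℂ A := by
  rw [linearIndependent_iff_card_eq_finrank_span, Fintype.card_fin]
  unfold Set.finrank
  rw [h, V.2]

theorem exists_basis (V : Gr m n) : ∃ A : Fin m → Fin n → ℂ, LinearIndependent ℂ A ∧
    Submodule.span ℂ (Set.range A) = V.1 := by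
  let b := Module.finBasisOfFinrankEq ℂ V.1 V.2
  refine ⟨fun i => (b i : Fin n → ℂ), ?_, ?_⟩
  · exact b.linearIndependent.map' V.1.subtype (Submodule.ker_subtype _)
  · have h1 : Set.range (fun i => (b i : Fin n → ℂ)) = V.1.subtype '' Set.range b := by
      rw [← Set.range_comp]; rfl
    rw [h1, Submodule.span_image, b.span_eq, Submodule.map_top, Submodule.range_subtype]

/-- The subspace with basis `A`. -/
def ofBasis (A : Fin m → Fin n → ℂ) (hA : LinearIndependent ℂ A) : Gr m n :=
  ⟨Submodule.span ℂ (Set.range A), by rw [finrank_span_eq_card hA, Fintype.card_fin]⟩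

theorem exists_matrix_of_span_eq {A B : Fin m → Fin n → ℂ} (hB : LinearIndependent ℂ B)
    (h : Submodule.span ℂ (Set.range A) = Submodule.span ℂ (Set.range B)) :
    ∃ M : Matrix (Fin m) (Fin m) ℂ, M.det ≠ 0 ∧ B = fun i => ∑ j, M i j • A j := by
  have h1 : ∀ i, ∃ c : Fin m → ℂ, ∑ j, c j • A j = B i := by
    intro i
    have : B i ∈ Submodule.span ℂ (Set.range A) := by
      rw [h]; exact Submodule.subset_span ⟨i, rfl⟩
    rwa [Submodule.mem_span_range_iff_exists_fun] at this
  have h2 : ∀ i, ∃ c : Fin m → ℂ, ∑ j, c j • B j = A i := by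
    intro i
    have : A i ∈ Submodule.span ℂ (Set.range B) := by
      rw [← h]; exact Submodule.subset_span ⟨i, rfl⟩
    rwa [Submodule.mem_span_range_iff_exists_fun] at this
  choose M hM using h1
  choose N hN using h2
  refine ⟨Matrix.of M, ?_, ?_⟩
  · have hMN : (Matrix.of M) * (Matrix.of N) = 1 := by
      ext i k
      have h3 : ∑ k, ((Matrix.of M) * (Matrix.of N)) i k • B k = B i := by
        rw [← hM i]
        simp_rw [Matrix.mul_apply, Finset.sum_smul]
        rw [Finset.sum_comm]
        refine Finset.sum_congr rfl fun j _ => ?_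
        rw [← hN j, Finset.smul_sum]
        refine Finset.sum_congr rfl fun k _ => ?_
        rw [Matrix.of_apply, Matrix.of_apply, smul_smul]
      have h4 : ∑ k, (((Matrix.of M) * (Matrix.of N)) i k - (1 : Matrix (Fin m) (Fin m) ℂ) i k) • B k
          = 0 := by
        simp_rw [sub_smul]
        rw [Finset.sum_sub_distrib, h3]
        simp [Matrix.one_apply]
      have h5 := (Fintype.linearIndependent_iff.1 hB) _ h4 k
      exact sub_eq_zero.1 h5
    intro h0
    have := congrArg Matrix.det hMN
    rw [Matrix.det_mul, h0, zero_mul, Matrix.det_one] at this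
    exact zero_ne_one this
  · funext i
    exact (hM i).symm

theorem plu_eq_zero {A : Fin m → Fin n → ℂ} (h : ¬ LinearIndependent ℂ A) : plu A = 0 := by
  funext K
  rw [Fintype.linearIndependent_iff] at h
  push Not at h
  obtain ⟨g, hg, i, hi⟩ := h
  unfold plu
  show Matrix.det _ = 0
  by_contra hdet
  have hinv : IsUnit (Matrix.of fun i j => A i (K j)).det := isUnit_iff_ne_zero.2 hdet
  have h1 : Matrix.vecMul g (Matrix.of fun i j => A i (K j)) = 0 := by
    funext j
    have := congrFun hg (K j)
    simpa [Matrix.vecMul, dotProduct, Finset.sum_apply] using this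
  have h2 : g = 0 := by
    have h3 := congrArg (fun v => Matrix.vecMul v (Matrix.of fun i j => A i (K j))⁻¹) h1
    simp only [Matrix.vecMul_vecMul, Matrix.zero_vecMul] at h3
    rwa [Matrix.mul_nonsing_inv _ hinv, Matrix.vecMul_one] at h3
  exact hi (congrFun h2 i)

/-- Every alternating `m`-form on `ℂ^n` is a linear combination of the Plücker coordinates. -/
theorem alternating_expand (φ : (Fin n → ℂ) [⋀^Fin m]→ₗ[ℂ] ℂ) :
    ∃ c : (Fin m ↪o Fin n) → ℂ, ∀ A : Fin m → Fin n → ℂ, φ A = ∑ K, c K * plu A K := by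
  classical
  let b := Pi.basisFun ℂ (Fin n)
  let B := b.exteriorPower m
  let e := Set.powersetCard.ofFinEmbEquiv (n := m) (I := Fin n)
  refine ⟨fun K => exteriorPower.alternatingMapLinearEquiv φ (B (e K)), fun A => ?_⟩
  rw [← exteriorPower.alternatingMapLinearEquiv_apply_ιMulti φ A]
  have h1 : exteriorPower.ιMulti ℂ m A = ∑ s, B.repr (exteriorPower.ιMulti ℂ m A) s • B s :=
    (B.sum_repr _).symm
  rw [h1, map_sum, ← e.sum_comp]
  refine Finset.sum_congr rfl fun K _ => ?_
  rw [map_smul, smul_eq_mul, mul_comm]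
  congr 1
  rw [exteriorPower.basis_repr_apply, exteriorPower.ιMultiDual_apply_ιMulti]
  unfold plu
  congr 1
  ext i j
  simp [e, b]

theorem exists_plu_ne_zero {A : Fin m → Fin n → ℂ} (h : LinearIndependent ℂ A) :
    ∃ K, plu A K ≠ 0 := by
  by_contra hcon
  push Not at hcon
  -- extend to a basis and take the determinant of the first coordinates
  obtain ⟨f, hf⟩ : ∃ f : (Fin n → ℂ) →ₗ[ℂ] (Fin m → ℂ), ∀ i, f (A i) = Pi.single i 1 := by
    obtain ⟨g, hg⟩ := LinearMap.exists_leftInverse_of_injective
      (Fintype.linearCombination ℂ A) (LinearMap.ker_eq_bot.2 (linearIndependent_iff_injective_fintypeLinearCombination.1 h))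
    refine ⟨g, fun i => ?_⟩
    have := LinearMap.congr_fun hg (Pi.single i 1)
    simpa [Fintype.linearCombination_apply_single] using this
  obtain ⟨c, hc⟩ := alternating_expand
    ((Matrix.detRowAlternating (n := Fin m) (R := ℂ)).compLinearMap f)
  have h1 := hc A
  rw [Finset.sum_eq_zero (fun K _ => by rw [hcon K, mul_zero])] at h1
  have h2 : ((Matrix.detRowAlternating (n := Fin m) (R := ℂ)).compLinearMap f) A = 1 := by
    rw [AlternatingMap.compLinearMap_apply]
    have : (fun i => f (A i)) = (1 : Matrix (Fin m) (Fin m) ℂ) := by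
      funext i j
      rw [hf i, Matrix.one_apply, Pi.single_apply]
      simp [eq_comm]
    show Matrix.det (fun i => f (A i)) = 1
    rw [this, Matrix.det_one]
  rw [h2] at h1
  exact one_ne_zero h1

theorem mem_zeros_iff {d : ℕ} {P : MvPolynomial (Fin m ↪o Fin n) ℂ} (hP : P.IsHomogeneous d)
    {V : Gr m n} {A : Fin m → Fin n → ℂ} (hA : Submodule.span ℂ (Set.range A) = V.1) :
    V ∈ zeros P ↔ eval (plu A) P = 0 := by
  refine ⟨fun h => h A hA, fun h B hB => ?_⟩
  obtain ⟨M, _, rfl⟩ := exists_matrix_of_span_eq (linearIndependent_of_span V B hB)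
    (hA.trans hB.symm)
  rw [eval_plu_mul hP, h, mul_zero]

end Pool.Agent.GrCyc
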