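import Pool.Agent.GrCyc.Index
import Pool.Agent.GrCyc.Schub
import Pool.Agent.GrCyc.Interval
import Pool.Agent.GrCyc.Cone

/-! The stable range. -/

namespace Pool.Agent.GrCyc

open Module

variable {m n : ℕ}

theorem effCone_eq_of_interval {k : ℕ} {X : Set (Gr m n)} {A B : Submodule ℂ (Fin n → ℂ)}
    (hAB : A ≤ B) (hA : finrank ℂ A = m - k) (hB : finrank ℂ B = min (m + k) n)
    (hX : ∀ V : Gr m n, A ≤ V.1 → V.1 ≤ B → V ∈ X) : effCone k X = schubertCone m n k := by
  obtain ⟨h, h1, h2⟩ := exists_GL_flag hAB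
  rw [hA] at h1
  rw [hB] at h2
  refine effCone_eq fun I => ⟨schubert I.1 h.1, 1, Nat.one_pos, ?_, ?_⟩
  · have h3 := isSubvariety_schubert I.1 h (X := X) (fun V hV => by
      obtain ⟨h4, h5⟩ := schubert_le I.1 I.2 h hV
      rw [h1] at h4
      rw [h2] at h5
      exact hX V h4 h5)
    rwa [I.2] at h3
  · rw [Nat.cast_one]
    exact isClass_schubert I h

theorem effCone_univ (k : ℕ) : effCone k (Set.univ : Set (Gr m n)) = schubertCone m n k := by
  refine effCone_eq fun I => ⟨schubert I.1 1, 1, Nat.one_pos, ?_, ?_⟩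
  · have h3 := isSubvariety_schubert I.1 1 (X := Set.univ) (Set.subset_univ _)
    rwa [I.2] at h3
  · rw [Nat.cast_one]
    exact isClass_schubert I 1

theorem lefschetz_range {k m n : ℕ} (hm : 1 ≤ m) (hmn : m < n) (h1 : 2 * k + 3 ≤ n) :
    2 * k < m * (n - m) - 1 := by
  obtain ⟨c, rfl⟩ := Nat.exists_eq_add_of_lt hmn
  have h2 : m + c + 1 - m = c + 1 := by omega
  rw [h2]
  have h3 : m + c ≤ m * (c + 1) := by nlinarith
  omega

theorem stable_range {k d m n : ℕ} (hd : 1 ≤ d) (hm : 1 ≤ m) (hmn : m < n)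
    (hn : 2 * (k + (d + 1) ^ (k * (2 * k + 1))) + 1 ≤ n) {X : Set (Gr m n)}
    (hX : IsHypersurface d X) :
    2 * k < m * (n - m) - 1 ∧ effCone k X = schubertCone m n k := by
  have h0 : 1 ≤ (d + 1) ^ (k * (2 * k + 1)) := Nat.one_le_pow _ _ (by omega)
  refine ⟨lefschetz_range hm hmn (by omega), ?_⟩
  obtain ⟨P, hP, _, rfl⟩ := hX
  obtain ⟨A, B, hAB, hA, hB, hV⟩ := exists_interval_explicit k d hd m n hm hmn
    (by rwa [← two_mul]) P hP
  exact effCone_eq_of_interval hAB hA hB hV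

end Pool.Agent.GrCyc
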