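import Pool.Agent.GrCyc.Plu

/-! The Zariski topology of `Gr m n`. -/

namespace Pool.Agent.GrCyc

open MvPolynomial Module

variable {m n : ℕ}

theorem isClosed_zeros {d : ℕ} {P : MvPolynomial (Fin m ↪o Fin n) ℂ} (hP : P.IsHomogeneous d) :
    IsClosed (zeros P) :=
  ⟨TopologicalSpace.isOpen_generateFrom_of_mem ⟨d, P, hP, rfl⟩⟩

theorem zeros_mul {d e : ℕ} {P Q : MvPolynomial (Fin m ↪o Fin n) ℂ} (hP : P.IsHomogeneous d)
    (hQ : Q.IsHomogeneous e) : zeros (P * Q) = zeros P ∪ zeros Q := by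
  ext V
  obtain ⟨A, _, hA⟩ := exists_basis V
  rw [Set.mem_union, mem_zeros_iff hP hA, mem_zeros_iff hQ hA, mem_zeros_iff (hP.mul hQ) hA,
    map_mul, mul_eq_zero]

theorem zeros_one : zeros (1 : MvPolynomial (Fin m ↪o Fin n) ℂ) = ∅ := by
  ext V
  obtain ⟨A, _, hA⟩ := exists_basis V
  rw [mem_zeros_iff (isHomogeneous_one _ _) hA]
  simp

theorem isTopologicalBasis (m n : ℕ) : TopologicalSpace.IsTopologicalBasis
    (insert Set.univ {U : Set (Gr m n) | ∃ (d : ℕ) (P : MvPolynomial (Fin m ↪o Fin n) ℂ),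
      P.IsHomogeneous d ∧ U = (zeros P)ᶜ}) := by
  refine TopologicalSpace.isTopologicalBasis_of_subbasis_of_inter rfl ?_
  rintro _ ⟨d, P, hP, rfl⟩ _ ⟨e, Q, hQ, rfl⟩
  refine ⟨d + e, P * Q, hP.mul hQ, ?_⟩
  rw [zeros_mul hP hQ, Set.compl_union]

/-- closed sets are the common zero loci of homogeneous polynomials -/
theorem isClosed_iff {Z : Set (Gr m n)} : IsClosed Z ↔ ∀ V, V ∉ Z →
    ∃ (d : ℕ) (P : MvPolynomial (Fin m ↪o Fin n) ℂ), P.IsHomogeneous d ∧ Z ⊆ zeros P ∧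
      V ∉ zeros P := by
  constructor
  · intro hZ V hV
    obtain ⟨U, hU, hVU, hUZ⟩ := (isTopologicalBasis m n).exists_subset_of_mem_open
      (show V ∈ Zᶜ from hV) hZ.isOpen_compl
    rcases hU with rfl | ⟨d, P, hP, rfl⟩
    · refine ⟨0, 1, isHomogeneous_one _ _, ?_, ?_⟩
      · intro W hW
        exact absurd hW (hUZ (Set.mem_univ W))
      · rw [zeros_one]; exact fun h => h
    · exact ⟨d, P, hP, Set.compl_subset_compl.1 hUZ, hVU⟩
  · intro h
    rw [← isOpen_compl_iff, (isTopologicalBasis m n).isOpen_iff]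
    intro V hV
    obtain ⟨d, P, hP, hZP, hVP⟩ := h V hV
    exact ⟨(zeros P)ᶜ, Or.inr ⟨d, P, hP, rfl⟩, hVP, Set.compl_subset_compl.2 hZP⟩

/-- criterion for irreducibility -/
theorem isIrreducible_of {Z : Set (Gr m n)} (hne : Z.Nonempty)
    (h : ∀ (d e : ℕ) (P Q : MvPolynomial (Fin m ↪o Fin n) ℂ), P.IsHomogeneous d →
      Q.IsHomogeneous e → ¬ Z ⊆ zeros P → ¬ Z ⊆ zeros Q → ∃ V ∈ Z, V ∉ zeros P ∧ V ∉ zeros Q) :
    IsIrreducible Z := by
  refine ⟨hne, ?_⟩
  rintro u v hu hv ⟨V, hVZ, hVu⟩ ⟨W, hWZ, hWv⟩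
  obtain ⟨U, hU, hVU, hUu⟩ := (isTopologicalBasis m n).exists_subset_of_mem_open hVu hu
  obtain ⟨U', hU', hWU', hUv⟩ := (isTopologicalBasis m n).exists_subset_of_mem_open hWv hv
  have key : ∀ (U : Set (Gr m n)), U ∈ (insert Set.univ {U : Set (Gr m n) |
      ∃ (d : ℕ) (P : MvPolynomial (Fin m ↪o Fin n) ℂ), P.IsHomogeneous d ∧ U = (zeros P)ᶜ}) →
      ∃ (d : ℕ) (P : MvPolynomial (Fin m ↪o Fin n) ℂ), P.IsHomogeneous d ∧ U = (zeros P)ᶜ := by
    rintro U (rfl | h)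
    · exact ⟨0, 1, isHomogeneous_one _ _, by rw [zeros_one, Set.compl_empty]⟩
    · exact h
  obtain ⟨d, P, hP, rfl⟩ := key U hU
  obtain ⟨e, Q, hQ, rfl⟩ := key U' hU'
  obtain ⟨T, hT, h1, h2⟩ := h d e P Q hP hQ (fun h => hVU (h hVZ)) (fun h => hWU' (h hWZ))
  exact ⟨T, hT, hUu h1, hUv h2⟩

theorem subset_or_of_irreducible {Z : Set (Gr m n)} (hZ : IsIrreducible Z) {d e : ℕ}
    {P Q : MvPolynomial (Fin m ↪o Fin n) ℂ} (hP : P.IsHomogeneous d) (hQ : Q.IsHomogeneous e)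
    (h : Z ⊆ zeros (P * Q)) : Z ⊆ zeros P ∨ Z ⊆ zeros Q := by
  rw [zeros_mul hP hQ] at h
  exact (isPreirreducible_iff_isClosed_union_isClosed.1 hZ.2) _ _ (isClosed_zeros hP)
    (isClosed_zeros hQ) h

/-- the linear form in the Plücker coordinates which vanishes on the subspaces that meet `W` -/
theorem exists_form_of_compl (V : Gr m n) (W : Submodule ℂ (Fin n → ℂ)) (hW : IsCompl V.1 W) :
    ∃ P : MvPolynomial (Fin m ↪o Fin n) ℂ, P.IsHomogeneous 1 ∧
      ∀ V' : Gr m n, V' ∈ zeros P ↔ V'.1 ⊓ W ≠ ⊥ := by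
  let b := Module.finBasisOfFinrankEq ℂ V.1 V.2
  let f : (Fin n → ℂ) →ₗ[ℂ] (Fin m → ℂ) := b.equivFun.toLinearMap ∘ₗ V.1.projectionOnto W hW
  have hker : LinearMap.ker f = W := by
    ext x
    show b.equivFun (V.1.projectionOnto W hW x) = 0 ↔ x ∈ W
    rw [LinearEquiv.map_eq_zero_iff, Submodule.projectionOnto_apply_eq_zero_iff]
  obtain ⟨c, hc⟩ := alternating_expand
    ((Matrix.detRowAlternating (n := Fin m) (R := ℂ)).compLinearMap f)
  refine ⟨∑ K, C (c K) * X K, ?_, ?_⟩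
  · refine IsHomogeneous.sum _ _ _ fun K _ => ?_
    exact (isHomogeneous_X _ K).C_mul _
  · intro V'
    obtain ⟨A, hA, hAV⟩ := exists_basis V'
    rw [mem_zeros_iff (IsHomogeneous.sum _ _ _ fun K _ => (isHomogeneous_X _ K).C_mul _) hAV]
    have h1 : eval (plu A) (∑ K, C (c K) * X K) = Matrix.det (Matrix.of fun i => f (A i)) := by
      rw [map_sum]
      simp only [map_mul, eval_C, eval_X]
      rw [← hc A]
      rfl
    rw [h1]
    constructor
    · intro hdet h0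
      -- a nontrivial relation between the rows `f (A i)`
      obtain ⟨v, hv, hv0⟩ := Matrix.exists_vecMul_eq_zero_iff.2 hdet
      have h2 : f (∑ i, v i • A i) = 0 := by
        rw [map_sum]
        funext j
        have := congrFun hv0 j
        simpa [Matrix.vecMul, dotProduct, Finset.sum_apply] using this
      have h3 : ∑ i, v i • A i ∈ V'.1 ⊓ W := by
        refine ⟨?_, ?_⟩
        · rw [← hAV]
          exact Submodule.sum_mem _ fun i _ => Submodule.smul_mem _ _ (Submodule.subset_span ⟨i, rfl⟩)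
        · rw [← hker]; exact h2
      rw [h0, Submodule.mem_bot] at h3
      exact hv (funext fun i => (Fintype.linearIndependent_iff.1 hA) v h3 i)
    · intro h
      obtain ⟨w, hw, hw0⟩ := (Submodule.ne_bot_iff _).1 h
      have hwV : w ∈ Submodule.span ℂ (Set.range A) := by rw [hAV]; exact hw.1
      obtain ⟨v, hv⟩ := (Submodule.mem_span_range_iff_exists_fun ℂ).1 hwV
      apply Matrix.exists_vecMul_eq_zero_iff.1
      refine ⟨v, ?_, ?_⟩
      · rintro rfl
        apply hw0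
        rw [← hv]; simp
      · have h2 : f w = 0 := by
          have : w ∈ LinearMap.ker f := by rw [hker]; exact hw.2
          exact this
        rw [← hv, map_sum] at h2
        funext j
        have := congrFun h2 j
        simpa [Matrix.vecMul, dotProduct, Finset.sum_apply] using this

/-- the condition `dim (V ∩ F) ≥ r` is closed -/
theorem isClosed_rank (F : Submodule ℂ (Fin n → ℂ)) (r : ℕ) :
    IsClosed {V : Gr m n | r ≤ finrank ℂ ↥(V.1 ⊓ F)} := by
  rw [isClosed_iff]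
  intro V hV
  simp only [Set.mem_ofPred_eq, not_le] at hV
  -- complement of `V ∩ F` in `F`
  obtain ⟨F₁', hF₁'⟩ := Submodule.exists_isCompl (V.1 ⊓ F)
  let F₁ := F₁' ⊓ F
  have h1 : Disjoint (V.1 ⊓ F) F₁ := hF₁'.disjoint.mono_right inf_le_left
  have h2 : V.1 ⊓ F ⊔ F₁ = F := by
    show V.1 ⊓ F ⊔ F₁' ⊓ F = F
    rw [← sup_inf_assoc_of_le F₁' (inf_le_right : V.1 ⊓ F ≤ F), hF₁'.sup_eq_top, top_inf_eq]
  have h3 : Disjoint F₁ V.1 := by
    rw [disjoint_iff]
    rw [disjoint_iff] at h1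
    rw [← h1]
    show (F₁' ⊓ F) ⊓ V.1 = V.1 ⊓ F ⊓ (F₁' ⊓ F)
    ext x
    simp only [Submodule.mem_inf]
    tauto
  obtain ⟨W, hW1, hW2⟩ := h3.exists_isCompl
  obtain ⟨P, hP, hPW⟩ := exists_form_of_compl V W hW2.symm
  refine ⟨1, P, hP, ?_, ?_⟩
  · intro V' hV'
    rw [hPW]
    intro h0
    have h4 : (V'.1 ⊓ F) ⊓ F₁ = ⊥ := by
      rw [eq_bot_iff, ← h0]
      exact le_inf (inf_le_left.trans inf_le_left) (inf_le_right.trans hW1)
    have h5 := Submodule.finrank_sup_add_finrank_inf_eq (V'.1 ⊓ F) F₁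
    have h6 := Submodule.finrank_sup_add_finrank_inf_eq (V.1 ⊓ F) F₁
    rw [h4, finrank_bot] at h5
    rw [disjoint_iff.1 h1, finrank_bot, h2] at h6
    have h7 : finrank ℂ ↥(V'.1 ⊓ F ⊔ F₁) ≤ finrank ℂ F :=
      Submodule.finrank_mono (sup_le inf_le_right inf_le_right)
    have h8 : r ≤ finrank ℂ ↥(V'.1 ⊓ F) := hV'
    omega
  · rw [hPW]
    intro h
    exact h hW2.symm.disjoint.eq_bot

theorem isClosed_schubert (I : Fin m ↪o Fin n) (g : Matrix (Fin n) (Fin n) ℂ) :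
    IsClosed (schubert I g) := by
  have : schubert I g = ⋂ t : Fin m, {V : Gr m n | (t : ℕ) + 1 ≤
    finrank ℂ ↥(V.1 ⊓ (low n ((I t : ℕ) + 1)).map (Matrix.toLin' g))} := by
    ext V; simp [schubert]
  rw [this]
  exact isClosed_iInter fun t => isClosed_rank _ _

/-- `Gr m n` is a Noetherian topological space -/
theorem noetherian (m n : ℕ) : TopologicalSpace.NoetherianSpace (Gr m n) := by
  let I : TopologicalSpace.Opens (Gr m n) → Ideal (MvPolynomial (Fin m ↪o Fin n) ℂ) := fun U =>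
    Ideal.span {P | ∃ d, P.IsHomogeneous d ∧ (U : Set (Gr m n))ᶜ ⊆ zeros P}
  have hI : StrictMono I := by
    intro U U' hlt
    refine lt_of_le_of_ne (Ideal.span_mono ?_) ?_
    · rintro P ⟨d, hP, h⟩
      exact ⟨d, hP, (Set.compl_subset_compl.2 hlt.le).trans h⟩
    · intro heq
      obtain ⟨V, hV', hV⟩ := Set.exists_of_ssubset (show (U : Set (Gr m n)) ⊂ U' from hlt)
      obtain ⟨d, P, hP, h1, h2⟩ := isClosed_iff.1 U'.2.isClosed_compl V (fun h => h hV')
      obtain ⟨A, _, hA⟩ := exists_basis V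
      have h3 : P ∈ I U := by
        rw [heq]
        exact Ideal.subset_span ⟨d, hP, h1⟩
      have h4 : I U ≤ RingHom.ker (eval (plu A)) := by
        refine Ideal.span_le.2 ?_
        rintro Q ⟨e, hQ, h⟩
        exact (mem_zeros_iff hQ hA).1 (h hV)
      exact h2 ((mem_zeros_iff hP hA).2 (h4 h3))
  exact hI.wellFoundedGT

/-- a closed set is the zero locus of finitely many homogeneous polynomials -/
theorem exists_finite_equations {Z : Set (Gr m n)} (hZ : IsClosed Z) :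
    ∃ (r : ℕ) (Q : Fin r → MvPolynomial (Fin m ↪o Fin n) ℂ) (e : Fin r → ℕ),
      (∀ i, (Q i).IsHomogeneous (e i)) ∧ Z = ⋂ i, zeros (Q i) := by
  have := noetherian m n
  have hc : IsCompact (Zᶜ) := TopologicalSpace.NoetherianSpace.isCompact _
  choose! d P hP h1 h2 using isClosed_iff.1 hZ
  obtain ⟨t, ht⟩ := hc.elim_finite_subcover (fun V : ↥(Zᶜ) => (zeros (P V))ᶜ)
    (fun V => (isClosed_zeros (hP V V.2)).isOpen_compl)
    (fun V hV => Set.mem_iUnion.2 ⟨⟨V, hV⟩, h2 V hV⟩)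
  let e := t.equivFin.symm
  refine ⟨t.card, fun i => P (e i).1, fun i => d (e i).1, fun i => hP _ (e i).1.2, ?_⟩
  ext V
  rw [Set.mem_iInter]
  constructor
  · intro hV i
    exact h1 _ (e i).1.2 hV
  · intro h
    by_contra hV
    have := ht (show V ∈ Zᶜ from hV)
    simp only [Set.mem_iUnion] at this
    obtain ⟨W, hW, hVW⟩ := this
    exact hVW (by simpa [e] using h (e.symm ⟨W, hW⟩))

end Pool.Agent.GrCyc
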